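import Mathlib

/-!
# Amalgams and stable letters
-/

namespace Pool.Agent.Helper87.Ray

open Monoid

/-- Two monomorphisms of a group become inner in an overgroup. -/
theorem exists_stable {G : Type} [Group G] (φ : G →* G) (hφ : Function.Injective φ) :
    ∃ (E : Type) (_ : Group E) (i : G →* E) (t : E), Function.Injective i ∧
      ∀ g, t * i g * t⁻¹ = i (φ g) := by
  let e : (⊤ : Subgroup G) ≃* φ.range := Subgroup.topEquiv.trans (MonoidHom.ofInjective hφ)
  refine ⟨HNNExtension G ⊤ φ.range e, inferInstance, HNNExtension.of, HNNExtension.t,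
    HNNExtension.of_injective _, ?_⟩
  intro g
  have h := HNNExtension.equiv_eq_conj (φ := e) (⟨g, Subgroup.mem_top g⟩ : (⊤ : Subgroup G))
  rw [← h]
  rfl

theorem exists_stable' {G E : Type} [Group G] [Group E] (i : G →* E) (hi : Function.Injective i)
    (φ : G →* G) (hφ : Function.Injective φ) :
    ∃ (E' : Type) (_ : Group E') (j : E →* E') (t : E'), Function.Injective j ∧
      ∀ g, t * j (i g) * t⁻¹ = j (i (φ g)) := by
  let e1 : G ≃* i.range := MonoidHom.ofInjective hi
  let e2 : G ≃* (i.comp φ).range := MonoidHom.ofInjective (f := i.comp φ) (hi.comp hφ)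
  let e : i.range ≃* (i.comp φ).range := e1.symm.trans e2
  refine ⟨HNNExtension E i.range (i.comp φ).range e, inferInstance, HNNExtension.of,
    HNNExtension.t, HNNExtension.of_injective _, ?_⟩
  intro g
  have h := HNNExtension.equiv_eq_conj (φ := e) (e1 g)
  have h1 : ((e1 g : i.range) : E) = i g := rfl
  have h2 : ((e (e1 g) : (i.comp φ).range) : E) = i (φ g) := by
    simp only [e, MulEquiv.trans_apply, MulEquiv.symm_apply_apply]
    rfl
  rw [h1, h2] at h
  exact h.symm

theorem exists_two_stable {G : Type} [Group G] (φ : Bool → G →* G)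
    (hφ : ∀ b, Function.Injective (φ b)) :
    ∃ (E : Type) (_ : Group E) (i : G →* E) (t : Bool → E), Function.Injective i ∧
      ∀ b g, t b * i g * (t b)⁻¹ = i (φ b g) := by
  obtain ⟨E1, _, i1, t1, hi1, ht1⟩ := exists_stable (φ false) (hφ false)
  obtain ⟨E2, _, i2, t2, hi2, ht2⟩ := exists_stable' i1 hi1 (φ true) (hφ true)
  refine ⟨E2, inferInstance, i2.comp i1, fun b => cond b t2 (i2 t1), hi2.comp hi1, ?_⟩
  intro b g
  cases b
  · simp only [cond_false, MonoidHom.comp_apply]
    rw [← ht1 g, map_mul, map_mul, map_inv]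
  · simp only [cond_true, MonoidHom.comp_apply]
    exact ht2 g

/-- A group containing the free group on two letters twice, the second copy acting on the first
one by the given monomorphisms. -/
theorem exists_pair (φ : Bool → FreeGroup Bool →* FreeGroup Bool)
    (hφ : ∀ b, Function.Injective (φ b)) :
    ∃ (Y : Type) (_ : Group Y) (β σ : FreeGroup Bool →* Y), Function.Injective β ∧
      Function.Injective σ ∧ (∀ u v, σ u = β v → u = 1) ∧
      ∀ b g, σ (FreeGroup.of b) * β g * (σ (FreeGroup.of b))⁻¹ = β (φ b g) := by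
  obtain ⟨E, _, i, t, hi, ht⟩ := exists_two_stable φ hφ
  let β : FreeGroup Bool →* E × FreeGroup Bool := MonoidHom.prod i 1
  let σ : FreeGroup Bool →* E × FreeGroup Bool :=
    MonoidHom.prod (FreeGroup.lift t) (MonoidHom.id _)
  refine ⟨E × FreeGroup Bool, inferInstance, β, σ, ?_, ?_, ?_, ?_⟩
  · intro u v h
    exact hi (congrArg Prod.fst h)
  · intro u v h
    exact congrArg Prod.snd h
  · intro u v h
    exact congrArg Prod.snd h
  · intro b g
    apply Prod.ext
    · simpa [β, σ] using ht b g
    · simp [β, σ]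

/-- Free products inside amalgams. -/
theorem lift_injective {ι : Type} {K G : ι → Type} {H : Type} [∀ i, Group (K i)]
    [∀ i, Group (G i)] [Group H] (φ : ∀ i, H →* G i) (hφ : ∀ i, Function.Injective (φ i))
    (f : ∀ i, K i →* G i) (hf : ∀ i u, u ≠ 1 → f i u ∉ (φ i).range) :
    Function.Injective (CoprodI.lift fun i => (PushoutI.of (φ := φ) i).comp (f i)) := by
  classical
  rw [injective_iff_map_eq_one]
  intro x hx
  obtain ⟨w, rfl⟩ := CoprodI.Word.equiv.symm.surjective x
  change (CoprodI.lift fun i => (PushoutI.of (φ := φ) i).comp (f i)) w.prod = 1 at hx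
  change w.prod = 1
  let w' : CoprodI.Word G :=
    { toList := w.toList.map fun l => ⟨l.1, f l.1 l.2⟩
      ne_one := by
        intro l hl
        rw [List.mem_map] at hl
        obtain ⟨k, hk, rfl⟩ := hl
        intro h
        have h' : f k.1 k.2 = 1 := h
        apply hf k.1 k.2 (w.ne_one k hk)
        rw [h']
        exact (φ k.1).range.one_mem
      chain_ne := by
        rw [List.isChain_map]
        exact w.chain_ne }
  have h1 : PushoutI.ofCoprodI (φ := φ) w'.prod =
      (CoprodI.lift fun i => (PushoutI.of (φ := φ) i).comp (f i)) w.prod := by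
    unfold CoprodI.Word.prod
    rw [map_list_prod, map_list_prod, List.map_map, List.map_map, List.map_map]
    congr 1
  have h2 : PushoutI.Reduced φ w' := by
    intro g hg
    simp only [w', List.mem_map] at hg
    obtain ⟨k, hk, rfl⟩ := hg
    exact hf k.1 k.2 (w.ne_one k hk)
  have h3 : w' = .empty := h2.eq_empty_of_mem_range hφ (by
    rw [h1, hx]
    exact Subgroup.one_mem _)
  have h4 : w'.toList = [] := by rw [h3]; rfl
  have h5 : w.toList = [] := by
    simpa [w'] using h4
  unfold CoprodI.Word.prod
  rw [h5]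
  rfl

/-- The free group on `Bool × Bool` in the free product of two free groups. -/
def toCoprod : FreeGroup (Bool × Bool) →* CoprodI (fun _ : Bool => FreeGroup Bool) :=
  FreeGroup.lift fun x => CoprodI.of (i := x.1) (FreeGroup.of x.2)

theorem toCoprod_injective : Function.Injective toCoprod := by
  let g : CoprodI (fun _ : Bool => FreeGroup Bool) →* FreeGroup (Bool × Bool) :=
    CoprodI.lift fun i => FreeGroup.map fun a => (i, a)
  have h : g.comp toCoprod = MonoidHom.id _ := by
    ext x
    simp [g, toCoprod]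
  intro x y hxy
  have h1 := congrArg g hxy
  rw [← MonoidHom.comp_apply, ← MonoidHom.comp_apply, h] at h1
  exact h1

/-- The half of the construction. -/
theorem exists_half (φ : Bool → FreeGroup Bool →* FreeGroup Bool)
    (hφ : ∀ b, Function.Injective (φ b)) :
    ∃ (M : Type) (_ : Group M) (T Q K : FreeGroup Bool →* M),
      Function.Injective (FreeGroup.lift fun x : Bool × Bool =>
        cond x.1 (K (FreeGroup.of x.2)) (T (FreeGroup.of x.2))) ∧
      (∀ b g, T (FreeGroup.of b) * Q g * (T (FreeGroup.of b))⁻¹ = Q (φ b g)) ∧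
      (∀ b g, Q (FreeGroup.of b) * K g * (Q (FreeGroup.of b))⁻¹ = K (φ b g)) := by
  obtain ⟨Y, _, β, σ, hβ, hσ, hβσ, hact⟩ := exists_pair φ hφ
  let ψ : ∀ _ : Bool, FreeGroup Bool →* Y := fun b => cond b σ β
  have hψ : ∀ b, Function.Injective (ψ b) := by
    intro b; cases b
    · exact hβ
    · exact hσ
  let f : ∀ _ : Bool, FreeGroup Bool →* Y := fun b => cond b β σ
  have hf : ∀ b u, u ≠ 1 → f b u ∉ (ψ b).range := by
    intro b u hu
    cases b
    · rintro ⟨v, hv⟩
      exact hu (hβσ u v hv.symm)
    · rintro ⟨v, hv⟩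
      have h1 : v = 1 := hβσ v u hv
      rw [h1, map_one] at hv
      exact hu (hβ (by rw [map_one]; exact hv.symm))
  have hinj := lift_injective (G := fun _ : Bool => Y) ψ hψ (K := fun _ : Bool => FreeGroup Bool)
    f hf
  let M := PushoutI (G := fun _ : Bool => Y) ψ
  let T : FreeGroup Bool →* M := (PushoutI.of (φ := ψ) false).comp σ
  let Q : FreeGroup Bool →* M := PushoutI.base ψ
  let K : FreeGroup Bool →* M := (PushoutI.of (φ := ψ) true).comp β
  have hQ0 : ∀ g, Q g = PushoutI.of (φ := ψ) false (β g) := fun g =>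
    (PushoutI.of_apply_eq_base ψ false g).symm
  have hQ1 : ∀ g, Q g = PushoutI.of (φ := ψ) true (σ g) := fun g =>
    (PushoutI.of_apply_eq_base ψ true g).symm
  refine ⟨M, inferInstance, T, Q, K, ?_, ?_, ?_⟩
  · have h1 : (FreeGroup.lift fun x : Bool × Bool =>
        cond x.1 (K (FreeGroup.of x.2)) (T (FreeGroup.of x.2))) =
        (CoprodI.lift fun i => (PushoutI.of (φ := ψ) i).comp (f i)).comp toCoprod := by
      ext ⟨i, a⟩
      cases i <;> simp [toCoprod, T, K, f]
    rw [h1]
    exact hinj.comp toCoprod_injective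
  · intro b g
    rw [hQ0, hQ0]
    simp only [T, MonoidHom.comp_apply]
    rw [← map_inv, ← map_mul, ← map_mul, hact]
  · intro b g
    rw [hQ1]
    simp only [K, MonoidHom.comp_apply]
    rw [← map_inv, ← map_mul, ← map_mul, hact]

/-- The target group: four copies of the free group of rank two, acting cyclically on each other,
with the first and the third one generating a free group of rank four. -/
theorem exists_target (φ : Bool → FreeGroup Bool →* FreeGroup Bool)
    (hφ : ∀ b, Function.Injective (φ b)) :
    ∃ (Γ : Type) (_ : Group Γ) (X : Fin 4 → FreeGroup Bool →* Γ),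
      Function.Injective (FreeGroup.lift fun x : Bool × Bool =>
        X (cond x.1 2 0) (FreeGroup.of x.2)) ∧
      (∀ c b g, X c (FreeGroup.of b) * X (c + 1) g * (X c (FreeGroup.of b))⁻¹ =
        X (c + 1) (φ b g)) := by
  obtain ⟨M, _, T, Q, K, hinj, hTQ, hQK⟩ := exists_half φ hφ
  let j : FreeGroup (Bool × Bool) →* M := FreeGroup.lift fun x : Bool × Bool =>
        cond x.1 (K (FreeGroup.of x.2)) (T (FreeGroup.of x.2))
  let sw : FreeGroup (Bool × Bool) →* FreeGroup (Bool × Bool) :=
    FreeGroup.map fun x => (!x.1, x.2)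
  have hsw : Function.Injective sw := by
    have h : sw.comp sw = MonoidHom.id _ := by
      ext ⟨a, b⟩
      simp [sw]
    intro x y hxy
    have h1 := congrArg sw hxy
    rw [← MonoidHom.comp_apply, ← MonoidHom.comp_apply, h] at h1
    exact h1
  let ψ : ∀ _ : Bool, FreeGroup (Bool × Bool) →* M := fun b => cond b (j.comp sw) j
  have hψ : ∀ b, Function.Injective (ψ b) := by
    intro b; cases b
    · exact hinj
    · exact hinj.comp hsw
  let Γ := PushoutI (G := fun _ : Bool => M) ψ
  let o0 : M →* Γ := PushoutI.of (φ := ψ) false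
  let o1 : M →* Γ := PushoutI.of (φ := ψ) true
  have hb0 : ∀ g, o0 (j g) = PushoutI.base ψ g := fun g => PushoutI.of_apply_eq_base ψ false g
  have hb1 : ∀ g, o1 (j (sw g)) = PushoutI.base ψ g :=
    fun g => PushoutI.of_apply_eq_base ψ true g
  -- the two identifications
  have hT : o0.comp T = o1.comp K := by
    ext a
    have h1 := hb0 (FreeGroup.of (false, a))
    have h2 := hb1 (FreeGroup.of (false, a))
    simp only [j, sw, FreeGroup.map.of, FreeGroup.lift_apply_of, cond_false, Bool.not_false,
      cond_true] at h1 h2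
    simp only [MonoidHom.comp_apply]
    rw [h1, h2]
  have hK : o0.comp K = o1.comp T := by
    ext a
    have h1 := hb0 (FreeGroup.of (true, a))
    have h2 := hb1 (FreeGroup.of (true, a))
    simp only [j, sw, FreeGroup.map.of, FreeGroup.lift_apply_of, cond_false, Bool.not_true,
      cond_true] at h1 h2
    simp only [MonoidHom.comp_apply]
    rw [h1, h2]
  let X : Fin 4 → FreeGroup Bool →* Γ := ![o0.comp T, o0.comp Q, o0.comp K, o1.comp Q]
  refine ⟨Γ, inferInstance, X, ?_, ?_⟩
  · have h1 : (FreeGroup.lift fun x : Bool × Bool => X (cond x.1 2 0) (FreeGroup.of x.2)) =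
        PushoutI.base ψ := by
      ext ⟨i, a⟩
      rw [← hb0]
      cases i <;> simp [X, j]
    rw [h1]
    exact PushoutI.base_injective hψ
  · have e01 : ∀ b g, o0 (T (FreeGroup.of b)) * o0 (Q g) * (o0 (T (FreeGroup.of b)))⁻¹ =
        o0 (Q (φ b g)) := by
      intro b g
      rw [← map_inv, ← map_mul, ← map_mul, hTQ]
    have e12 : ∀ b g, o0 (Q (FreeGroup.of b)) * o0 (K g) * (o0 (Q (FreeGroup.of b)))⁻¹ =
        o0 (K (φ b g)) := by
      intro b g
      rw [← map_inv, ← map_mul, ← map_mul, hQK]
    have e23 : ∀ b g, o0 (K (FreeGroup.of b)) * o1 (Q g) * (o0 (K (FreeGroup.of b)))⁻¹ =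
        o1 (Q (φ b g)) := by
      intro b g
      have h := DFunLike.congr_fun hK (FreeGroup.of b)
      simp only [MonoidHom.comp_apply] at h
      rw [h, ← map_inv, ← map_mul, ← map_mul, hTQ]
    have e30 : ∀ b g, o1 (Q (FreeGroup.of b)) * o0 (T g) * (o1 (Q (FreeGroup.of b)))⁻¹ =
        o0 (T (φ b g)) := by
      intro b g
      have h := DFunLike.congr_fun hT g
      have h' := DFunLike.congr_fun hT (φ b g)
      simp only [MonoidHom.comp_apply] at h h'
      rw [h, h', ← map_inv, ← map_mul, ← map_mul, hQK]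
    intro c b g
    fin_cases c
    · exact e01 b g
    · exact e12 b g
    · exact e23 b g
    · exact e30 b g

end Pool.Agent.Helper87.Ray
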