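import Pool.Agent.Helper87.Ray.FreeTree

/-!
# Axes of relators in the Cayley tree of a free group
-/

namespace Pool.Agent.Helper87.Ray

open FreeGroup

variable {α : Type*} [DecidableEq α]

/-- A symmetrized set of relators of length `N` with pieces of length at most `ξ`. -/
structure SC (R : Set (FreeGroup α)) (N ξ : ℕ) : Prop where
  norm_eq : ∀ r ∈ R, r.norm = N
  inv_mem : ∀ r ∈ R, r⁻¹ ∈ R
  rot : ∀ a b : FreeGroup α, a * b ∈ R → a.norm + b.norm = N → b * a ∈ R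
  piece : ∀ r ∈ R, ∀ r' ∈ R, ∀ u : FreeGroup α, u.norm = ξ + 1 →
    Btw dF 1 u r → Btw dF 1 u r' → r = r'
  hξ : 1 ≤ ξ
  hN : 31 * ξ ≤ N

/-- The axis of `ρ`. -/
def Ax (R : Set (FreeGroup α)) (ρ : FreeGroup α) : Set (FreeGroup α) := {x | x⁻¹ * ρ * x ∈ R}

variable {R : Set (FreeGroup α)} {N ξ : ℕ}

omit [DecidableEq α] in
theorem mem_ax {ρ x : FreeGroup α} : x ∈ Ax R ρ ↔ x⁻¹ * ρ * x ∈ R := Iff.rfl

omit [DecidableEq α] in
theorem ax_conj (g ρ x : FreeGroup α) : g * x ∈ Ax R (g * ρ * g⁻¹) ↔ x ∈ Ax R ρ := by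
  rw [mem_ax, mem_ax]
  have : (g * x)⁻¹ * (g * ρ * g⁻¹) * (g * x) = x⁻¹ * ρ * x := by group
  rw [this]

omit [DecidableEq α] in
theorem ax_zpow {ρ x : FreeGroup α} (n : ℤ) : ρ ^ n * x ∈ Ax R ρ ↔ x ∈ Ax R ρ := by
  rw [mem_ax, mem_ax]
  have : (ρ ^ n * x)⁻¹ * ρ * (ρ ^ n * x) = x⁻¹ * ρ * x := by group
  rw [this]

namespace SC

theorem ax_inv (h : SC R N ξ) (ρ : FreeGroup α) : Ax R ρ⁻¹ = Ax R ρ := by
  ext x
  rw [mem_ax, mem_ax]
  have e : x⁻¹ * ρ⁻¹ * x = (x⁻¹ * ρ * x)⁻¹ := by group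
  constructor
  · intro hx
    have := h.inv_mem _ hx
    rw [e, inv_inv] at this
    exact this
  · intro hx
    rw [e]; exact h.inv_mem _ hx

theorem ax_dist (h : SC R N ξ) {ρ x : FreeGroup α} (hx : x ∈ Ax R ρ) : dF x (ρ * x) = N := by
  unfold dF
  rw [← mul_assoc]
  exact h.norm_eq _ hx

theorem ax_seg (h : SC R N ξ) {ρ x z : FreeGroup α} (hx : x ∈ Ax R ρ)
    (hz : Btw dF x z (ρ * x)) : z ∈ Ax R ρ := by
  have h1 : (x⁻¹ * z) * (z⁻¹ * (ρ * x)) ∈ R := by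
    have : (x⁻¹ * z) * (z⁻¹ * (ρ * x)) = x⁻¹ * ρ * x := by group
    rw [this]; exact hx
  have h2 := h.rot _ _ h1 (by
    have h3 := h.ax_dist hx
    unfold Btw dF at hz
    unfold dF at h3
    omega)
  rw [mem_ax]
  have : (z⁻¹ * (ρ * x)) * (x⁻¹ * z) = z⁻¹ * ρ * z := by group
  rw [← this]; exact h2

theorem pos (h : SC R N ξ) : 30 ≤ N := by
  have := h.hξ
  have := h.hN
  omega

theorem ax_two (h : SC R N ξ) {ρ x : FreeGroup α} (hx : x ∈ Ax R ρ) :
    Btw dF x (ρ * x) (ρ * (ρ * x)) := by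
  have T := isTree_dF (α := α)
  have hN := h.pos
  have h0 := h.ax_dist hx
  obtain ⟨z, hz, hz1⟩ := T.geod x (ρ * x) 1 (by omega)
  have hzA := h.ax_seg hx hz
  have h1 := h.ax_dist hzA
  have h2 : dF z (ρ * x) = N - 1 := by
    unfold Btw at hz; omega
  have h3 : Btw dF z (ρ * x) (ρ * z) := by
    unfold Btw
    rw [h2, dF_mul, hz1, h1]; omega
  have h4 : z ≠ ρ * x := by
    intro e; rw [e, T.self] at h2; omega
  have h5 : Btw dF x (ρ * x) (ρ * z) := T.concat hz h3 h4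
  have h6 : Btw dF (ρ * x) (ρ * z) (ρ * (ρ * x)) := btw_mul.mpr hz
  have h7 : ρ * x ≠ ρ * z := by
    intro e
    have := mul_left_cancel e
    rw [← this, T.self] at hz1; omega
  exact T.trans_left (T.concat h5 h6 h7) h5

theorem ax_nat (h : SC R N ξ) {ρ x : FreeGroup α} (hx : x ∈ Ax R ρ) (n : ℕ) :
    Btw dF x (ρ ^ n * x) (ρ ^ (n + 1) * x) := by
  have T := isTree_dF (α := α)
  induction n with
  | zero => simp only [pow_zero, one_mul]; exact T.left _ _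
  | succ n ih =>
    have h1 : Btw dF (ρ ^ n * x) (ρ ^ (n + 1) * x) (ρ ^ (n + 2) * x) := by
      have := btw_mul (g := ρ ^ n) |>.mpr (h.ax_two hx)
      have e1 : ρ ^ n * (ρ * x) = ρ ^ (n + 1) * x := by rw [pow_succ]; group
      have e2 : ρ ^ n * (ρ * (ρ * x)) = ρ ^ (n + 2) * x := by
        rw [show n + 2 = n + 1 + 1 by ring, pow_succ, pow_succ]; group
      rw [e1, e2] at this
      exact this
    apply T.concat ih h1
    intro e
    have h2 := h.ax_dist hx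
    have e3 : ρ ^ (n + 1) * x = ρ ^ n * (ρ * x) := by rw [pow_succ]; group
    rw [e3] at e
    have := mul_left_cancel e
    rw [← this, T.self] at h2
    have := h.pos
    omega

theorem ax_dist_pow (h : SC R N ξ) {ρ x : FreeGroup α} (hx : x ∈ Ax R ρ) (n : ℕ) :
    dF x (ρ ^ n * x) = n * N := by
  have T := isTree_dF (α := α)
  induction n with
  | zero => simp [T.self]
  | succ n ih =>
    have h1 := h.ax_nat hx n
    unfold Btw at h1
    have e3 : ρ ^ (n + 1) * x = ρ ^ n * (ρ * x) := by rw [pow_succ]; group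
    have h2 : dF (ρ ^ n * x) (ρ ^ (n + 1) * x) = N := by
      rw [e3, dF_mul, h.ax_dist hx]
    rw [← h1, ih, h2]; ring

theorem ax_dist_zpow (h : SC R N ξ) {ρ x : FreeGroup α} (hx : x ∈ Ax R ρ) (n : ℤ) :
    dF x (ρ ^ n * x) = n.natAbs * N := by
  obtain ⟨m, rfl | rfl⟩ := Int.eq_nat_or_neg n
  · rw [zpow_natCast, h.ax_dist_pow hx, Int.natAbs_natCast]
  · rw [zpow_neg, zpow_natCast, ← inv_pow]
    have hx' : x ∈ Ax R ρ⁻¹ := by rw [h.ax_inv]; exact hx
    rw [h.ax_dist_pow hx', Int.natAbs_neg, Int.natAbs_natCast]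

/-- The line through `x`. -/
theorem line_unit (h : SC R N ξ) {ρ x z : FreeGroup α} (hx : x ∈ Ax R ρ) (m : ℤ) (j : ℕ)
    (hz : Btw dF (ρ ^ m * x) z (ρ ^ (m + j) * x)) :
    ∃ k : ℤ, Btw dF (ρ ^ k * x) z (ρ ^ (k + 1) * x) := by
  have T := isTree_dF (α := α)
  induction j with
  | zero =>
    simp only [Nat.cast_zero, add_zero] at hz
    have : z = ρ ^ m * x := by
      apply T.eq
      unfold Btw at hz
      rw [T.self] at hz
      have := T.comm z (ρ ^ m * x)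
      omega
    rw [this]
    exact ⟨m, T.left _ _⟩
  | succ j ih =>
    have h1 : Btw dF (ρ ^ m * x) (ρ ^ (m + j) * x) (ρ ^ (m + (j + 1 : ℕ)) * x) := by
      have := btw_mul (g := ρ ^ m) |>.mpr (h.ax_nat hx j)
      have e1 : ρ ^ m * (ρ ^ j * x) = ρ ^ (m + j) * x := by
        rw [zpow_add, zpow_natCast]; group
      have e2 : ρ ^ m * (ρ ^ (j + 1) * x) = ρ ^ (m + (j + 1 : ℕ)) * x := by
        rw [zpow_add, zpow_natCast]; group
      rw [e1, e2] at this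
      exact this
    rcases T.order hz h1 with ⟨h2, h3⟩ | ⟨h2, h3⟩
    · exact ih h2
    · refine ⟨m + j, ?_⟩
      have e : m + (j + 1 : ℕ) = m + j + 1 := by push_cast; ring
      rw [e] at h3
      exact h3

theorem line_unit' (h : SC R N ξ) {ρ x z : FreeGroup α} (hx : x ∈ Ax R ρ)
    (hz : z ∈ hull dF (Set.range fun n : ℤ => ρ ^ n * x)) :
    ∃ k : ℤ, Btw dF (ρ ^ k * x) z (ρ ^ (k + 1) * x) := by
  have T := isTree_dF (α := α)
  obtain ⟨_, ⟨m, rfl⟩, _, ⟨n, rfl⟩, hz⟩ := hz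
  rcases le_total m n with e | e
  · obtain ⟨j, hj⟩ := Int.le.dest e
    rw [← hj] at hz
    exact h.line_unit hx m j hz
  · obtain ⟨j, hj⟩ := Int.le.dest e
    rw [← hj] at hz
    exact h.line_unit hx n j (T.symm hz)

theorem ax_of_line (h : SC R N ξ) {ρ x z : FreeGroup α} (hx : x ∈ Ax R ρ)
    (hz : z ∈ hull dF (Set.range fun n : ℤ => ρ ^ n * x)) : z ∈ Ax R ρ := by
  obtain ⟨k, hk⟩ := h.line_unit' hx hz
  have e : ρ ^ (k + 1) * x = ρ * (ρ ^ k * x) := by rw [add_comm, zpow_add]; group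
  rw [e] at hk
  exact h.ax_seg ((ax_zpow k).mpr hx) hk

theorem line_of_ax (h : SC R N ξ) {ρ x y : FreeGroup α} (hx : x ∈ Ax R ρ) (hy : y ∈ Ax R ρ) :
    y ∈ hull dF (Set.range fun n : ℤ => ρ ^ n * x) := by
  have T := isTree_dF (α := α)
  set L := hull dF (Set.range fun n : ℤ => ρ ^ n * x) with hL
  have hLc : Conv dF L := hull_conv T _
  have hxL : x ∈ L := subset_hull T _ ⟨0, by simp⟩
  have hLinv : ∀ w ∈ L, ρ * w ∈ L := by
    rintro w ⟨_, ⟨m, rfl⟩, _, ⟨n, rfl⟩, hw⟩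
    refine ⟨_, ⟨1 + m, rfl⟩, _, ⟨1 + n, rfl⟩, ?_⟩
    have := btw_mul (g := ρ) |>.mpr hw
    simp only [zpow_add, zpow_one, mul_assoc] at *
    exact this
  have hLinv' : ∀ w ∈ L, ρ⁻¹ * w ∈ L := by
    rintro w ⟨_, ⟨m, rfl⟩, _, ⟨n, rfl⟩, hw⟩
    refine ⟨_, ⟨-1 + m, rfl⟩, _, ⟨-1 + n, rfl⟩, ?_⟩
    have := btw_mul (g := ρ⁻¹) |>.mpr hw
    simp only [zpow_add, zpow_neg, zpow_one, mul_assoc] at *
    exact this
  obtain ⟨p, hp, q, hq, hmin⟩ := exists_closest dF (A := L) (B := {y}) ⟨x, hxL⟩ ⟨y, rfl⟩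
  rw [Set.mem_singleton_iff] at hq
  subst hq
  have g1 : ∀ w ∈ L, Btw dF w p q := by
    intro w hw
    apply gate T hLc hp _ hw
    intro z hz hz2
    have h1 := hmin z hz q rfl
    unfold Btw at hz2
    apply T.eq
    have := T.comm z p
    omega
  have hpA := h.ax_of_line hx hp
  have h1 : Btw dF q p (ρ * p) := T.symm (g1 _ (hLinv p hp))
  have h2 : Btw dF p (ρ * p) (ρ * q) := by
    have := btw_mul (g := ρ) |>.mpr (g1 _ (hLinv' p hp))
    rw [mul_inv_cancel_left] at this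
    exact this
  have h3 := h.ax_dist hpA
  have h4 := h.ax_dist hy
  have h5 : p ≠ ρ * p := by
    intro e
    rw [← e, T.self] at h3
    have := h.pos
    omega
  have h6 := T.concat h1 h2 h5
  have h7 : dF q p = 0 := by
    unfold Btw at h1 h2 h6
    rw [dF_mul] at h2 h6
    have := T.comm q p
    omega
  have h8 := T.eq _ _ h7
  rw [h8]; exact hp

theorem ax_conv (h : SC R N ξ) (ρ : FreeGroup α) : Conv dF (Ax R ρ) := by
  have T := isTree_dF (α := α)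
  intro x hx y hy z hz
  apply h.ax_of_line hx
  apply hull_conv T _ x (h.line_of_ax hx hx) y (h.line_of_ax hx hy) z hz

theorem ax_near_aux (h : SC R N ξ) {ρ x y : FreeGroup α} (hx : x ∈ Ax R ρ)
    (hd : dF x y ≤ N) (k : ℕ) (hk : Btw dF (ρ ^ k * x) y (ρ ^ (k + 1) * x)) :
    Btw dF x y (ρ * x) := by
  have T := isTree_dF (α := α)
  have h1 : Btw dF x (ρ ^ k * x) y := T.trans_right' (h.ax_nat hx k) hk
  have h2 := h.ax_dist_pow hx k
  have hN := h.pos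
  rcases k with _ | k
  · simpa using hk
  · have h3 : dF (ρ ^ (k + 1) * x) y = 0 ∧ k = 0 := by
      unfold Btw at h1
      rw [h2] at h1
      have : (k + 1) * N = k * N + N := by ring
      constructor
      · nlinarith [Nat.zero_le (k * N)]
      · have : k * N = 0 := by
          have := Nat.zero_le (k * N)
          omega
        rcases Nat.mul_eq_zero.mp this with h4 | h4
        · exact h4
        · omega
    obtain ⟨h3, rfl⟩ := h3
    have := T.eq _ _ h3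
    rw [← this]
    simp only [zero_add, pow_one]
    exact T.right _ _

theorem ax_near (h : SC R N ξ) {ρ x y : FreeGroup α} (hx : x ∈ Ax R ρ) (hy : y ∈ Ax R ρ)
    (hd : dF x y ≤ N) : Btw dF x y (ρ * x) ∨ Btw dF x y (ρ⁻¹ * x) := by
  have T := isTree_dF (α := α)
  obtain ⟨k, hk⟩ := h.line_unit' hx (h.line_of_ax hx hy)
  rcases le_or_gt 0 k with e | e
  · left
    obtain ⟨j, rfl⟩ := Int.eq_ofNat_of_zero_le e
    apply h.ax_near_aux hx hd j
    have e2 : ρ ^ ((j : ℤ) + 1) = ρ ^ (j + 1) := by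
      rw [← zpow_natCast]; push_cast; rfl
    rw [zpow_natCast, e2] at hk
    exact hk
  · right
    have hx' : x ∈ Ax R ρ⁻¹ := by rw [h.ax_inv]; exact hx
    obtain ⟨j, hj⟩ : ∃ j : ℕ, k = -(j + 1 : ℤ) := ⟨(-k - 1).toNat, by omega⟩
    apply h.ax_near_aux hx' hd j
    have e1 : ρ ^ k = ρ⁻¹ ^ (j + 1) := by
      rw [hj, zpow_neg, inv_pow, ← zpow_natCast]; push_cast; rfl
    have e2 : ρ ^ (k + 1) = ρ⁻¹ ^ j := by
      rw [hj, show (-(j + 1 : ℤ) + 1) = -(j : ℤ) by ring, zpow_neg, inv_pow, ← zpow_natCast]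
    rw [e1, e2] at hk
    exact T.symm hk

theorem ax_piece (h : SC R N ξ) {ρ σ x y : FreeGroup α} (hx : x ∈ Ax R ρ) (hy : y ∈ Ax R ρ)
    (hx' : x ∈ Ax R σ) (hy' : y ∈ Ax R σ) (hd : ξ < dF x y) : σ = ρ ∨ σ = ρ⁻¹ := by
  have T := isTree_dF (α := α)
  obtain ⟨z, hz, hz1⟩ := T.geod x y (ξ + 1) (by omega)
  have hzA : z ∈ Ax R ρ := h.ax_conv ρ x hx y hy z hz
  have hzB : z ∈ Ax R σ := h.ax_conv σ x hx' y hy' z hz
  have hN := h.hN
  have hξ := h.hξ
  have key : ∀ ρ' σ' : FreeGroup α, x ∈ Ax R ρ' → x ∈ Ax R σ' → Btw dF x z (ρ' * x) →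
      Btw dF x z (σ' * x) → ρ' = σ' := by
    intro ρ' σ' h1 h2 h3 h4
    have h5 := btw_mul (g := x⁻¹) |>.mpr h3
    have h6 := btw_mul (g := x⁻¹) |>.mpr h4
    rw [inv_mul_cancel, ← mul_assoc] at h5 h6
    have h7 := h.piece _ h1 _ h2 (x⁻¹ * z) hz1 h5 h6
    have h8 := congrArg (fun g => x * g * x⁻¹) h7
    have e1 : x * (x⁻¹ * ρ' * x) * x⁻¹ = ρ' := by group
    have e2 : x * (x⁻¹ * σ' * x) * x⁻¹ = σ' := by group
    simp only [e1, e2] at h8
    exact h8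
  have hxi : x ∈ Ax R ρ⁻¹ := by rw [h.ax_inv]; exact hx
  have hxi' : x ∈ Ax R σ⁻¹ := by rw [h.ax_inv]; exact hx'
  rcases h.ax_near hx hzA (by omega) with h1 | h1 <;>
  rcases h.ax_near hx' hzB (by omega) with h2 | h2
  · left; exact (key _ _ hx hx' h1 h2).symm
  · right
    have := key _ _ hx hxi' h1 h2
    rw [this, inv_inv]
  · right; exact (key _ _ hxi hx' h1 h2).symm
  · left
    have := key _ _ hxi hxi' h1 h2
    exact (inv_injective this).symm

end SC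

end Pool.Agent.Helper87.Ray
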