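import Mathlib

/-!
# Word metrics, hyperbolicity, the Gromov boundary and accumulation sets
-/

namespace Pool.Agent.Helper87.Ray

variable {G : Type*} [Group G]

/-- Word length with respect to `S`: the least `n` such that `g` is a product of `n` elements
of `S ∪ S⁻¹`. -/
noncomputable def wordLength (S : Set G) (g : G) : ℕ :=
  sInf {n | ∃ l : List G, l.length = n ∧ (∀ x ∈ l, x ∈ S ∨ x⁻¹ ∈ S) ∧ l.prod = g}

/-- The word metric, that is the distance of `g` and `h` in the Cayley graph of `G` with respect
to `S`. -/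
noncomputable def wordDist (S : Set G) (g h : G) : ℕ := wordLength S (g⁻¹ * h)

/-- The Gromov product of `x` and `y` based at `w`. -/
noncomputable def gromovProd (S : Set G) (w x y : G) : ℝ :=
  ((wordDist S w x : ℝ) + wordDist S w y - wordDist S x y) / 2

/-- Gromov hyperbolicity of the Cayley graph of `G` with respect to `S`. -/
def IsHyperbolic (S : Set G) : Prop :=
  ∃ δ : ℝ, ∀ w x y z : G,
    min (gromovProd S w x y) (gromovProd S w y z) - δ ≤ gromovProd S w x z

/-- The Gromov products of `x i` and `y j` tend to infinity. -/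
def ProdTendsto (S : Set G) (x y : ℕ → G) : Prop :=
  ∀ C : ℝ, ∃ n, ∀ i ≥ n, ∀ j ≥ n, C ≤ gromovProd S 1 (x i) (y j)

/-- Sequences in `G` that converge at infinity. -/
def GromovSeq (S : Set G) : Type _ := {x : ℕ → G // ProdTendsto S x x}

theorem wordLength_nonneg_aux (S : Set G) (g : G) : wordLength S g⁻¹ = wordLength S g := by
  unfold wordLength
  congr 1
  ext n
  have key : ∀ g : G, (∃ l : List G, l.length = n ∧ (∀ x ∈ l, x ∈ S ∨ x⁻¹ ∈ S) ∧ l.prod = g) →
      ∃ l : List G, l.length = n ∧ (∀ x ∈ l, x ∈ S ∨ x⁻¹ ∈ S) ∧ l.prod = g⁻¹ := by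
    rintro g ⟨l, h1, h2, h3⟩
    refine ⟨(l.map (·⁻¹)).reverse, by simpa using h1, ?_, ?_⟩
    · intro x hx
      simp only [List.mem_reverse, List.mem_map] at hx
      obtain ⟨y, hy, rfl⟩ := hx
      rw [inv_inv]
      exact (h2 y hy).symm
    · rw [← h3, List.prod_inv_reverse]
  constructor
  · intro h
    have := key _ h
    rwa [inv_inv] at this
  · exact key g

theorem wordDist_comm (S : Set G) (g h : G) : wordDist S g h = wordDist S h g := by
  unfold wordDist
  rw [← wordLength_nonneg_aux]
  congr 1
  group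

theorem gromovProd_comm (S : Set G) (w x y : G) : gromovProd S w x y = gromovProd S w y x := by
  unfold gromovProd
  rw [wordDist_comm S x y]
  ring

/-- Equivalence of sequences converging at infinity. -/
def gromovSetoid (S : Set G) (hS : IsHyperbolic S) : Setoid (GromovSeq S) where
  r x y := ProdTendsto S x.1 y.1
  iseqv := by
    refine ⟨fun x => x.2, ?_, ?_⟩
    · intro x y h C
      obtain ⟨n, hn⟩ := h C
      refine ⟨n, fun i hi j hj => ?_⟩
      rw [gromovProd_comm]
      exact hn j hj i hi
    · intro x y z h1 h2 C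
      obtain ⟨δ, hδ⟩ := hS
      obtain ⟨n, hn⟩ := h1 (C + δ)
      obtain ⟨m, hm⟩ := h2 (C + δ)
      refine ⟨max n m, fun i hi j hj => ?_⟩
      have h3 := hn i (le_of_max_le_left hi) (max n m) (le_max_left _ _)
      have h4 := hm (max n m) (le_max_right _ _) j (le_of_max_le_right hj)
      have h5 := hδ 1 (x.1 i) (y.1 (max n m)) (z.1 j)
      have h6 := le_min h3 h4
      linarith

/-- The Gromov boundary of `G`, with respect to the generating set `S`. -/
def Boundary (S : Set G) (hS : IsHyperbolic S) : Type _ := Quotient (gromovSetoid S hS)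

/-- The sequence `x` of elements of `G` converges to the boundary point `ξ`. -/
def ConvergesTo (S : Set G) (hS : IsHyperbolic S) (x : ℕ → G) (ξ : Boundary S hS) : Prop :=
  ∃ h : ProdTendsto S x x, Quotient.mk (gromovSetoid S hS) ⟨x, h⟩ = ξ

/-- The set of boundary points at which the sequence `x` accumulates. -/
def accumulationSet (S : Set G) (hS : IsHyperbolic S) (x : ℕ → G) : Set (Boundary S hS) :=
  {ξ | ∃ φ : ℕ → ℕ, StrictMono φ ∧ ConvergesTo S hS (x ∘ φ) ξ}

/-- `γ` is (the sequence of vertices of) a geodesic ray in the Cayley graph. -/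
def IsGeodesicRay (S : Set G) (γ : ℕ → G) : Prop :=
  ∀ i j : ℕ, i ≤ j → wordDist S (γ i) (γ j) = j - i

end Pool.Agent.Helper87.Ray
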