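import Pool.Agent.Helper87.Ray.Rec

/-!
# A geodesic ray that does not land
-/

namespace Pool.Agent.Helper87.Ray

open FreeGroup hiding map_mul map_inv map_one

/-- Positive elements. -/
def Ps (u : List Bool) : FreeGroup Bool := mk (u.map fun b => (b, true))

theorem Ps_append (u v : List Bool) : Ps (u ++ v) = Ps u * Ps v := by
  unfold Ps; rw [List.map_append, mul_mk]

theorem Ps_cons (b : Bool) (v : List Bool) : Ps (b :: v) = of b * Ps v := by
  have : Ps (b :: v) = Ps [b] * Ps v := Ps_append [b] v
  rw [this]; rfl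

theorem Ps_nil : Ps [] = 1 := rfl

/-- Substitution. -/
def sub (b : Bool) (v : List Bool) : List Bool := v.flatMap (wrd b)

theorem phi_Ps (b : Bool) (v : List Bool) : phi b (Ps v) = Ps (sub b v) := by
  induction v with
  | nil => rw [Ps_nil, map_one]; rfl
  | cons x v ih =>
    have h : sub b (x :: v) = wrd b x ++ sub b v := by
      unfold sub; rw [List.flatMap_cons]
    rw [Ps_cons, map_mul, ih, h, Ps_append]
    have h2 : phi b (of x) = Ps (wrd b x) := by
      unfold phi Ps
      rw [FreeGroup.lift_apply_of]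
      unfold wd
      exact Eq.refl _
    rw [h2]

/-- The action of positive words on positive words. -/
def act : List Bool → List Bool → List Bool
  | [], v => v
  | b :: u, v => sub b (act u v)

theorem XX_act_Ps (c : Fin 4) (u v : List Bool) :
    XX c (Ps u) * XX (c + 1) (Ps v) * (XX c (Ps u))⁻¹ = XX (c + 1) (Ps (act u v)) := by
  induction u with
  | nil => simp [Ps_nil, act]
  | cons b u ih =>
    rw [Ps_cons, map_mul]
    have h : XX c (of b) * XX c (Ps u) * XX (c + 1) (Ps v) * (XX c (of b) * XX c (Ps u))⁻¹ =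
        XX c (of b) * (XX c (Ps u) * XX (c + 1) (Ps v) * (XX c (Ps u))⁻¹) * (XX c (of b))⁻¹ := by
      group
    rw [h, ih, XX_act, phi_Ps]
    rfl

theorem sub_ne_nil {b : Bool} {v : List Bool} (hv : v ≠ []) : sub b v ≠ [] := by
  cases v with
  | nil => exact absurd rfl hv
  | cons x v =>
    unfold sub
    rw [List.flatMap_cons]
    intro h
    have h1 := wrd_head b x
    rw [(List.append_eq_nil_iff.mp h).1] at h1
    simp at h1

theorem act_ne_nil {u v : List Bool} (hv : v ≠ []) : act u v ≠ [] := by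
  induction u with
  | nil => exact hv
  | cons b u ih => exact sub_ne_nil ih

/-- The positive words `E`. -/
def EE : ℕ → List Bool
  | 0 => []
  | 1 => [false]
  | n + 2 => act (act (EE (n + 1)) [false]) [false] ++ EE n

/-- The positive words `e`. -/
def ee : ℕ → List Bool
  | 0 => []
  | 1 => [false]
  | n + 2 => act (act (EE (n + 1)) [false]) [false]

theorem ee_ne_nil (n : ℕ) : ee (n + 1) ≠ [] := by
  cases n with
  | zero => simp [ee]
  | succ n => exact act_ne_nil (by simp)

/-- The map from the free group of rank four. -/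
def pe4 : FreeGroup (Fin 4) →* GG := pr.comp emb

theorem pe4_of (c : Fin 4) : pe4 (of c) = XX c (Ps [false]) := by
  simp only [pe4, XX, MonoidHom.comp_apply, emb, inc, FreeGroup.map.of, Ps]
  rfl

theorem cl_two (n : ℕ) : cl (n + 2) = cl n := by
  have h : cl (n + 2) = cl n + 2 + 2 := rfl
  rw [h, add_assoc]
  have : (2 + 2 : Fin 4) = 0 := rfl
  rw [this, add_zero]

theorem fac_succ (n : ℕ) (h : pe4 (sg (n + 1)) = (XX (cl (n + 1)) (Ps (EE (n + 1))))⁻¹) :
    pe4 (fac (n + 2)) = (XX (cl (n + 2)) (Ps (ee (n + 2))))⁻¹ := by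
  have e : fac (n + 2) = ((sg (n + 1))⁻¹ * of (cl (n + 1) + 1) * sg (n + 1)) *
      (of (cl (n + 2)))⁻¹ * ((sg (n + 1))⁻¹ * of (cl (n + 1) + 1) * sg (n + 1))⁻¹ := rfl
  have h1 : pe4 ((sg (n + 1))⁻¹ * of (cl (n + 1) + 1) * sg (n + 1)) =
      XX (cl (n + 1) + 1) (Ps (act (EE (n + 1)) [false])) := by
    rw [map_mul, map_mul, map_inv, h, inv_inv, pe4_of, XX_act_Ps]
  have h2 : cl (n + 2) = cl (n + 1) + 1 + 1 := by
    have : cl (n + 2) = cl (n + 1) + 2 := rfl
    rw [this, add_assoc]; rfl
  rw [e, map_mul, map_mul, map_inv, map_inv, h1, pe4_of, h2]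
  have h3 := XX_act_Ps (cl (n + 1) + 1) (act (EE (n + 1)) [false]) [false]
  have h4 : ee (n + 2) = act (act (EE (n + 1)) [false]) [false] := rfl
  rw [h4, ← h3]
  group

theorem sg_eq (n : ℕ) : pe4 (sg n) = (XX (cl n) (Ps (EE n)))⁻¹ ∧
    pe4 (sg (n + 1)) = (XX (cl (n + 1)) (Ps (EE (n + 1))))⁻¹ := by
  induction n with
  | zero =>
    constructor
    · simp [sg, EE, Ps_nil]
    · have : sg (0 + 1) = (of 0)⁻¹ := rfl
      rw [this, map_inv, pe4_of]
      rfl
  | succ n ih =>
    refine ⟨ih.2, ?_⟩
    have h1 : sg (n + 2) = sg n * fac (n + 2) := rfl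
    have h2 : EE (n + 2) = ee (n + 2) ++ EE n := rfl
    rw [h1, map_mul, ih.1, fac_succ n ih.2, h2, Ps_append, map_mul, cl_two, mul_inv_rev]

theorem fac_eq (n : ℕ) : pe4 (fac (n + 1)) = (XX (cl (n + 1)) (Ps (ee (n + 1))))⁻¹ := by
  cases n with
  | zero =>
    have : fac (0 + 1) = (of 0)⁻¹ := rfl
    rw [this, map_inv, pe4_of]
    rfl
  | succ n => exact fac_succ n (sg_eq n).2

/-! ### The free subgroup and the ray -/

/-- The homomorphism whose image is the subgroup. -/
def jj : FreeGroup (Bool × Bool) →* GG := FreeGroup.lift fun x : Bool × Bool =>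
    pr (of ((cond x.1 2 0 : Fin 4), x.2))

/-- The class of index `n`, as a Boolean. -/
def bI : ℕ → Bool
  | 0 => true
  | n + 1 => !bI n

theorem cl_eq (n : ℕ) : cl n = cond (bI n) 2 0 := by
  induction n with
  | zero => rfl
  | succ n ih =>
    have h : cl (n + 1) = cl n + 2 := rfl
    rw [h, ih]
    simp only [bI]
    cases bI n <;> rfl

/-- The `n`-th block of the ray. -/
def blc (n : ℕ) : List ((Bool × Bool) × Bool) :=
  (ee n).reverse.map fun x => ((bI n, x), false)

theorem jj_blc (n : ℕ) : jj (mk (blc n)) = (XX (cl n) (Ps (ee n)))⁻¹ := by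
  have h1 : mk (blc n) = (FreeGroup.map (fun x => (bI n, x)) (Ps (ee n)))⁻¹ := by
    unfold Ps blc
    rw [FreeGroup.map.mk, inv_mk]
    congr 1
    unfold invRev
    rw [List.map_map, List.map_map, List.map_reverse]
    rfl
  have h2 : jj.comp (FreeGroup.map fun x => (bI n, x)) = XX (cl n) := by
    ext x
    rw [cl_eq]
    simp [jj, XX, inc]
  rw [h1, map_inv, ← h2]
  rfl

/-- The first `n` blocks. -/
def WW : ℕ → List ((Bool × Bool) × Bool)
  | 0 => []
  | n + 1 => WW n ++ blc (n + 1)

theorem jj_WW (n : ℕ) : jj (mk (WW n)) = pe4 (pt n) := by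
  induction n with
  | zero => rw [show WW 0 = [] from rfl, ← one_eq_mk, map_one, show pt 0 = 1 from rfl, map_one]
  | succ n ih =>
    have h1 : WW (n + 1) = WW n ++ blc (n + 1) := rfl
    have h2 : pt (n + 1) = pt n * fac (n + 1) := rfl
    rw [h1, h2, ← mul_mk, map_mul, map_mul, ih, jj_blc, fac_eq]

theorem WW_prefix {m n : ℕ} (h : m ≤ n) : WW m <+: WW n := by
  induction n, h using Nat.le_induction with
  | base => exact List.prefix_rfl
  | succ n _ ih => exact ih.trans (List.prefix_append _ _)

theorem WW_length_lt (n : ℕ) : (WW n).length < (WW (n + 1)).length := by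
  have h1 : WW (n + 1) = WW n ++ blc (n + 1) := rfl
  have h2 := ee_ne_nil n
  have h3 : 0 < (ee (n + 1)).length := List.length_pos_iff.mpr h2
  rw [h1, List.length_append]
  unfold blc
  rw [List.length_map, List.length_reverse]
  omega

theorem WW_length (n : ℕ) : n ≤ (WW n).length := by
  induction n with
  | zero => exact Nat.zero_le _
  | succ n ih =>
    have := WW_length_lt n
    omega

theorem WW_strict : StrictMono fun n => (WW n).length := strictMono_nat_of_lt_succ WW_length_lt

theorem WW_neg (n : ℕ) : ∀ x ∈ WW n, x.2 = false := by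
  induction n with
  | zero => intro x hx; cases hx
  | succ n ih =>
    intro x hx
    have h1 : WW (n + 1) = WW n ++ blc (n + 1) := rfl
    rw [h1, List.mem_append] at hx
    rcases hx with hx | hx
    · exact ih x hx
    · unfold blc at hx
      rw [List.mem_map] at hx
      obtain ⟨y, _, rfl⟩ := hx
      rfl

theorem take_eq {i j : ℕ} (h : i ≤ j) : (WW i).take i = (WW j).take i := by
  obtain ⟨L, hL⟩ := WW_prefix h
  rw [← hL, List.take_append_of_le_length (WW_length i)]

theorem norm_neg {α : Type*} [DecidableEq α] (L : List (α × Bool)) (h : ∀ x ∈ L, x.2 = false) :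
    (mk L).norm = L.length := by
  unfold FreeGroup.norm
  rw [toWord_mk_of_reduced]
  unfold FreeGroup.IsReduced
  apply List.Pairwise.isChain
  rw [List.pairwise_iff_forall_sublist]
  intro a b hab _
  rw [h a (hab.subset (by simp)), h b (hab.subset (by simp))]

/-- The subgroup. -/
def HH : Subgroup GG := jj.range

/-- The parametrisation of the subgroup. -/
def jH : FreeGroup (Bool × Bool) →* HH := jj.rangeRestrict

theorem jH_surjective : Function.Surjective jH := jj.rangeRestrict_surjective

theorem jj_injective : Function.Injective jj := free_TK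

theorem jH_injective : Function.Injective jH := by
  intro x y h
  exact jj_injective (congrArg Subtype.val h)

theorem jH_coe (u : FreeGroup (Bool × Bool)) : (jH u : GG) = jj u := rfl

/-- The ray. -/
def ray (i : ℕ) : HH := jH (mk ((WW i).take i))

theorem ray_zero : ray 0 = 1 := by
  unfold ray
  rw [List.take_zero, ← one_eq_mk, map_one]

theorem wordLength_jH (u : FreeGroup (Bool × Bool)) : wordLength (gens jH) (jH u) = u.norm := by
  apply le_antisymm (wordLength_le _ _)
  obtain ⟨v, hv, hn⟩ := exists_norm_eq jH_surjective (jH u)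
  rw [jH_injective hv] at hn
  exact hn

theorem ray_geodesic : IsGeodesicRay (gens jH) ray := by
  intro i j hij
  unfold wordDist ray
  rw [take_eq hij, ← map_inv, ← map_mul, wordLength_jH]
  have h1 : mk ((WW j).take j) = mk ((WW j).take i) * mk (((WW j).take j).drop i) := by
    rw [mul_mk]
    congr 1
    have := List.take_append_drop i ((WW j).take j)
    rw [List.take_take, min_eq_left hij] at this
    exact this.symm
  rw [h1, inv_mul_cancel_left, norm_neg, List.length_drop, List.length_take,
    min_eq_left (WW_length j)]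
  intro x hx
  exact WW_neg j x (List.mem_of_mem_take (List.mem_of_mem_drop hx))

theorem ray_block (n : ℕ) : (ray (WW n).length : GG) = pe4 (pt n) := by
  unfold ray
  rw [jH_coe, ← jj_WW]
  congr 2
  obtain ⟨L, hL⟩ := WW_prefix (WW_length n)
  rw [← hL, List.take_append_of_le_length le_rfl, List.take_length]

theorem sc_empty {α : Type*} [DecidableEq α] : SC (∅ : Set (FreeGroup α)) 31 1 where
  norm_eq := by intro r hr; exact absurd hr (Set.notMem_empty _)
  inv_mem := by intro r hr; exact absurd hr (Set.notMem_empty _)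
  rot := by intro a b hr; exact absurd hr (Set.notMem_empty _)
  piece := by intro r hr; exact absurd hr (Set.notMem_empty _)
  hξ := le_rfl
  hN := le_rfl

theorem hyp_H : IsHyperbolic (gens jH) := by
  apply isHyperbolic_quotient sc_empty _ jH_surjective
  have h1 : jH.ker = ⊥ := (MonoidHom.ker_eq_bot_iff jH).mpr jH_injective
  rw [h1]
  symm
  rw [eq_bot_iff]
  exact Subgroup.normalClosure_le_normal (Set.empty_subset _)

theorem hyp_G : IsHyperbolic (gens pr) := isHyperbolic_quotient scRR pr_ker pr_surjective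

theorem dist_pe4 (u v : FreeGroup (Fin 4)) : wordDist (gens pr) (pe4 u) (pe4 v) = dF u v := by
  have h := dQ_of_geo pr_ker pr_surjective (geo_emb u v)
  rw [dF_emb] at h
  exact h.symm

theorem gromov_pe4 (u v : FreeGroup (Fin 4)) :
    gromovProd (gens pr) 1 (pe4 u) (pe4 v) = ((u.norm : ℝ) + v.norm - dF u v) / 2 := by
  unfold gromovProd
  rw [← map_one pe4, dist_pe4, dist_pe4, dist_pe4, dF_one, dF_one]

theorem gromov_ge {L A B : List (Fin 4 × Bool)} (hA : FreeGroup.IsReduced A)
    (hB : FreeGroup.IsReduced B) (h1 : L <+: A) (h2 : L <+: B) :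
    (L.length : ℝ) ≤ gromovProd (gens pr) 1 (pe4 (mk A)) (pe4 (mk B)) := by
  have hL : FreeGroup.IsReduced L := by
    obtain ⟨M, hM⟩ := h1
    rw [← hM, reduced_append] at hA
    exact hA.1
  have e1 : Btw dF 1 (mk L) (mk A) := by
    rw [btw_one_iff, toWord_mk_of_reduced hL, toWord_mk_of_reduced hA]; exact h1
  have e2 : Btw dF 1 (mk L) (mk B) := by
    rw [btw_one_iff, toWord_mk_of_reduced hL, toWord_mk_of_reduced hB]; exact h2
  have e3 : (mk L).norm = L.length := by
    unfold FreeGroup.norm; rw [toWord_mk_of_reduced hL]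
  have T := isTree_dF (α := Fin 4)
  have e4 := T.tri (mk A) (mk L) (mk B)
  have e5 := T.comm (mk A) (mk L)
  have e6 := dF_one (mk A)
  have e7 := dF_one (mk B)
  have e8 := dF_one (mk L)
  unfold Btw at e1 e2
  have key : 2 * L.length + dF (mk A) (mk B) ≤ (mk A).norm + (mk B).norm := by omega
  have key' : (2 * L.length + dF (mk A) (mk B) : ℝ) ≤ (mk A).norm + (mk B).norm := by
    exact_mod_cast key
  rw [gromov_pe4]
  linarith

theorem gromov_zero {A B : List (Fin 4 × Bool)} {x y z w : Fin 4 × Bool} (hA : SE A x y)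
    (hB : SE B z w) (hne : x ≠ z) :
    gromovProd (gens pr) 1 (pe4 (mk A)) (pe4 (mk B)) = 0 := by
  rw [gromov_pe4]
  have h : dF (mk A) (mk B) = (mk A).norm + (mk B).norm := by
    unfold dF
    apply norm_inv_mul_of_head_ne
    rw [toWord_mk_of_reduced hA.1, toWord_mk_of_reduced hB.1, hA.2.1, hB.2.1]
    intro u hu v hv
    simp only [Option.mem_def, Option.some.injEq] at hu hv
    rw [← hu, ← hv]
    exact hne
  rw [h]
  push_cast
  ring

/-- The vertices of the ray in the big group. -/
def rayG (n : ℕ) : GG := (ray n : GG)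

theorem even_pt (m : ℕ) : rayG (WW (2 * m + 2)).length = pe4 (mk (pe m)) := by
  unfold rayG
  rw [ray_block, pt_even]

theorem odd_pt (m : ℕ) : rayG (WW (2 * m + 3)).length = pe4 (mk (po m)) := by
  unfold rayG
  rw [ray_block, pt_odd]

/-- The indices of the even points. -/
def ie (m : ℕ) : ℕ := (WW (2 * m + 2)).length

/-- The indices of the odd points. -/
def io (m : ℕ) : ℕ := (WW (2 * m + 3)).length

theorem ie_strict : StrictMono ie := fun a b h => WW_strict (by omega)

theorem io_strict : StrictMono io := fun a b h => WW_strict (by omega)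

theorem even_conv : ProdTendsto (gens pr) (rayG ∘ ie) (rayG ∘ ie) := by
  intro C
  obtain ⟨n, hn⟩ := exists_nat_ge C
  refine ⟨n, fun i hi j hj => ?_⟩
  have h1 : (rayG ∘ ie) i = pe4 (mk (pe i)) := even_pt i
  have h2 : (rayG ∘ ie) j = pe4 (mk (pe j)) := even_pt j
  rw [h1, h2]
  have h3 : (st n).u <+: pe i := (u_prefix (by omega : n ≤ i + 1)).trans (List.prefix_append _ _)
  have h4 : (st n).u <+: pe j := (u_prefix (by omega : n ≤ j + 1)).trans (List.prefix_append _ _)
  have h5 := gromov_ge (pe_se i).1 (pe_se j).1 h3 h4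
  have h6 : (n : ℝ) ≤ ((st n).u.length : ℝ) := by exact_mod_cast u_length n
  linarith

theorem odd_conv : ProdTendsto (gens pr) (rayG ∘ io) (rayG ∘ io) := by
  intro C
  obtain ⟨n, hn⟩ := exists_nat_ge C
  refine ⟨n, fun i hi j hj => ?_⟩
  have h1 : (rayG ∘ io) i = pe4 (mk (po i)) := odd_pt i
  have h2 : (rayG ∘ io) j = pe4 (mk (po j)) := odd_pt j
  rw [h1, h2]
  have key : ∀ i, n ≤ i → [((0 : Fin 4), false)] ++ (st n).v <+: po i := by
    intro i hi
    unfold po
    rw [List.prefix_append_right_inj]
    exact (v_prefix (by omega : n ≤ i + 1)).trans (List.prefix_append _ _)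
  have h5 := gromov_ge (po_se i).1 (po_se j).1 (key i hi) (key j hj)
  rw [List.length_append] at h5
  have h6 : (n : ℝ) ≤ ((st n).v.length : ℝ) := by exact_mod_cast v_length n
  push_cast at h5
  simp only [List.length_cons, List.length_nil] at h5
  push_cast at h5
  linarith

theorem acc_nontrivial (hS : IsHyperbolic (gens pr)) :
    (accumulationSet (gens pr) hS rayG).Nontrivial := by
  refine ⟨_, ⟨ie, ie_strict, even_conv, rfl⟩, _, ⟨io, io_strict, odd_conv, rfl⟩, ?_⟩
  intro h
  have h1 : ProdTendsto (gens pr) (rayG ∘ ie) (rayG ∘ io) := Quotient.exact h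
  obtain ⟨n, hn⟩ := h1 1
  have h2 := hn n le_rfl n le_rfl
  have e1 : (rayG ∘ ie) n = pe4 (mk (pe n)) := even_pt n
  have e2 : (rayG ∘ io) n = pe4 (mk (po n)) := odd_pt n
  rw [e1, e2, gromov_zero (pe_se n) (po_se n) (by decide)] at h2
  norm_num at h2

end Pool.Agent.Helper87.Ray
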