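import Pool.Agent.Helper87.Ray.Green

/-!
# Thin polygons
-/

namespace Pool.Agent.Helper87.Ray

open FreeGroup

variable {α : Type*} [DecidableEq α]

/-- The normal closure of the relators. -/
abbrev NC (R : Set (FreeGroup α)) : Subgroup (FreeGroup α) := Subgroup.normalClosure R

/-- The segment from `x` to `y` is geodesic modulo the relators. -/
def Geo (R : Set (FreeGroup α)) (x y : FreeGroup α) : Prop := ∀ n ∈ NC R, dF x y ≤ dF x (n * y)

/-- `x` and `y` are within distance `δ` modulo the relators. -/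
def Cl (R : Set (FreeGroup α)) (δ : ℕ) (x y : FreeGroup α) : Prop := ∃ n ∈ NC R, dF x (n * y) ≤ δ

/-- `v` is within distance `δ` of the segment from `a` to `b`. -/
def Nr (R : Set (FreeGroup α)) (δ : ℕ) (v a b : FreeGroup α) : Prop :=
  ∃ s, Btw dF a s b ∧ Cl R δ v s

/-- Overlap bound. -/
def Ov (A : Set (FreeGroup α)) (c : ℕ) (x y : FreeGroup α) : Prop :=
  ∀ a ∈ A, ∀ b ∈ A, Btw dF x a y → Btw dF x b y → dF a b ≤ c

variable {R : Set (FreeGroup α)} {N ξ : ℕ} {A : Set (FreeGroup α)}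

theorem Ov.symm {c : ℕ} {x y : FreeGroup α} (h : Ov A c x y) : Ov A c y x := by
  intro a ha b hb h1 h2
  exact h a ha b hb (isTree_dF.symm h1) (isTree_dF.symm h2)

theorem Ov.add (hA : Conv dF A) {c c' : ℕ} {x y z : FreeGroup α} (h1 : Ov A c x y)
    (h2 : Ov A c' y z) : Ov A (c + c') x z := by
  have T := isTree_dF (α := α)
  have key : ∀ a ∈ A, ∀ b ∈ A, Btw dF x a y → Btw dF y b z → dF a b ≤ c + c' := by
    intro a ha b hb h3 h4
    obtain ⟨m, hm1, hm2, hm3⟩ := T.med a y b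
    -- a m y, y m b, a m b
    have hm : m ∈ A := hA a ha b hb m hm3
    have h5 := h1 a ha m hm h3 (T.trans_right h3 hm1)
    have h6 := h2 m hm b hb (T.trans_left h4 hm2) h4
    unfold Btw at hm3
    omega
  intro a ha b hb h3 h4
  rcases T.cover h3 y with h5 | h5 <;> rcases T.cover h4 y with h6 | h6
  · have := h1 a ha b hb h5 h6; omega
  · exact key a ha b hb h5 h6
  · rw [T.comm]; exact key b hb a ha h6 h5
  · have := h2 a ha b hb h5 h6; omega

theorem Ov.dist (x y : FreeGroup α) : Ov A (dF x y) x y := by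
  have T := isTree_dF (α := α)
  intro a _ b _ h1 h2
  rcases T.order h1 h2 with ⟨h3, h4⟩ | ⟨h3, h4⟩ <;> unfold Btw at * <;>
    have := T.comm a b <;> omega

theorem Ov.mono {c c' : ℕ} {x y : FreeGroup α} (h : Ov A c x y) (hc : c ≤ c') : Ov A c' x y :=
  fun a ha b hb h1 h2 => (h a ha b hb h1 h2).trans hc

theorem Ov.left {c : ℕ} {x a y : FreeGroup α} (h : Ov A c x y) (hb : Btw dF x a y) :
    Ov A c x a := fun u hu v hv h1 h2 => h u hu v hv (isTree_dF.trans_left hb h1)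
      (isTree_dF.trans_left hb h2)

theorem Ov.right {c : ℕ} {x a y : FreeGroup α} (h : Ov A c x y) (hb : Btw dF x a y) :
    Ov A c a y := fun u hu v hv h1 h2 => h u hu v hv (isTree_dF.trans_right hb h1)
      (isTree_dF.trans_right hb h2)

theorem Ov.self {c : ℕ} {p q : FreeGroup α} (h : Ov A c p q) (hp : p ∈ A) (hq : q ∈ A) :
    dF p q ≤ c := h p hp q hq (isTree_dF.left p q) (isTree_dF.right p q)

namespace Geo

theorem left {x a y : FreeGroup α} (h : Geo R x y) (hb : Btw dF x a y) : Geo R x a := by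
  have T := isTree_dF (α := α)
  intro n hn
  have h1 := h n hn
  have h2 := T.tri x (n * a) (n * y)
  rw [dF_mul] at h2
  unfold Btw at hb
  omega

theorem symm {x y : FreeGroup α} (h : Geo R x y) : Geo R y x := by
  have T := isTree_dF (α := α)
  intro n hn
  have h1 := h n⁻¹ ((NC R).inv_mem hn)
  have h2 := dF_mul n x (n⁻¹ * y)
  rw [mul_inv_cancel_left] at h2
  rw [T.comm y x, T.comm y (n * x)]
  omega

theorem right {x a y : FreeGroup α} (h : Geo R x y) (hb : Btw dF x a y) : Geo R a y :=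
  (h.symm.left (isTree_dF.symm hb)).symm

theorem mul {x y : FreeGroup α} (h : Geo R x y) (g : FreeGroup α) : Geo R (g * x) (g * y) := by
  intro n hn
  have h1 := h (g⁻¹ * n * g) (by
    have := (Subgroup.normalClosure_normal (s := R)).conj_mem n hn g⁻¹
    simpa using this)
  have h2 := dF_mul g x (g⁻¹ * n * g * y)
  have e : g * (g⁻¹ * n * g * y) = n * (g * y) := by group
  rw [e] at h2
  rw [dF_mul]
  omega

end Geo

theorem mem_NC_of_ax {ρ x : FreeGroup α} (hx : x ∈ Ax R ρ) : ρ ∈ NC R := by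
  have h1 : x⁻¹ * ρ * x ∈ NC R := Subgroup.subset_normalClosure hx
  have h2 := (Subgroup.normalClosure_normal (s := R)).conj_mem _ h1 x
  have e : x * (x⁻¹ * ρ * x) * x⁻¹ = ρ := by group
  rwa [e] at h2

theorem ov_geo (S : SC R N ξ) {x y ρ : FreeGroup α} (h : Geo R x y) :
    Ov (Ax R ρ) (N / 2) x y := by
  have T := isTree_dF (α := α)
  have hN := S.pos
  have key : ∀ p ∈ Ax R ρ, ∀ q ∈ Ax R ρ, Geo R p q → dF p q ≤ N / 2 := by
    intro p hp q hq hg
    by_contra hlt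
    push Not at hlt
    obtain ⟨q', hq'1, hq'2⟩ := T.geod p q (N / 2 + 1) (by omega)
    have hq' : q' ∈ Ax R ρ := S.ax_conv ρ p hp q hq q' hq'1
    have hg' := hg.left hq'1
    have fin : ∀ σ, σ ∈ NC R → p ∈ Ax R σ → Btw dF p q' (σ * p) → False := by
      intro σ hσ hpσ hb
      have h1 := hg' σ⁻¹ ((NC R).inv_mem hσ)
      have h2 := dF_mul σ p (σ⁻¹ * q')
      rw [mul_inv_cancel_left] at h2
      have h3 := S.ax_dist hpσ
      unfold Btw at hb
      have := T.comm q' (σ * p)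
      omega
    have hρ := mem_NC_of_ax hp
    rcases S.ax_near hp hq' (by omega) with h1 | h1
    · exact fin ρ hρ hp h1
    · exact fin ρ⁻¹ ((NC R).inv_mem hρ) (by rw [S.ax_inv]; exact hp) h1
  intro a ha b hb h1 h2
  rcases T.order h1 h2 with ⟨h3, h4⟩ | ⟨h3, h4⟩
  · exact key a ha b hb ((h.right h1).left h4)
  · rw [T.comm]
    exact key b hb a ha ((h.right h2).left h4)

theorem Cl.mono {δ ε : ℕ} {x y : FreeGroup α} (h : Cl R δ x y) (hε : δ ≤ ε) : Cl R ε x y := by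
  obtain ⟨n, hn, h⟩ := h
  exact ⟨n, hn, h.trans hε⟩

theorem Cl.of_dist {x y : FreeGroup α} : Cl R (dF x y) x y :=
  ⟨1, (NC R).one_mem, by rw [one_mul]⟩

theorem Cl.of_mem {n x y : FreeGroup α} (hn : n ∈ NC R) : Cl R (dF x (n * y)) x y :=
  ⟨n, hn, le_rfl⟩

theorem Cl.symm {δ : ℕ} {x y : FreeGroup α} (h : Cl R δ x y) : Cl R δ y x := by
  obtain ⟨n, hn, h⟩ := h
  refine ⟨n⁻¹, (NC R).inv_mem hn, ?_⟩
  have := dF_mul n⁻¹ x (n * y)
  rw [inv_mul_cancel_left] at this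
  rw [isTree_dF.comm, this]; exact h

theorem Cl.trans {δ ε : ℕ} {x y z : FreeGroup α} (h : Cl R δ x y) (h' : Cl R ε y z) :
    Cl R (δ + ε) x z := by
  obtain ⟨n, hn, h⟩ := h
  obtain ⟨m, hm, h'⟩ := h'
  refine ⟨n * m, (NC R).mul_mem hn hm, ?_⟩
  have h1 := isTree_dF.tri x (n * y) (n * (m * z))
  rw [dF_mul] at h1
  rw [mul_assoc]
  omega

theorem Nr.mono {δ ε : ℕ} {v a b : FreeGroup α} (h : Nr R δ v a b) (hε : δ ≤ ε) :
    Nr R ε v a b := by
  obtain ⟨s, hs, h⟩ := h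
  exact ⟨s, hs, h.mono hε⟩

theorem Nr.cl {δ ε : ℕ} {v w a b : FreeGroup α} (h : Cl R δ v w) (h' : Nr R ε w a b) :
    Nr R (δ + ε) v a b := by
  obtain ⟨s, hs, h'⟩ := h'
  exact ⟨s, hs, h.trans h'⟩

theorem Nr.left {δ : ℕ} {v a c b : FreeGroup α} (h : Nr R δ v a c) (hb : Btw dF a c b) :
    Nr R δ v a b := by
  obtain ⟨s, hs, h⟩ := h
  exact ⟨s, isTree_dF.trans_left hb hs, h⟩

theorem Nr.right {δ : ℕ} {v a c b : FreeGroup α} (h : Nr R δ v c b) (hb : Btw dF a c b) :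
    Nr R δ v a b := by
  obtain ⟨s, hs, h⟩ := h
  exact ⟨s, isTree_dF.trans_right hb hs, h⟩

theorem Nr.of_mul {δ : ℕ} {n v a b : FreeGroup α} (hn : n ∈ NC R)
    (h : Nr R δ v (n * a) (n * b)) : Nr R δ v a b := by
  obtain ⟨s, hs, h⟩ := h
  refine ⟨n⁻¹ * s, ?_, ?_⟩
  · have := btw_mul (g := n⁻¹) |>.mpr hs
    simpa using this
  · have h2 : Cl R 0 s (n⁻¹ * s) := ⟨n, hn, by rw [mul_inv_cancel_left, isTree_dF.self]⟩
    exact h.trans h2

theorem Nr.of_btw {v a b : FreeGroup α} (h : Btw dF a v b) : Nr R 0 v a b :=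
  ⟨v, h, ⟨1, (NC R).one_mem, by rw [one_mul, isTree_dF.self]⟩⟩

theorem Nr.of_left {v a b : FreeGroup α} : Nr R (dF v a) v a b :=
  ⟨a, isTree_dF.left a b, Cl.of_dist⟩

theorem Nr.of_right {v a b : FreeGroup α} : Nr R (dF v b) v a b :=
  ⟨b, isTree_dF.right a b, Cl.of_dist⟩

/-- A relator cell. -/
theorem cell (S : SC R N ξ) {x z : FreeGroup α} (hxz : x⁻¹ * z ∈ NC R) (hne : x ≠ z) :
    ∃ ρ ∈ NC R, ∃ p q, p ∈ Ax R ρ ∧ q ∈ Ax R ρ ∧ Btw dF x p z ∧ Btw dF p q z ∧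
      dF p q + 3 * ξ = N ∧ dF p (ρ⁻¹ * q) = 3 * ξ := by
  have T := isTree_dF (α := α)
  have hN := S.hN
  obtain ⟨ρ, p, hp, z', hz', h1, h2, h3⟩ := greendlinger S hxz (by
    intro h
    apply hne
    have : x * (x⁻¹ * z) = x := by rw [h, mul_one]
    simpa using this.symm)
  obtain ⟨q, hq1, hq2⟩ := T.geod p z' (N - 3 * ξ) (by omega)
  have hq : q ∈ Ax R ρ := S.ax_conv ρ p hp z' hz' q hq1
  have hpq : Btw dF p q (x⁻¹ * z) := T.trans_left h2 hq1
  have fin : ∀ σ, p ∈ Ax R σ → q ∈ Ax R σ → Btw dF p q (σ * p) →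
      ∃ ρ ∈ NC R, ∃ p q, p ∈ Ax R ρ ∧ q ∈ Ax R ρ ∧ Btw dF x p z ∧ Btw dF p q z ∧
      dF p q + 3 * ξ = N ∧ dF p (ρ⁻¹ * q) = 3 * ξ := by
    intro σ hpσ hqσ hb
    have hxp := (ax_conj x σ p).mpr hpσ
    have hxq := (ax_conj x σ q).mpr hqσ
    refine ⟨x * σ * x⁻¹, mem_NC_of_ax hxp, x * p, x * q, hxp, hxq, ?_, ?_, ?_, ?_⟩
    · have := btw_mul (g := x) |>.mpr h1
      simpa using this
    · have := btw_mul (g := x) |>.mpr hpq
      simpa using this
    · rw [dF_mul]; omega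
    · have e : (x * σ * x⁻¹)⁻¹ * (x * q) = x * (σ⁻¹ * q) := by group
      rw [e, dF_mul]
      have h4 := dF_mul σ p (σ⁻¹ * q)
      rw [mul_inv_cancel_left] at h4
      have h5 := S.ax_dist hpσ
      unfold Btw at hb
      have := T.comm q (σ * p)
      omega
  rcases S.ax_near hp hq (by omega) with h4 | h4
  · exact fin ρ hp hq h4
  · exact fin ρ⁻¹ (by rw [S.ax_inv]; exact hp) (by rw [S.ax_inv]; exact hq) h4

theorem mono_gon (S : SC R N ξ) {x y z : FreeGroup α} (hxy : Geo R x y)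
    (hyz : dF y z ≤ 9 * ξ) (hxz : x⁻¹ * z ∈ NC R) : x = z := by
  have T := isTree_dF (α := α)
  have hN := S.hN
  have hξ := S.hξ
  by_contra hne
  obtain ⟨ρ, hρ, p, q, hp, hq, h1, h2, h3, -⟩ := cell S hxz hne
  have o1 : Ov (Ax R ρ) (N / 2) x y := ov_geo S hxy
  have o2 : Ov (Ax R ρ) (9 * ξ) y z := (Ov.dist y z).mono hyz
  have o3 := (Ov.add (S.ax_conv ρ) o1 o2).right h1
  have := (o3.left h2).self hp hq
  omega

end Pool.Agent.Helper87.Ray
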