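import Pool.Agent.Helper87.Ray.Rel
import Pool.Agent.Helper87.Ray.Thin
import Pool.Agent.Helper87.Ray.Amal

/-!
# The subgroup generated by the first and the third class is free
-/

namespace Pool.Agent.Helper87.Ray

open FreeGroup hiding map_mul map_inv map_one

section

variable {α : Type*}

/-- The block of a letter. -/
def blk (V : α → List (α × Bool)) (x : α × Bool) : List (α × Bool) :=
  cond x.2 (V x.1) (invRev (V x.1))

theorem lift_mk_blk (V : α → List (α × Bool)) (L : List (α × Bool)) :
    FreeGroup.lift (fun a => mk (V a)) (mk L) = mk (L.flatMap (blk V)) := by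
  rw [FreeGroup.lift_mk]
  induction L with
  | nil => rfl
  | cons x L ih =>
    rw [List.map_cons, List.prod_cons, ih, List.flatMap_cons, ← mul_mk]
    congr 1
    unfold blk
    cases x.2
    · simp [inv_mk]
    · simp

variable {V : α → List (α × Bool)}

theorem blk_head (hh : ∀ a, (V a).head? = some (a, true))
    (hl : ∀ a, (V a).getLast? = some (a, true)) (x : α × Bool) : (blk V x).head? = some x := by
  obtain ⟨a, b⟩ := x
  cases b
  · simp only [blk, cond_false]
    unfold invRev
    rw [List.head?_reverse, List.getLast?_map, hl a]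
    rfl
  · exact hh a

theorem blk_last (hh : ∀ a, (V a).head? = some (a, true))
    (hl : ∀ a, (V a).getLast? = some (a, true)) (x : α × Bool) : (blk V x).getLast? = some x := by
  obtain ⟨a, b⟩ := x
  cases b
  · simp only [blk, cond_false]
    unfold invRev
    rw [List.getLast?_reverse, List.head?_map, hh a]
    rfl
  · exact hl a

theorem blk_reduced [DecidableEq α] (hr : ∀ a, FreeGroup.IsReduced (V a)) (x : α × Bool) :
    FreeGroup.IsReduced (blk V x) := by
  obtain ⟨a, b⟩ := x
  cases b
  · simp only [blk, cond_false]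
    have h := toWord_inv (mk (V a))
    rw [toWord_mk_of_reduced (hr a)] at h
    rw [← h]
    exact isReduced_toWord
  · exact hr a

theorem flatMap_reduced [DecidableEq α] (hr : ∀ a, FreeGroup.IsReduced (V a))
    (hh : ∀ a, (V a).head? = some (a, true)) (hl : ∀ a, (V a).getLast? = some (a, true))
    (L : List (α × Bool)) (hL : FreeGroup.IsReduced L) :
    FreeGroup.IsReduced (L.flatMap (blk V)) ∧ (L.flatMap (blk V)).head? = L.head? := by
  induction L with
  | nil => exact ⟨FreeGroup.IsReduced.nil, rfl⟩
  | cons x L ih =>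
    have h1 : FreeGroup.IsReduced ([x] ++ L) := hL
    rw [reduced_append] at h1
    obtain ⟨_, h2, h3⟩ := h1
    obtain ⟨i1, i2⟩ := ih h2
    rw [List.flatMap_cons]
    constructor
    · rw [reduced_append]
      refine ⟨blk_reduced hr x, i1, ?_⟩
      intro y hy z hz
      rw [blk_last hh hl x] at hy
      rw [i2] at hz
      exact h3 y (by simpa using hy) z hz
    · rw [List.head?_append, blk_head hh hl x]
      rfl

theorem subst_injective [DecidableEq α] (hr : ∀ a, FreeGroup.IsReduced (V a))
    (hh : ∀ a, (V a).head? = some (a, true)) (hl : ∀ a, (V a).getLast? = some (a, true)) :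
    Function.Injective (FreeGroup.lift fun a => mk (V a)) := by
  rw [injective_iff_map_eq_one]
  intro u hu
  rw [← mk_toWord (x := u), lift_mk_blk] at hu
  obtain ⟨h1, h2⟩ := flatMap_reduced hr hh hl u.toWord isReduced_toWord
  have h3 := toWord_mk_of_reduced h1
  rw [hu, toWord_one] at h3
  rw [← h3] at h2
  have h4 : u.toWord = [] := by
    cases h : u.toWord with
    | nil => rfl
    | cons x L => rw [h] at h2; simp at h2
  exact toWord_eq_nil_iff.mp h4

end

/-- The words of the relators as elements of the free group of rank two. -/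
def wd (i j : Bool) : FreeGroup Bool := mk ((wrd i j).map fun b => (b, true))

/-- The substitutions. -/
def phi (i : Bool) : FreeGroup Bool →* FreeGroup Bool := FreeGroup.lift (wd i)

theorem wrd_head : ∀ i j, (wrd i j).head? = some j := by decide +kernel

set_option maxRecDepth 100000 in
theorem wrd_last : ∀ i j, (wrd i j).getLast? = some j := by decide +kernel

theorem pos_reduced {α : Type*} (L : List α) :
    FreeGroup.IsReduced (L.map fun b => (b, true)) := by
  unfold FreeGroup.IsReduced
  rw [List.isChain_map]
  apply List.Pairwise.isChain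
  apply List.pairwise_of_forall
  intro a b _
  rfl

theorem phi_injective (i : Bool) : Function.Injective (phi i) := by
  apply subst_injective (V := fun j => (wrd i j).map fun b => (b, true))
  · intro a; exact pos_reduced _
  · intro a; rw [List.head?_map, wrd_head]; rfl
  · intro a; rw [List.getLast?_map, wrd_last]; rfl

/-- The inclusion of the `c`-th class. -/
def inc (c : Fin 4) : FreeGroup Bool →* FreeGroup Al := FreeGroup.map fun b => (c, b)

theorem mk_rel (c : Fin 4) (i j : Bool) :
    mk (rel c i j) = inc (c + 1) (wd i j) * of (c, i) * (of (c + 1, j))⁻¹ * (of (c, i))⁻¹ := by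
  unfold rel inc wd
  generalize wrd i j = w
  rw [FreeGroup.map.mk, ← mul_mk, List.map_map]
  have h1 : (mk [((c, i), true), ((c + 1, j), false), ((c, i), false)] : FreeGroup Al) =
      of (c, i) * (of (c + 1, j))⁻¹ * (of (c, i))⁻¹ := rfl
  rw [h1]
  simp only [mul_assoc]
  rfl

/-- The group. -/
abbrev GG : Type := FreeGroup Al ⧸ NC RR

/-- The projection. -/
def pr : FreeGroup Al →* GG := QuotientGroup.mk' (NC RR)

theorem pr_surjective : Function.Surjective pr := QuotientGroup.mk'_surjective _

theorem pr_ker : pr.ker = NC RR := QuotientGroup.ker_mk' _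

theorem rel_mem (c : Fin 4) (i j : Bool) : mk (rel c i j) ∈ RR := by
  refine ⟨rel c i j, ?_, 0, by rw [List.rotate_zero]⟩
  exact List.mem_append_left _ (mem_rels.mpr ⟨c, i, j, rfl⟩)

/-- The `c`-th class in the group. -/
def XX (c : Fin 4) : FreeGroup Bool →* GG := pr.comp (inc c)

theorem XX_act (c : Fin 4) (b : Bool) (g : FreeGroup Bool) :
    XX c (of b) * XX (c + 1) g * (XX c (of b))⁻¹ = XX (c + 1) (phi b g) := by
  have h : ((MulAut.conj (XX c (of b))).toMonoidHom.comp (XX (c + 1))) =
      (XX (c + 1)).comp (phi b) := by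
    ext j
    have h1 : pr (mk (rel c b j)) = 1 := by
      have : mk (rel c b j) ∈ pr.ker := by
        rw [pr_ker]; exact Subgroup.subset_normalClosure (rel_mem c b j)
      exact this
    rw [mk_rel, map_mul, map_mul, map_mul, map_inv, map_inv, mul_inv_eq_one,
      mul_inv_eq_iff_eq_mul] at h1
    simp only [MonoidHom.comp_apply, MulEquiv.coe_toMonoidHom, MulAut.conj_apply, phi,
      FreeGroup.lift_apply_of, XX, inc, FreeGroup.map.of] at h1 ⊢
    rw [mul_inv_eq_iff_eq_mul]
    exact h1.symm
  exact DFunLike.congr_fun h g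

theorem exists_hom {Γ : Type} [Group Γ] (X : Fin 4 → FreeGroup Bool →* Γ)
    (hX : ∀ c b g, X c (of b) * X (c + 1) g * (X c (of b))⁻¹ = X (c + 1) (phi b g)) :
    ∃ f : GG →* Γ, ∀ c b, f (pr (of (c, b))) = X c (of b) := by
  let F : FreeGroup Al →* Γ := FreeGroup.lift fun x => X x.1 (of x.2)
  have hinc : ∀ c g, F (inc c g) = X c g := by
    intro c g
    have h : F.comp (inc c) = X c := by
      ext b
      simp [F, inc]
    exact DFunLike.congr_fun h g
  have hof : ∀ c b, F (of (c, b)) = X c (of b) := by
    intro c b
    simp [F]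
  have hrel : ∀ c i j, F (mk (rel c i j)) = 1 := by
    intro c i j
    rw [mk_rel, map_mul, map_mul, map_mul, map_inv, map_inv, hinc, hof, hof]
    have h := hX c i (of j)
    simp only [phi, FreeGroup.lift_apply_of] at h
    rw [← h]
    group
  have hrels : ∀ l ∈ allRels, F (mk l) = 1 := by
    intro l hl
    unfold allRels at hl
    rw [List.mem_append, List.mem_map] at hl
    rcases hl with hl | ⟨l', hl', rfl⟩
    · obtain ⟨c, i, j, rfl⟩ := mem_rels.mp hl
      exact hrel c i j
    · obtain ⟨c, i, j, rfl⟩ := mem_rels.mp hl'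
      rw [← inv_mk, map_inv, hrel, inv_one]
  have hRR : RR ⊆ (F.ker : Set (FreeGroup Al)) := by
    rintro r ⟨l, hl, n, rfl⟩
    have h1 := hrels l hl
    rw [← List.take_append_drop (n % l.length) l, ← mul_mk, map_mul] at h1
    change F (mk (l.rotate n)) = 1
    rw [List.rotate_eq_drop_append_take_mod, ← mul_mk, map_mul]
    exact mul_eq_one_comm.mp h1
  have hle : NC RR ≤ F.ker := Subgroup.normalClosure_le_normal hRR
  refine ⟨QuotientGroup.lift (NC RR) F hle, ?_⟩
  intro c b
  rw [← hof]
  rfl

/-- The subgroup generated by the first and the third class is free of rank four. -/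
theorem free_TK : Function.Injective (FreeGroup.lift fun x : Bool × Bool =>
    pr (of ((cond x.1 2 0 : Fin 4), x.2))) := by
  obtain ⟨Γ, _, X, hinj, hX⟩ := exists_target phi phi_injective
  obtain ⟨f, hf⟩ := exists_hom X hX
  have h : f.comp (FreeGroup.lift fun x : Bool × Bool =>
      pr (of ((cond x.1 2 0 : Fin 4), x.2))) =
      FreeGroup.lift fun x : Bool × Bool => X (cond x.1 2 0) (of x.2) := by
    ext x
    simp [hf]
  rw [← h] at hinj
  exact Function.Injective.of_comp hinj

end Pool.Agent.Helper87.Ray
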