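import Pool.Agent.Helper87.Ray.Tree

/-!
# The free group as a discrete tree
-/

namespace Pool.Agent.Helper87.Ray

open FreeGroup

variable {α : Type*} [DecidableEq α]

/-- The word metric of the free group. -/
def dF (x y : FreeGroup α) : ℕ := (x⁻¹ * y).norm

theorem dF_mul (g x y : FreeGroup α) : dF (g * x) (g * y) = dF x y := by
  unfold dF; congr 1; group

theorem dF_one (x : FreeGroup α) : dF 1 x = x.norm := by simp [dF]

theorem btw_mul {g x m y : FreeGroup α} : Btw dF (g * x) (g * m) (g * y) ↔ Btw dF x m y := by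
  unfold Btw; simp only [dF_mul]

theorem toWord_mul_of_norm {a b : FreeGroup α} (h : (a * b).norm = a.norm + b.norm) :
    (a * b).toWord = a.toWord ++ b.toWord := by
  apply (toWord_mul_sublist a b).eq_of_length
  simpa [FreeGroup.norm] using h

theorem norm_mul_of_reduced {a b : FreeGroup α} (h : IsReduced (a.toWord ++ b.toWord)) :
    (a * b).norm = a.norm + b.norm := by
  unfold FreeGroup.norm
  rw [toWord_mul, h.reduce_eq, List.length_append]

theorem toWord_mk_of_reduced {L : List (α × Bool)} (h : IsReduced L) :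
    (mk L).toWord = L := by rw [toWord_mk, h.reduce_eq]

omit [DecidableEq α] in
theorem reduced_append {L₁ L₂ : List (α × Bool)} : IsReduced (L₁ ++ L₂) ↔
    IsReduced L₁ ∧ IsReduced L₂ ∧
      ∀ x ∈ L₁.getLast?, ∀ y ∈ L₂.head?, (x.1 = y.1 → x.2 = y.2) := by
  unfold FreeGroup.IsReduced
  exact List.isChain_append

/-- Splitting off the longest common prefix. -/
theorem exists_common_prefix {β : Type*} [DecidableEq β] (A B : List β) :
    ∃ P A' B', A = P ++ A' ∧ B = P ++ B' ∧ ∀ x ∈ A'.head?, ∀ y ∈ B'.head?, x ≠ y := by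
  induction A generalizing B with
  | nil => exact ⟨[], [], B, rfl, rfl, by simp⟩
  | cons a A ih =>
    cases B with
    | nil => exact ⟨[], a :: A, [], rfl, rfl, by simp⟩
    | cons b B =>
      by_cases h : a = b
      · subst h
        obtain ⟨P, A', B', h1, h2, h3⟩ := ih B
        exact ⟨a :: P, A', B', by simp [h1], by simp [h2], h3⟩
      · exact ⟨[], a :: A, b :: B, rfl, rfl, by simpa using h⟩

theorem head_toWord_inv {a : FreeGroup α} {x : α × Bool} (h : x ∈ (a⁻¹).toWord.getLast?) :
    (x.1, !x.2) ∈ a.toWord.head? := by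
  rw [toWord_inv] at h
  unfold invRev at h
  rw [List.getLast?_reverse] at h
  cases hL : a.toWord with
  | nil => rw [hL] at h; simp at h
  | cons y L =>
    rw [hL] at h
    simp at h
    simp [← h]

theorem norm_inv_mul_of_head_ne {a b : FreeGroup α}
    (h : ∀ x ∈ a.toWord.head?, ∀ y ∈ b.toWord.head?, x ≠ y) :
    (a⁻¹ * b).norm = a.norm + b.norm := by
  rw [norm_mul_of_reduced, norm_inv_eq]
  rw [reduced_append]
  refine ⟨isReduced_toWord, isReduced_toWord, ?_⟩
  intro x hx y hy e
  by_contra hne
  apply h _ (head_toWord_inv hx) y hy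
  ext
  · simpa using e
  · simp only
    cases hx2 : x.2 <;> cases hy2 : y.2 <;> simp_all

theorem btw_one_iff {a y : FreeGroup α} : Btw dF 1 a y ↔ a.toWord <+: y.toWord := by
  unfold Btw
  rw [dF_one, dF_one]
  unfold dF
  constructor
  · intro h
    have : (a * (a⁻¹ * y)).toWord = a.toWord ++ (a⁻¹ * y).toWord := by
      apply toWord_mul_of_norm
      rw [mul_inv_cancel_left]; exact h.symm
    rw [mul_inv_cancel_left] at this
    exact ⟨_, this.symm⟩
  · rintro ⟨L, hL⟩
    have hLr : IsReduced L := by
      have := isReduced_toWord (x := y)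
      rw [← hL, reduced_append] at this
      exact this.2.1
    have e : a⁻¹ * y = mk L := by
      have : y = a * mk L := by
        rw [← mk_toWord (x := y), ← hL, ← mul_mk, mk_toWord]
      rw [this]; group
    rw [e]
    have h2 : y.norm = a.norm + L.length := by
      unfold FreeGroup.norm
      rw [← hL, List.length_append]
    have h3 : (mk L).norm = L.length := by
      unfold FreeGroup.norm; rw [toWord_mk_of_reduced hLr]
    omega

theorem btw_iff {x a y : FreeGroup α} : Btw dF x a y ↔
    (x⁻¹ * a).toWord <+: (x⁻¹ * y).toWord := by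
  have h := btw_mul (g := x) (x := 1) (m := x⁻¹ * a) (y := x⁻¹ * y)
  rw [mul_one, mul_inv_cancel_left, mul_inv_cancel_left] at h
  rw [← btw_one_iff, h]

theorem dF_self (x : FreeGroup α) : dF x x = 0 := by simp [dF]

theorem isTree_dF : IsTree (dF (α := α)) where
  self := dF_self
  eq := by
    intro x y h
    unfold dF at h
    rw [FreeGroup.norm_eq_zero] at h
    have : x * (x⁻¹ * y) = x := by rw [h]; simp
    simpa using this.symm
  comm := by
    intro x y
    unfold dF
    rw [← norm_inv_eq]
    congr 1; group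
  tri := by
    intro x y z
    unfold dF
    have : x⁻¹ * z = (x⁻¹ * y) * (y⁻¹ * z) := by group
    rw [this]
    exact norm_mul_le _ _
  med := by
    intro x y z
    -- translate x to 1
    obtain ⟨P, A, B, hA, hB, hne⟩ := exists_common_prefix (x⁻¹ * y).toWord (x⁻¹ * z).toWord
    have hPA : IsReduced (P ++ A) := hA ▸ isReduced_toWord
    have hPB : IsReduced (P ++ B) := hB ▸ isReduced_toWord
    have hP : IsReduced P := (reduced_append.mp hPA).1
    have hAr : IsReduced A := (reduced_append.mp hPA).2.1
    have hBr : IsReduced B := (reduced_append.mp hPB).2.1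
    have e1 : x⁻¹ * y = mk P * mk A := by rw [mul_mk, ← hA, mk_toWord]
    have e2 : x⁻¹ * z = mk P * mk B := by rw [mul_mk, ← hB, mk_toWord]
    refine ⟨x * mk P, ?_, ?_, ?_⟩
    · rw [btw_iff, hA]
      simp [toWord_mk_of_reduced hP]
    · unfold Btw dF
      have e3 : y⁻¹ * z = (mk A)⁻¹ * mk B := by
        have : y⁻¹ * z = (x⁻¹ * y)⁻¹ * (x⁻¹ * z) := by group
        rw [this, e1, e2]; group
      have e4 : y⁻¹ * (x * mk P) = (mk A)⁻¹ := by
        have : y⁻¹ * (x * mk P) = (x⁻¹ * y)⁻¹ * mk P := by group
        rw [this, e1]; group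
      have e5 : (x * mk P)⁻¹ * z = mk B := by
        have : (x * mk P)⁻¹ * z = (mk P)⁻¹ * (x⁻¹ * z) := by group
        rw [this, e2]; group
      rw [e3, e4, e5, norm_inv_eq, norm_inv_mul_of_head_ne]
      rw [toWord_mk_of_reduced hAr, toWord_mk_of_reduced hBr]
      exact hne
    · rw [btw_iff, hB]
      simp [toWord_mk_of_reduced hP]
  lin := by
    intro x y a b ha hb h
    rw [btw_iff] at *
    apply List.prefix_of_prefix_length_le ha hb
    exact h
  geod := by
    intro x y k hk
    have hr : IsReduced ((x⁻¹ * y).toWord.take k) := by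
      have := isReduced_toWord (x := x⁻¹ * y)
      rw [← List.take_append_drop k (x⁻¹ * y).toWord, reduced_append] at this
      exact this.1
    refine ⟨x * mk ((x⁻¹ * y).toWord.take k), ?_, ?_⟩
    · rw [btw_iff]
      simp only [inv_mul_cancel_left, toWord_mk_of_reduced hr]
      exact List.take_prefix _ _
    · unfold dF
      rw [inv_mul_cancel_left]
      unfold FreeGroup.norm
      rw [toWord_mk_of_reduced hr, List.length_take]
      unfold dF FreeGroup.norm at hk
      omega

theorem conv_mul {W : Set (FreeGroup α)} (h : Conv dF W) (g : FreeGroup α) :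
    Conv dF {x | g⁻¹ * x ∈ W} := by
  intro x hx y hy z hz
  exact h _ hx _ hy _ (btw_mul.mpr hz)

end Pool.Agent.Helper87.Ray
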