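import Pool.Agent.Helper87.Ray.Mill

/-!
# Greendlinger's lemma
-/

namespace Pool.Agent.Helper87.Ray

open FreeGroup

variable {α : Type*} [DecidableEq α]

variable {R : Set (FreeGroup α)} {N ξ : ℕ} {W : Set (FreeGroup α)}
  {H : Subgroup (FreeGroup α)}

namespace Mill

theorem init : Mill R N ξ {1} (⊥ : Subgroup (FreeGroup α)) where
  one := rfl
  conv := by
    intro x hx y hy z hz
    rw [Set.mem_singleton_iff] at hx hy ⊢
    subst hx hy
    apply (isTree_dF (α := α)).eq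
    unfold Btw at hz
    rw [isTree_dF.self, isTree_dF.comm 1 z] at hz
    omega
  inv := by
    intro h hh w hw
    rw [Subgroup.mem_bot] at hh
    rw [Set.mem_singleton_iff] at hw ⊢
    rw [hh, hw, one_mul]
  ax := by
    intro ρ
    right
    intro x _ hx y _ hy
    rw [Set.mem_singleton_iff] at hx hy
    rw [hx, hy, isTree_dF.self]
    omega
  green := by
    intro h hh hne
    rw [Subgroup.mem_bot] at hh
    exact absurd hh hne

/-- Thickening. -/
theorem thicken (M : Mill R N ξ W H) (S : SC R N ξ)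
    (hab : ∀ ρ, (∃ x ∈ Ax R ρ, x ∈ W) → Ax R ρ ⊆ W ∧ ρ ∈ H) :
    Mill R N ξ {x | ∃ w ∈ W, dF w x ≤ 1} H := by
  have T := isTree_dF (α := α)
  refine ⟨⟨1, M.one, by rw [T.self]; omega⟩, ?_, ?_, ?_, M.green⟩
  · rintro x ⟨w, hw, h1⟩ y ⟨w', hw', h2⟩ z hz
    rcases T.cover hz w with h3 | h3
    · refine ⟨w, hw, ?_⟩
      unfold Btw at h3
      rw [T.comm x w] at h3
      have := T.comm z w
      omega
    · rcases T.cover h3 w' with h4 | h4
      · exact ⟨z, M.conv w hw w' hw' z h4, by rw [T.self]; omega⟩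
      · refine ⟨w', hw', ?_⟩
        unfold Btw at h4
        omega
  · rintro h hh x ⟨w, hw, h1⟩
    exact ⟨h * w, M.inv h hh w hw, by rw [dF_mul]; exact h1⟩
  · intro ρ
    by_cases hmeet : ∃ x ∈ Ax R ρ, x ∈ W
    · left
      obtain ⟨h1, h2⟩ := hab ρ hmeet
      exact ⟨fun x hx => ⟨x, h1 hx, by rw [T.self]; omega⟩, h2⟩
    · right
      push Not at hmeet
      have key : ∀ x ∈ Ax R ρ, ∀ y ∈ Ax R ρ, ∀ w ∈ W, dF w x ≤ 1 → Btw dF w x y := by
        intro x hx y hy w hw h1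
        obtain ⟨m, hm1, hm2, hm3⟩ := T.med w x y
        -- m between w and x; x and y ; w and y
        have hmA : m ∈ Ax R ρ := S.ax_conv ρ x hx y hy m hm2
        have : m ≠ w := by
          rintro rfl
          exact hmeet m hmA hw
        have h3 : dF w m ≠ 0 := fun e => this (T.eq _ _ e).symm
        have h4 : m = x := by
          apply T.eq
          unfold Btw at hm1
          omega
        rw [h4] at hm3
        exact hm3
      rintro x hx ⟨w, hw, h1⟩ y hy ⟨w', hw', h2⟩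
      have h3 := key x hx y hy w hw h1
      have h4 := key y hy x hx w' hw' h2
      by_cases hxy : x = y
      · rw [hxy, T.self]; omega
      · exfalso
        have h5 := T.concat_left h3 (T.symm h4) hxy
        exact hmeet x hx (M.conv w hw w' hw' x h5)

theorem chain {c : Set (Set (FreeGroup α) × Subgroup (FreeGroup α))}
    (hc : ∀ x ∈ c, Mill R N ξ x.1 x.2) (hchain : IsChain (· ≤ ·) c) (hne : c.Nonempty) :
    Mill R N ξ {x | ∃ P ∈ c, x ∈ P.1} (sSup (Prod.snd '' c)) := by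
  have dir : ∀ P ∈ c, ∀ Q ∈ c, ∃ K ∈ c, P ≤ K ∧ Q ≤ K := by
    intro P hP Q hQ
    rcases hchain.total hP hQ with h | h
    · exact ⟨Q, hQ, h, le_rfl⟩
    · exact ⟨P, hP, le_rfl, h⟩
  have hmem : ∀ h, h ∈ sSup (Prod.snd '' c) ↔ ∃ P ∈ c, h ∈ P.2 := by
    intro h
    rw [Subgroup.mem_sSup_of_directedOn (hne.image _)]
    · constructor
      · rintro ⟨_, ⟨P, hP, rfl⟩, hh⟩
        exact ⟨P, hP, hh⟩
      · rintro ⟨P, hP, hh⟩
        exact ⟨_, ⟨P, hP, rfl⟩, hh⟩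
    · rintro _ ⟨P, hP, rfl⟩ _ ⟨Q, hQ, rfl⟩
      obtain ⟨K, hK, h1, h2⟩ := dir P hP Q hQ
      exact ⟨_, ⟨K, hK, rfl⟩, h1.2, h2.2⟩
  constructor
  · obtain ⟨P, hP⟩ := hne
    exact ⟨P, hP, (hc P hP).one⟩
  · rintro x ⟨P, hP, hx⟩ y ⟨Q, hQ, hy⟩ z hz
    obtain ⟨K, hK, h1, h2⟩ := dir P hP Q hQ
    exact ⟨K, hK, (hc K hK).conv x (h1.1 hx) y (h2.1 hy) z hz⟩
  · rintro h hh w ⟨P, hP, hw⟩
    rw [hmem] at hh
    obtain ⟨Q, hQ, hh⟩ := hh
    obtain ⟨K, hK, h1, h2⟩ := dir P hP Q hQ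
    exact ⟨K, hK, (hc K hK).inv h (h2.2 hh) w (h1.1 hw)⟩
  · intro ρ
    by_cases h : ∃ P ∈ c, Ax R ρ ⊆ P.1 ∧ ρ ∈ P.2
    · left
      obtain ⟨P, hP, h1, h2⟩ := h
      refine ⟨fun x hx => ⟨P, hP, h1 hx⟩, ?_⟩
      rw [hmem]
      exact ⟨P, hP, h2⟩
    · right
      rintro x hx ⟨P, hP, hxP⟩ y hy ⟨Q, hQ, hyQ⟩
      obtain ⟨K, hK, h1, h2⟩ := dir P hP Q hQ
      rcases (hc K hK).ax ρ with h3 | h3
      · exact absurd ⟨K, hK, h3⟩ h
      · exact h3 x hx (h1.1 hxP) y hy (h2.1 hyQ)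
  · intro h hh hne
    rw [hmem] at hh
    obtain ⟨P, hP, hh⟩ := hh
    exact (hc P hP).green h hh hne

theorem exists_full (S : SC R N ξ) : ∃ H : Subgroup (FreeGroup α), Mill R N ξ Set.univ H := by
  have T := isTree_dF (α := α)
  obtain ⟨⟨W, H⟩, hle, hmax⟩ := zorn_le_nonempty₀
    {P : Set (FreeGroup α) × Subgroup (FreeGroup α) | Mill R N ξ P.1 P.2} (by
      intro c hcs hc y hy
      refine ⟨(_, _), chain (fun x hx => hcs hx) hc ⟨y, hy⟩, ?_⟩
      intro z hz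
      constructor
      · intro x hx
        exact ⟨z, hz, hx⟩
      · exact le_sSup ⟨z, hz, rfl⟩) ({1}, ⊥) init
  have M : Mill R N ξ W H := hmax.1
  have hmx : ∀ W' H', Mill R N ξ W' H' → W ⊆ W' → H ≤ H' → W' ⊆ W ∧ H' ≤ H := by
    intro W' H' h1 h2 h3
    exact hmax.2 (y := (W', H')) h1 ⟨h2, h3⟩
  obtain ⟨Mn, hab⟩ := M.next S
  obtain ⟨h1, h2⟩ := hmx _ _ Mn subset_nextW le_nextH
  have hab' : ∀ ρ, (∃ x ∈ Ax R ρ, x ∈ W) → Ax R ρ ⊆ W ∧ ρ ∈ H := fun ρ hρ =>
    ⟨(hab ρ hρ).1.trans h1, h2 (hab ρ hρ).2⟩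
  have Mt := M.thicken S hab'
  obtain ⟨h3, -⟩ := hmx _ _ Mt (fun x hx => ⟨x, hx, by rw [T.self]; omega⟩) le_rfl
  have huniv : W = Set.univ := by
    apply Set.eq_univ_of_forall
    have : ∀ n, ∀ x : FreeGroup α, dF 1 x = n → x ∈ W := by
      intro n
      induction n with
      | zero =>
        intro x hx
        rw [← T.eq _ _ hx]; exact M.one
      | succ n ih =>
        intro x hx
        obtain ⟨z, hz1, hz2⟩ := T.geod 1 x n (by omega)
        apply h3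
        refine ⟨z, ih z hz2, ?_⟩
        unfold Btw at hz1
        omega
    intro x
    exact this _ x rfl
  rw [huniv] at M
  exact ⟨H, M⟩

end Mill

/-- Greendlinger's lemma. -/
theorem greendlinger (S : SC R N ξ) {w : FreeGroup α} (hw : w ∈ Subgroup.normalClosure R)
    (hne : w ≠ 1) : ∃ ρ, ∃ p ∈ Ax R ρ, ∃ z ∈ Ax R ρ,
    Btw dF 1 p w ∧ Btw dF p z w ∧ N ≤ dF p z + 3 * ξ := by
  have T := isTree_dF (α := α)
  obtain ⟨H, M⟩ := Mill.exists_full S
  apply M.green w _ hne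
  have : Subgroup.normalClosure R ≤ H := by
    unfold Subgroup.normalClosure
    rw [Subgroup.closure_le]
    intro ρ hρ
    rw [Group.mem_conjugatesOfSet_iff] at hρ
    obtain ⟨r, hr, hρ⟩ := hρ
    rw [isConj_iff] at hρ
    obtain ⟨g, hg⟩ := hρ
    have hgA : g ∈ Ax R ρ := by
      rw [mem_ax, ← hg]
      have : g⁻¹ * (g * r * g⁻¹) * g = r := by group
      rw [this]; exact hr
    rcases M.ax ρ with h | h
    · exact h.2
    · exfalso
      have h1 := h g hgA trivial (ρ * g) (by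
        have := (ax_zpow (R := R) (ρ := ρ) (x := g) 1).mpr hgA
        simpa using this) trivial
      have h2 := S.ax_dist hgA
      have := S.hN
      have := S.hξ
      omega
  exact this hw

end Pool.Agent.Helper87.Ray
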