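import Pool.Agent.Helper87.Ray.Axis

/-!
# Windmills: Greendlinger's lemma in the Cayley tree
-/

namespace Pool.Agent.Helper87.Ray

open FreeGroup

variable {α : Type*} [DecidableEq α]

/-- A windmill: a convex subset `W` together with a group `H` acting on it, such that the
conclusion of Greendlinger's lemma is known for `H`. -/
structure Mill (R : Set (FreeGroup α)) (N ξ : ℕ) (W : Set (FreeGroup α))
    (H : Subgroup (FreeGroup α)) : Prop where
  one : 1 ∈ W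
  conv : Conv dF W
  inv : ∀ h ∈ H, ∀ w ∈ W, h * w ∈ W
  ax : ∀ ρ, (Ax R ρ ⊆ W ∧ ρ ∈ H) ∨
    (∀ x ∈ Ax R ρ, x ∈ W → ∀ y ∈ Ax R ρ, y ∈ W → dF x y ≤ 2 * ξ)
  green : ∀ h ∈ H, h ≠ 1 → ∃ ρ, ∃ p ∈ Ax R ρ, ∃ z ∈ Ax R ρ,
    Btw dF 1 p h ∧ Btw dF p z h ∧ N ≤ dF p z + 3 * ξ

variable {R : Set (FreeGroup α)} {N ξ : ℕ} {W : Set (FreeGroup α)}
  {H : Subgroup (FreeGroup α)}

/-- The relator conjugates whose axes meet `W` and are not yet absorbed. -/
def nextB (R : Set (FreeGroup α)) (W : Set (FreeGroup α)) (H : Subgroup (FreeGroup α)) :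
    Set (FreeGroup α) := {ρ | (∃ x ∈ Ax R ρ, x ∈ W) ∧ ¬ (Ax R ρ ⊆ W ∧ ρ ∈ H)}

/-- The next group. -/
def nextH (R : Set (FreeGroup α)) (W : Set (FreeGroup α)) (H : Subgroup (FreeGroup α)) :
    Subgroup (FreeGroup α) := Subgroup.closure (↑H ∪ nextB R W H)

/-- The next convex set. -/
def nextW (R : Set (FreeGroup α)) (W : Set (FreeGroup α)) (H : Subgroup (FreeGroup α)) :
    Set (FreeGroup α) := hull dF {x | ∃ u ∈ nextH R W H, ∃ w ∈ W, x = u * w}

theorem le_nextH : H ≤ nextH R W H := fun _ hx => Subgroup.subset_closure (Or.inl hx)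

theorem nextB_mem_nextH {ρ : FreeGroup α} (h : ρ ∈ nextB R W H) : ρ ∈ nextH R W H :=
  Subgroup.subset_closure (Or.inr h)

theorem subset_nextW : W ⊆ nextW R W H := by
  intro x hx
  apply subset_hull isTree_dF
  exact ⟨1, Subgroup.one_mem _, x, hx, by simp⟩

/-- Normal forms of elements of the next group. -/
inductive NF (R : Set (FreeGroup α)) (W : Set (FreeGroup α)) (H : Subgroup (FreeGroup α)) :
    Option (FreeGroup α) → FreeGroup α → Prop
  | base {g : FreeGroup α} : g ∈ H → NF R W H none g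
  | step {o : Option (FreeGroup α)} {g ρ : FreeGroup α} {n : ℤ} : ρ ∈ nextB R W H → n ≠ 0 →
      NF R W H o g → o ≠ some ρ → o ≠ some ρ⁻¹ → NF R W H (some ρ) (ρ ^ n * g)

/-- The shadow of `ρ`. -/
def Shd (R : Set (FreeGroup α)) (N ξ : ℕ) (W : Set (FreeGroup α)) (ρ x p z : FreeGroup α) :
    Prop :=
  p ∈ W ∧ p ∈ Ax R ρ ∧ z ∈ Ax R ρ ∧ Btw dF p z x ∧ N ≤ dF p z + 3 * ξ ∧
    ∀ w ∈ W, Btw dF p w z → w = p

namespace Mill

theorem nextB_conj (M : Mill R N ξ W H) {ρ h : FreeGroup α} (hρ : ρ ∈ nextB R W H)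
    (hh : h ∈ H) : h * ρ * h⁻¹ ∈ nextB R W H := by
  obtain ⟨⟨x, hx, hxW⟩, h2⟩ := hρ
  refine ⟨⟨h * x, (ax_conj h ρ x).mpr hx, M.inv h hh x hxW⟩, ?_⟩
  rintro ⟨h3, h4⟩
  apply h2
  constructor
  · intro y hy
    have h5 := h3 ((ax_conj h ρ y).mpr hy)
    have h6 := M.inv _ (H.inv_mem hh) _ h5
    rwa [inv_mul_cancel_left] at h6
  · have := H.mul_mem (H.mul_mem (H.inv_mem hh) h4) hh
    have e : h⁻¹ * (h * ρ * h⁻¹) * h = ρ := by group
    rwa [e] at this

theorem nextB_inv (S : SC R N ξ) {ρ : FreeGroup α} (hρ : ρ ∈ nextB R W H) :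
    ρ⁻¹ ∈ nextB R W H := by
  obtain ⟨⟨x, hx, hxW⟩, h2⟩ := hρ
  refine ⟨⟨x, by rw [S.ax_inv]; exact hx, hxW⟩, ?_⟩
  rw [S.ax_inv]
  rintro ⟨h3, h4⟩
  exact h2 ⟨h3, by simpa using h4⟩

theorem nf_mul_H (M : Mill R N ξ W H) {h : FreeGroup α} (hh : h ∈ H) {o : Option (FreeGroup α)}
    {g : FreeGroup α} (hg : NF R W H o g) :
    NF R W H (o.map fun ρ => h * ρ * h⁻¹) (h * g) := by
  induction hg with
  | base hg => exact NF.base (H.mul_mem hh hg)
  | @step o g ρ n h1 h2 h3 h4 h5 ih =>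
    have e : h * (ρ ^ n * g) = (h * ρ * h⁻¹) ^ n * (h * g) := by
      rw [conj_zpow]; group
    rw [e]
    apply NF.step (M.nextB_conj h1 hh) h2 ih
    · intro h6
      apply h4
      cases o with
      | none => simp at h6
      | some σ =>
        simp only [Option.map_some, Option.some.injEq] at h6 ⊢
        have := congrArg (fun t => h⁻¹ * t * h) h6
        simpa [mul_assoc] using this
    · intro h6
      apply h5
      cases o with
      | none => simp at h6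
      | some σ =>
        simp only [Option.map_some, Option.some.injEq] at h6 ⊢
        have := congrArg (fun t => h⁻¹ * t * h) h6
        simpa [mul_assoc] using this

theorem nf_mul_B (S : SC R N ξ) {σ : FreeGroup α} (hσ : σ ∈ nextB R W H)
    {o : Option (FreeGroup α)} {g : FreeGroup α} (hg : NF R W H o g) :
    ∃ o', NF R W H o' (σ * g) := by
  cases hg with
  | base hg =>
    refine ⟨some σ, ?_⟩
    have := NF.step (n := 1) hσ (by simp) (NF.base (R := R) (W := W) hg) (by simp) (by simp)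
    simpa using this
  | @step o g ρ n h1 h2 h3 h4 h5 =>
    by_cases e : ρ = σ
    · subst e
      by_cases hn : n + 1 = 0
      · refine ⟨o, ?_⟩
        have e : ρ * (ρ ^ n * g) = g := by
          rw [← mul_assoc, ← zpow_one_add, add_comm, hn]; simp
        rw [e]; exact h3
      · refine ⟨some ρ, ?_⟩
        have e : ρ * (ρ ^ n * g) = ρ ^ (n + 1) * g := by
          rw [← mul_assoc, ← zpow_one_add, add_comm]
        rw [e]; exact NF.step h1 hn h3 h4 h5
    by_cases e' : ρ = σ⁻¹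
    · subst e'
      by_cases hn : n - 1 = 0
      · refine ⟨o, ?_⟩
        have e : σ * (σ⁻¹ ^ n * g) = g := by
          have : n = 1 := by omega
          rw [this]; group
        rw [e]; exact h3
      · refine ⟨some σ⁻¹, ?_⟩
        have e : σ * (σ⁻¹ ^ n * g) = σ⁻¹ ^ (n - 1) * g := by
          group
        rw [e]; exact NF.step h1 hn h3 h4 h5
    · refine ⟨some σ, ?_⟩
      have := NF.step (n := 1) hσ (by simp) (NF.step h1 h2 h3 h4 h5)
        (by simpa using e) (by simpa using e')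
      simpa using this

theorem exists_nf (S : SC R N ξ) (M : Mill R N ξ W H) {g : FreeGroup α}
    (hg : g ∈ nextH R W H) : ∃ o, NF R W H o g := by
  refine Subgroup.closure_induction_left (p := fun g _ => ∃ o, NF R W H o g) ?_ ?_ ?_ hg
  · exact ⟨none, NF.base H.one_mem⟩
  · rintro x (hx | hx) y hy ⟨o, ho⟩
    · exact ⟨_, M.nf_mul_H hx ho⟩
    · exact nf_mul_B S hx ho
  · rintro x (hx | hx) y hy ⟨o, ho⟩
    · exact ⟨_, M.nf_mul_H (H.inv_mem hx) ho⟩
    · exact nf_mul_B S (nextB_inv S hx) ho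

/-- The bridge between `W` and `ρ ^ n W`. -/
theorem bridge (S : SC R N ξ) (M : Mill R N ξ W H) {ρ : FreeGroup α}
    (hρ : ρ ∈ nextB R W H) {n : ℤ} (hn : n ≠ 0) :
    ∃ p q, p ∈ W ∧ p ∈ Ax R ρ ∧ ρ ^ (-n) * q ∈ W ∧ q ∈ Ax R ρ ∧
      (∀ z ∈ W, Btw dF p z q → z = p) ∧
      (∀ z, ρ ^ (-n) * z ∈ W → Btw dF p z q → z = q) ∧ N ≤ dF p q + 2 * ξ := by
  have T := isTree_dF (α := α)
  obtain ⟨⟨x, hx, hxW⟩, h2⟩ := hρ
  have hb := (M.ax ρ).resolve_left h2
  obtain ⟨p, ⟨hp, hpW⟩, q, ⟨hq, hqW⟩, hmin⟩ := exists_closest dF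
    (A := {y | y ∈ Ax R ρ ∧ y ∈ W}) (B := {y | y ∈ Ax R ρ ∧ ρ ^ (-n) * y ∈ W})
    ⟨x, hx, hxW⟩ ⟨ρ ^ n * x, (ax_zpow n).mpr hx, by simpa using hxW⟩
  have hI : ∀ z, Btw dF p z q → z ∈ Ax R ρ := fun z hz => S.ax_conv ρ p hp q hq z hz
  refine ⟨p, q, hpW, hp, hqW, hq, ?_, ?_, ?_⟩
  · intro z hz hz2
    have h1 := hmin z ⟨hI z hz2, hz⟩ q ⟨hq, hqW⟩
    apply T.eq
    unfold Btw at hz2
    have := T.comm z p
    omega
  · intro z hz hz2
    have h1 := hmin p ⟨hp, hpW⟩ z ⟨hI z hz2, hz⟩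
    apply T.eq
    unfold Btw at hz2
    omega
  · have h1 := hb p hp hpW (ρ ^ (-n) * q) ((ax_zpow (-n)).mpr hq) hqW
    have h3 := S.ax_dist_zpow ((ax_zpow (-n)).mpr hq) n
    have e : ρ ^ n * (ρ ^ (-n) * q) = q := by group
    rw [e] at h3
    have h4 := T.tri (ρ ^ (-n) * q) p q
    have h5 := T.comm (ρ ^ (-n) * q) p
    have h6 : N ≤ n.natAbs * N := by
      have : 1 ≤ n.natAbs := by omega
      nlinarith
    omega

/-- The basic step: the geometry of the path from `W` to `ρ ^ n y`. -/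
theorem step (S : SC R N ξ) (M : Mill R N ξ W H) {ρ : FreeGroup α}
    (hρ : ρ ∈ nextB R W H) {n : ℤ} (hn : n ≠ 0) {y : FreeGroup α}
    (hy : y ∈ W ∨ ∃ σ p' z', σ ≠ ρ ∧ σ ≠ ρ⁻¹ ∧ Shd R N ξ W σ y p' z') :
    ∃ p q m, p ∈ W ∧ p ∈ Ax R ρ ∧ ρ ^ (-n) * q ∈ W ∧ q ∈ Ax R ρ ∧
      (∀ z ∈ W, Btw dF p z q → z = p) ∧ N ≤ dF p q + 2 * ξ ∧
      Btw dF p m q ∧ Btw dF p m (ρ ^ n * y) ∧ Btw dF q m (ρ ^ n * y) ∧ dF m q ≤ ξ ∧
      (m = q ∨ ∃ σ z', Shd R N ξ W σ y (ρ ^ (-n) * q) z' ∧ Btw dF q m (ρ ^ n * z')) := by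
  have T := isTree_dF (α := α)
  obtain ⟨p, q, hpW, hp, hqW, hq, h1, h2, h3⟩ := bridge S M hρ hn
  -- gate property at q
  have hWc : Conv dF {x | ρ ^ (-n) * x ∈ W} := by
    have := conv_mul M.conv (ρ ^ n)
    simpa [← zpow_neg] using this
  have gq : ∀ w, ρ ^ (-n) * w ∈ W → Btw dF p q w := by
    intro w hw
    apply T.symm
    apply gate T hWc (p := q) hqW _ hw
    intro z hz hz2
    exact h2 z hz (T.symm hz2)
  have trivialCase : Btw dF p q (ρ ^ n * y) → 
      ∃ p q m, p ∈ W ∧ p ∈ Ax R ρ ∧ ρ ^ (-n) * q ∈ W ∧ q ∈ Ax R ρ ∧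
      (∀ z ∈ W, Btw dF p z q → z = p) ∧ N ≤ dF p q + 2 * ξ ∧
      Btw dF p m q ∧ Btw dF p m (ρ ^ n * y) ∧ Btw dF q m (ρ ^ n * y) ∧ dF m q ≤ ξ ∧
      (m = q ∨ ∃ σ z', Shd R N ξ W σ y (ρ ^ (-n) * q) z' ∧ Btw dF q m (ρ ^ n * z')) := by
    intro h
    exact ⟨p, q, q, hpW, hp, hqW, hq, h1, h3, T.right _ _, h, T.left _ _,
      by rw [T.self]; omega, Or.inl rfl⟩
  rcases hy with hy | ⟨σ, p', z', hσ1, hσ2, hS⟩
  · apply trivialCase
    apply gq
    simpa using hy
  · obtain ⟨hp'W, hp', hz', hb, hd, hg⟩ := hS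
    -- gate at p'
    have gp' : ∀ w ∈ W, Btw dF w p' y := by
      intro w hw
      have hpz : p' ≠ z' := by
        intro e
        rw [e, T.self] at hd
        have := S.hN
        have := S.hξ
        omega
      have e1 : Btw dF w p' z' := gate T M.conv hp'W hg hw
      exact T.concat_left e1 hb hpz
    by_cases hqp : q = ρ ^ n * p'
    · -- the branching case
      obtain ⟨m, hm1, hm2, hm3⟩ := T.med p (ρ ^ n * y) q
      -- hm1 : p m (ρ^n y), hm2 : (ρ^n y) m q, hm3 : p m q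
      have hqp' : ρ ^ (-n) * q = p' := by rw [hqp]; group
      have hp'A : p' ∈ Ax R ρ := by rw [← hqp']; exact (ax_zpow (-n)).mpr hq
      have hm0A : ρ ^ (-n) * m ∈ Ax R ρ :=
        (ax_zpow (-n)).mpr (S.ax_conv ρ p hp q hq m hm3)
      have hm0 : Btw dF p' (ρ ^ (-n) * m) y := by
        have := btw_mul (g := ρ ^ (-n)) |>.mpr (T.symm hm2)
        rw [hqp'] at this
        have e : ρ ^ (-n) * (ρ ^ n * y) = y := by group
        rw [e] at this
        exact this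
      have hNξ := S.hN
      have hξ := S.hξ
      have hd2 : dF p' (ρ ^ (-n) * m) = dF q m := by
        rw [← hqp', dF_mul]
      have key : Btw dF p' (ρ ^ (-n) * m) z' ∧ dF p' (ρ ^ (-n) * m) ≤ ξ := by
        rcases T.lin' hm0 hb with h5 | h5
        · refine ⟨h5, ?_⟩
          by_contra hlt
          push Not at hlt
          have hmσ : ρ ^ (-n) * m ∈ Ax R σ := S.ax_conv σ p' hp' z' hz' _ h5
          rcases S.ax_piece hp'A hm0A hp' hmσ hlt with h6 | h6
          · exact hσ1 h6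
          · exact hσ2 h6
        · exfalso
          have hz'ρ : z' ∈ Ax R ρ := S.ax_conv ρ p' hp'A _ hm0A _ h5
          rcases S.ax_piece hp'A hz'ρ hp' hz' (by omega) with h6 | h6
          · exact hσ1 h6
          · exact hσ2 h6
      refine ⟨p, q, m, hpW, hp, hqW, hq, h1, h3, hm3, hm1, T.symm hm2, ?_, Or.inr ?_⟩
      · rw [T.comm, ← hd2]; exact key.2
      · refine ⟨σ, z', ?_, ?_⟩
        · rw [hqp']; exact ⟨hp'W, hp', hz', hb, hd, hg⟩
        · have := btw_mul (g := ρ ^ n) |>.mpr key.1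
          rw [← hqp] at this
          have e : ρ ^ n * (ρ ^ (-n) * m) = m := by group
          rw [e] at this
          exact this
    · apply trivialCase
      have e1 : Btw dF p q (ρ ^ n * p') := gq _ (by simpa using hp'W)
      have e2 : Btw dF q (ρ ^ n * p') (ρ ^ n * y) := by
        have := btw_mul (g := ρ ^ n) |>.mpr (gp' _ hqW)
        have e : ρ ^ n * (ρ ^ (-n) * q) = q := by group
        rw [e] at this
        exact this
      -- Btw p q p'' and Btw q p'' y with q ≠ p''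
      exact T.trans_left (T.concat e1 e2 hqp) e1

theorem shadow_of_step (S : SC R N ξ) {ρ y p q m : FreeGroup α} {n : ℤ}
    (hpW : p ∈ W) (hp : p ∈ Ax R ρ) (hq : q ∈ Ax R ρ)
    (h1 : ∀ z ∈ W, Btw dF p z q → z = p) (h3 : N ≤ dF p q + 2 * ξ)
    (h4 : Btw dF p m q) (h5 : Btw dF p m (ρ ^ n * y)) (h6 : dF m q ≤ ξ) :
    Shd R N ξ W ρ (ρ ^ n * y) p m := by
  have T := isTree_dF (α := α)
  refine ⟨hpW, hp, S.ax_conv ρ p hp q hq m h4, h5, ?_, ?_⟩
  · unfold Btw at h4; omega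
  · intro w hw hw2
    exact h1 w hw (T.trans_left h4 hw2)

theorem shadow (S : SC R N ξ) (M : Mill R N ξ W H) {o : Option (FreeGroup α)}
    {g : FreeGroup α} (hg : NF R W H o g) {w : FreeGroup α} (hw : w ∈ W) :
    (o = none ∧ g * w ∈ W) ∨ ∃ ρ, o = some ρ ∧ ∃ p z, Shd R N ξ W ρ (g * w) p z := by
  induction hg with
  | base hg => exact Or.inl ⟨rfl, M.inv _ hg _ hw⟩
  | @step o g ρ n h1 h2 h3 h4 h5 ih =>
    right
    refine ⟨ρ, rfl, ?_⟩
    obtain ⟨p, q, m, a1, a2, a3, a4, a5, a6, a7, a8, a9, a10, a11⟩ :=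
      step S M h1 h2 (y := g * w) (by
        rcases ih with ⟨_, ih⟩ | ⟨σ, rfl, p', z', ih⟩
        · exact Or.inl ih
        · right
          refine ⟨σ, p', z', ?_, ?_, ih⟩
          · rintro rfl; exact h4 rfl
          · rintro rfl; exact h5 rfl)
    refine ⟨p, m, ?_⟩
    rw [mul_assoc]
    exact shadow_of_step S a1 a2 a4 a5 a6 a7 a8 a10

/-- The gate point of a shadow lies between every point of `W` and the shadowed point. -/
theorem shd_btw (S : SC R N ξ) (M : Mill R N ξ W H) {ρ x p z w : FreeGroup α}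
    (h : Shd R N ξ W ρ x p z) (hw : w ∈ W) : Btw dF w p x ∧ Btw dF w z x := by
  have T := isTree_dF (α := α)
  obtain ⟨h1, h2, h3, h4, h5, h6⟩ := h
  have hpz : p ≠ z := by
    intro e
    rw [e, T.self] at h5
    have := S.hN
    have := S.hξ
    omega
  have e1 : Btw dF w p z := gate T M.conv h1 h6 hw
  exact ⟨T.concat_left e1 h4 hpz, T.concat e1 h4 hpz⟩

theorem green_next (S : SC R N ξ) (M : Mill R N ξ W H) {g : FreeGroup α}
    (hg : g ∈ nextH R W H) (hne : g ≠ 1) : ∃ ρ, ∃ p ∈ Ax R ρ, ∃ z ∈ Ax R ρ,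
    Btw dF 1 p g ∧ Btw dF p z g ∧ N ≤ dF p z + 3 * ξ := by
  obtain ⟨o, ho⟩ := M.exists_nf S hg
  rcases shadow S M ho M.one with ⟨rfl, h⟩ | ⟨ρ, rfl, p, z, h⟩
  · cases ho with
    | base hg => exact M.green g hg hne
  · rw [mul_one] at h
    have h1 := shd_btw S M h M.one
    obtain ⟨_, h2, h3, h4, h5, _⟩ := h
    exact ⟨ρ, p, h2, z, h3, h1.1, h4, h5⟩

/-- An axis avoiding all translates of `W`. -/
def Avoid (R : Set (FreeGroup α)) (W : Set (FreeGroup α)) (H : Subgroup (FreeGroup α))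
    (τ : FreeGroup α) : Prop := ∀ u ∈ nextH R W H, ∀ v ∈ Ax R τ, u * v ∉ W

theorem avoid_conj {τ u : FreeGroup α} (hu : u ∈ nextH R W H) (h : Avoid R W H τ) :
    Avoid R W H (u * τ * u⁻¹) := by
  intro v hv x hx hW
  have h1 : u⁻¹ * x ∈ Ax R τ := by
    rw [← ax_conj u, mul_inv_cancel_left]; exact hx
  apply h (v * u) (Subgroup.mul_mem _ hv hu) _ h1
  have : v * u * (u⁻¹ * x) = v * x := by group
  rw [this]; exact hW

theorem small_of_avoid (S : SC R N ξ) {τ ρ x y : FreeGroup α} (hA : Avoid R W H τ)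
    {u v : FreeGroup α} (hu : u ∈ nextH R W H) (hv : v ∈ Ax R ρ) (huv : u * v ∈ W)
    (hx : x ∈ Ax R ρ) (hy : y ∈ Ax R ρ) (hx' : x ∈ Ax R τ) (hy' : y ∈ Ax R τ) :
    dF x y ≤ ξ := by
  by_contra hlt
  push Not at hlt
  rcases S.ax_piece hx hy hx' hy' hlt with h | h
  · exact hA u hu v (h ▸ hv) huv
  · exact hA u hu v (by rw [h, S.ax_inv]; exact hv) huv

theorem small (S : SC R N ξ) (M : Mill R N ξ W H) {o : Option (FreeGroup α)}
    {g : FreeGroup α} (hg : NF R W H o g) : ∀ {τ : FreeGroup α}, Avoid R W H τ →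
    ∀ {w w' x y : FreeGroup α}, w ∈ W → w' ∈ W → x ∈ Ax R τ → y ∈ Ax R τ →
    Btw dF w x (g * w') → Btw dF w y (g * w') → dF x y ≤ 2 * ξ := by
  have T := isTree_dF (α := α)
  have hNξ := S.hN
  have hξ := S.hξ
  induction hg with
  | base hg =>
    intro τ hA w w' x y hw hw' hx hy h1 h2
    exfalso
    apply hA 1 (Subgroup.one_mem _) x hx
    rw [one_mul]
    exact M.conv w hw _ (M.inv _ hg _ hw') x h1
  | @step o g ρ n b1 b2 b3 b4 b5 ih =>
    intro τ hA w w' x y hw hw' hx hy h1 h2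
    obtain ⟨p, q, m, a1, a2, a3, a4, a5, a6, a7, a8, a9, a10, a11⟩ :=
      step S M b1 b2 (y := g * w') (by
        rcases shadow S M b3 hw' with ⟨_, ih⟩ | ⟨σ, rfl, p', z', ih⟩
        · exact Or.inl ih
        · right
          refine ⟨σ, p', z', ?_, ?_, ih⟩
          · rintro rfl; exact b4 rfl
          · rintro rfl; exact b5 rfl)
    rw [mul_assoc] at h1 h2
    set s := ρ ^ n * (g * w') with hs
    have hS := shadow_of_step S a1 a2 a4 a5 a6 a7 a8 a10
    have hgate := shd_btw S M hS hw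
    have hρH : ρ ∈ nextH R W H := nextB_mem_nextH b1
    have hρn : ρ ^ (-n) ∈ nextH R W H := Subgroup.zpow_mem _ hρH _
    -- all points on the axis of τ lie beyond p
    have beyond : ∀ v ∈ Ax R τ, Btw dF w v s → Btw dF p v s := by
      intro v hv hvs
      rcases T.order hvs hgate.1 with ⟨c1, c2⟩ | ⟨c1, c2⟩
      · exfalso
        apply hA 1 (Subgroup.one_mem _) v hv
        rw [one_mul]
        exact M.conv w hw p a1 v c1
      · exact c2
    have hx2 := beyond x hx h1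
    have hy2 := beyond y hy h2
    have mixed : ∀ x y, x ∈ Ax R τ → y ∈ Ax R τ → Btw dF p x m → Btw dF p m y →
        Btw dF p y s → dF x y ≤ 2 * ξ := by
      intro x y hx hy hxm hmy hys
      have hxmy : Btw dF x m y := T.trans_left' hmy hxm
      have hmτ : m ∈ Ax R τ := S.ax_conv τ x hx y hy m hxmy
      have hmρ : m ∈ Ax R ρ := S.ax_conv ρ p a2 q a4 m a7
      have hxρ : x ∈ Ax R ρ := S.ax_conv ρ p a2 m hmρ x hxm
      have hxm' : dF x m ≤ ξ := small_of_avoid S hA (Subgroup.one_mem _) a2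
        (by rw [one_mul]; exact a1) hxρ hmρ hx hmτ
      have hmy' : dF m y ≤ ξ := by
        rcases a11 with rfl | ⟨σ, z', c1, c2⟩
        · exact absurd a3 (hA _ hρn m hmτ)
        · obtain ⟨d1, d2, d3, d4, d5, d6⟩ := c1
          set σ' := ρ ^ n * σ * (ρ ^ n)⁻¹ with hσ'
          have hqσ : q ∈ Ax R σ' := by
            have := (ax_conj (ρ ^ n) σ (ρ ^ (-n) * q)).mpr d2
            have e : ρ ^ n * (ρ ^ (-n) * q) = q := by group
            rwa [e] at this
          have hzσ : ρ ^ n * z' ∈ Ax R σ' := (ax_conj (ρ ^ n) σ z').mpr d3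
          have hmσ : m ∈ Ax R σ' := S.ax_conv σ' q hqσ _ hzσ m c2
          have hzs : Btw dF q (ρ ^ n * z') s := by
            have := btw_mul (g := ρ ^ n) |>.mpr d4
            have e : ρ ^ n * (ρ ^ (-n) * q) = q := by group
            rwa [e] at this
          have hmys : Btw dF m y s := by
            exact T.trans_left' hys hmy
          have hqys : Btw dF q y s := T.trans_right a9 hmys
          have hdz : dF q (ρ ^ n * z') = dF (ρ ^ (-n) * q) z' := by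
            rw [← dF_mul (ρ ^ n) (ρ ^ (-n) * q) z']
            have e : ρ ^ n * (ρ ^ (-n) * q) = q := by group
            rw [e]
          rcases T.lin' hqys hzs with e1 | e1
          · have hyσ : y ∈ Ax R σ' := S.ax_conv σ' q hqσ _ hzσ y e1
            exact small_of_avoid S hA hρn hqσ a3 hmσ hyσ hmτ hy
          · exfalso
            have e2 : Btw dF m (ρ ^ n * z') y := T.trans_left' e1 c2
            have hzτ : ρ ^ n * z' ∈ Ax R τ := S.ax_conv τ m hmτ y hy _ e2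
            have e3 := small_of_avoid S hA hρn hqσ a3 hmσ hzσ hmτ hzτ
            have e4 := T.tri q m (ρ ^ n * z')
            have e5 := T.comm q m
            omega
      unfold Btw at hxmy
      omega
    rcases T.order hx2 a8 with ⟨c1, c2⟩ | ⟨c1, c2⟩ <;>
    rcases T.order hy2 a8 with ⟨d1, d2⟩ | ⟨d1, d2⟩
    · have hmρ : m ∈ Ax R ρ := S.ax_conv ρ p a2 q a4 m a7
      have hxρ : x ∈ Ax R ρ := S.ax_conv ρ p a2 m hmρ x c1
      have hyρ : y ∈ Ax R ρ := S.ax_conv ρ p a2 m hmρ y d1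
      have := small_of_avoid S hA (Subgroup.one_mem _) a2
        (by rw [one_mul]; exact a1) hxρ hyρ hx hy
      omega
    · exact mixed x y hx hy c1 d1 hy2
    · rw [T.comm]
      exact mixed y x hy hx d1 c1 hx2
    · have e1 : Btw dF q x s := T.trans_right a9 c2
      have e2 : Btw dF q y s := T.trans_right a9 d2
      have f1 := btw_mul (g := ρ ^ (-n)) |>.mpr e1
      have f2 := btw_mul (g := ρ ^ (-n)) |>.mpr e2
      have e : ρ ^ (-n) * s = g * w' := by rw [hs]; group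
      rw [e] at f1 f2
      have hA' := avoid_conj hρn hA
      have hx' := (ax_conj (ρ ^ (-n)) τ x).mpr hx
      have hy' := (ax_conj (ρ ^ (-n)) τ y).mpr hy
      have := ih hA' a3 hw' hx' hy' f1 f2
      rwa [dF_mul] at this

theorem nextW_inv {u x : FreeGroup α} (hu : u ∈ nextH R W H) (hx : x ∈ nextW R W H) :
    u * x ∈ nextW R W H := by
  obtain ⟨_, ⟨a, ha, w, hw, rfl⟩, _, ⟨b, hb, w', hw', rfl⟩, h⟩ := hx
  refine ⟨_, ⟨u * a, Subgroup.mul_mem _ hu ha, w, hw, rfl⟩, _,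
    ⟨u * b, Subgroup.mul_mem _ hu hb, w', hw', rfl⟩, ?_⟩
  have := btw_mul (g := u) |>.mpr h
  simpa [mul_assoc] using this

/-- The extension step. -/
theorem next (S : SC R N ξ) (M : Mill R N ξ W H) :
    Mill R N ξ (nextW R W H) (nextH R W H) ∧
      ∀ ρ, (∃ x ∈ Ax R ρ, x ∈ W) → Ax R ρ ⊆ nextW R W H ∧ ρ ∈ nextH R W H := by
  have T := isTree_dF (α := α)
  have absorb : ∀ ρ, (∃ x ∈ Ax R ρ, x ∈ W) → Ax R ρ ⊆ nextW R W H ∧ ρ ∈ nextH R W H := by
    intro ρ hρ
    by_cases h : Ax R ρ ⊆ W ∧ ρ ∈ H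
    · exact ⟨h.1.trans subset_nextW, le_nextH h.2⟩
    · have hB : ρ ∈ nextB R W H := ⟨hρ, h⟩
      have hH := nextB_mem_nextH hB
      refine ⟨?_, hH⟩
      intro y hy
      obtain ⟨x, hx, hxW⟩ := hρ
      obtain ⟨_, ⟨k, rfl⟩, _, ⟨l, rfl⟩, hk⟩ := S.line_of_ax hx hy
      exact ⟨_, ⟨ρ ^ k, Subgroup.zpow_mem _ hH _, x, hxW, rfl⟩, _,
        ⟨ρ ^ l, Subgroup.zpow_mem _ hH _, x, hxW, rfl⟩, hk⟩
  refine ⟨⟨subset_nextW M.one, hull_conv T _, fun h hh w hw => nextW_inv hh hw, ?_,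
    fun g hg hne => M.green_next S hg hne⟩, absorb⟩
  intro ρ
  by_cases hA : Avoid R W H ρ
  · right
    intro x hx hxW y hy hyW
    obtain ⟨_, ⟨a, ha, w, hw, rfl⟩, h1⟩ := hull_out T hxW y
    obtain ⟨_, ⟨b, hb, w', hw', rfl⟩, h2⟩ := hull_out T hyW (a * w)
    -- Btw (a w) x y, Btw (b w') y (a w)
    have h3 : Btw dF (a * w) y (b * w') := T.symm h2
    have h4 : Btw dF (a * w) x (b * w') := T.trans_left h3 h1
    have f1 := btw_mul (g := a⁻¹) |>.mpr h4
    have f2 := btw_mul (g := a⁻¹) |>.mpr h3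
    rw [inv_mul_cancel_left, ← mul_assoc] at f1 f2
    have ha' := Subgroup.inv_mem _ ha
    obtain ⟨o, ho⟩ := M.exists_nf S (Subgroup.mul_mem _ ha' hb)
    have := small S M ho (avoid_conj ha' hA) hw hw' ((ax_conj a⁻¹ ρ x).mpr hx)
      ((ax_conj a⁻¹ ρ y).mpr hy) f1 f2
    rwa [dF_mul] at this
  · left
    unfold Avoid at hA
    push Not at hA
    obtain ⟨u, hu, v, hv, huv⟩ := hA
    have h1 := absorb (u * ρ * u⁻¹) ⟨u * v, (ax_conj u ρ v).mpr hv, huv⟩
    constructor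
    · intro x hx
      have h2 := h1.1 ((ax_conj u ρ x).mpr hx)
      have h3 := nextW_inv (Subgroup.inv_mem _ hu) h2
      rwa [inv_mul_cancel_left] at h3
    · have := Subgroup.mul_mem _ (Subgroup.mul_mem _ (Subgroup.inv_mem _ hu) h1.2) hu
      have e : u⁻¹ * (u * ρ * u⁻¹) * u = ρ := by group
      rwa [e] at this

end Mill

end Pool.Agent.Helper87.Ray
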