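import Pool.Agent.Helper87.Ray.Thin

/-!
# Thin bigons and triangles
-/

namespace Pool.Agent.Helper87.Ray

open FreeGroup

variable {α : Type*} [DecidableEq α]

variable {R : Set (FreeGroup α)} {N ξ : ℕ}

theorem bigon (S : SC R N ξ) : ∀ (n : ℕ) {x y y' z' z : FreeGroup α}, dF x y + dF y' z' ≤ n →
    Geo R x y → dF y y' ≤ 6 * ξ → Geo R y' z' → dF z' z ≤ 6 * ξ → x⁻¹ * z ∈ NC R →
    ∀ v, Btw dF x v y → Nr R (2 * N) v y' z' := by
  have T := isTree_dF (α := α)
  have hN := S.hN
  have hξ := S.hξ
  intro n
  induction n with
  | zero =>
    intro x y y' z' z hn _ h1 _ _ _ v hv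
    have h2 : dF v y' ≤ 6 * ξ := by
      have := T.tri v y y'
      unfold Btw at hv
      omega
    exact (Nr.of_left (a := y') (b := z')).mono (by omega)
  | succ n ih =>
    intro x y y' z' z hn g1 h1 g2 h2 hxz v hv
    -- points on the return path
    have along : ∀ s, Btw dF y s z → Nr R (6 * ξ) s y' z' := by
      intro s hs
      rcases T.cover hs y' with h3 | h3
      · apply (Nr.of_left (a := y') (b := z')).mono
        unfold Btw at h3
        omega
      · rcases T.cover h3 z' with h4 | h4
        · exact (Nr.of_btw h4).mono (by omega)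
        · apply (Nr.of_right (a := y') (b := z')).mono
          unfold Btw at h4
          have := T.comm s z'
          omega
    by_cases hne : x = z
    · subst hne
      exact (along v (T.symm hv)).mono (by omega)
    · obtain ⟨ρ, hρ, p, q, hp, hq, hp1, hq1, hpq, hqp⟩ := cell S hxz hne
      have hρ' := (NC R).inv_mem hρ
      have Ac := S.ax_conv ρ
      have o1 : Ov (Ax R ρ) (N / 2) x y := ov_geo S g1
      have o2 : Ov (Ax R ρ) (6 * ξ) y y' := (Ov.dist y y').mono h1
      have o3 : Ov (Ax R ρ) (N / 2) y' z' := ov_geo S g2
      have o4 : Ov (Ax R ρ) (6 * ξ) z' z := (Ov.dist z' z).mono h2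
      have hxz' : x⁻¹ * (ρ⁻¹ * z) ∈ NC R := by
        have h3 := (Subgroup.normalClosure_normal (s := R)).conj_mem _ hρ' x⁻¹
        have e : x⁻¹ * (ρ⁻¹ * z) = x⁻¹ * ρ⁻¹ * x⁻¹⁻¹ * (x⁻¹ * z) := by group
        rw [e]
        exact (NC R).mul_mem h3 hxz
      rcases T.cover hp1 y with hpy | hpy
      swap
      · exfalso
        have o := (((Ov.add Ac (Ov.add Ac o2 o3) o4).right hpy).left hq1).self hp hq
        omega
      rcases T.cover hq1 y' with hqy | hqy
      · exfalso
        have o := ((Ov.add Ac (o1.right hpy) o2).left hqy).self hp hq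
        omega
      have hqyz : Nr R (6 * ξ) q y' z' := by
        rcases T.cover hqy z' with h4 | h4
        · exact (Nr.of_btw h4).mono (by omega)
        · apply (Nr.of_right (a := y') (b := z')).mono
          unfold Btw at h4
          have := T.comm q z'
          omega
      rcases T.order hv hpy with ⟨hv1, hv2⟩ | ⟨hv1, hv2⟩
      · -- v between x and p
        rcases T.cover hqy z' with h4 | h4
        · have h5 : dF (ρ⁻¹ * q) (ρ⁻¹ * z') = dF q z' := dF_mul _ _ _
          have h6 : dF (ρ⁻¹ * z') (ρ⁻¹ * z) = dF z' z := dF_mul _ _ _
          have h7 := T.tri p y q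
          have h8 := T.tri y y' q
          have := ih (x := x) (y := p) (y' := ρ⁻¹ * q) (z' := ρ⁻¹ * z') (z := ρ⁻¹ * z)
            (by unfold Btw at hpy h4; omega) (g1.left hpy) (by omega)
            ((g2.right h4).mul _) (by omega) hxz' v hv1
          exact (this.of_mul hρ').right h4
        · have h5 := T.tri p (ρ⁻¹ * q) (ρ⁻¹ * z)
          have h6 : dF (ρ⁻¹ * q) (ρ⁻¹ * z) = dF q z := dF_mul _ _ _
          have h7 : dF p (ρ⁻¹ * z) ≤ 9 * ξ := by
            unfold Btw at h4; omega
          have h8 := mono_gon S (g1.left hpy) h7 hxz'
          have h9 : Cl R (9 * ξ) v p := by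
            apply Cl.of_dist.mono
            rw [← h8] at h7
            have := T.comm p x
            unfold Btw at hv1
            omega
          have h10 : Cl R (3 * ξ) p q := (Cl.of_mem hρ').mono hqp.le
          exact (Nr.cl (h9.trans h10) hqyz).mono (by omega)
      · -- v between p and y
        rcases T.cover hv2 q with h4 | h4
        · have h5 : Cl R N v q := by
            apply Cl.of_dist.mono
            unfold Btw at h4; omega
          exact (Nr.cl h5 hqyz).mono (by omega)
        · -- v between q and y
          rcases T.cover h4 y' with h5 | h5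
          · rcases T.cover hqy z' with h6 | h6
            · exact (Nr.of_btw (T.trans_left h6 (T.symm h5))).mono (by omega)
            · rcases T.cover h5 z' with h7 | h7
              · apply (Nr.of_right (a := y') (b := z')).mono
                unfold Btw at h6 h7
                have := T.comm q z'
                omega
              · exact (Nr.of_btw (T.symm h7)).mono (by omega)
          · apply (Nr.of_left (a := y') (b := z')).mono
            unfold Btw at h5
            have := T.comm v y'
            have := T.comm y y'
            omega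

theorem triangle (S : SC R N ξ) : ∀ (n : ℕ) {x y y' z z' w w' : FreeGroup α},
    dF x y + dF y' z + dF z' w ≤ n →
    Geo R x y → dF y y' ≤ 3 * ξ → Geo R y' z → dF z z' ≤ 3 * ξ → Geo R z' w →
    dF w w' ≤ 3 * ξ → x⁻¹ * w' ∈ NC R →
    ∀ v, Btw dF x v y → Nr R (2 * N) v y' z ∨ Nr R (2 * N) v z' w := by
  have T := isTree_dF (α := α)
  have hN := S.hN
  have hξ := S.hξ
  intro n
  induction n with
  | zero =>
    intro x y y' z z' w w' hn _ h1 _ _ _ _ _ v hv
    left
    apply (Nr.of_left (a := y') (b := z)).mono
    have := T.tri v y y'
    unfold Btw at hv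
    omega
  | succ n ih =>
    intro x y y' z z' w w' hn g1 h1 g2 h2 g3 h3 hxw v hv
    -- points on the return path
    have along' : ∀ s, Btw dF y' s w' → Nr R (3 * ξ) s y' z ∨ Nr R (3 * ξ) s z' w := by
      intro s hs
      rcases T.cover hs z with h4 | h4
      · left
        exact (Nr.of_btw h4).mono (by omega)
      rcases T.cover h4 z' with h5 | h5
      · left
        apply (Nr.of_right (a := y') (b := z)).mono
        have := T.comm s z
        unfold Btw at h5
        omega
      rcases T.cover h5 w with h6 | h6
      · right
        exact (Nr.of_btw h6).mono (by omega)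
      · right
        apply (Nr.of_right (a := z') (b := w)).mono
        have := T.comm s w
        unfold Btw at h6
        omega
    have along : ∀ s, Btw dF y s w' → Nr R (3 * ξ) s y' z ∨ Nr R (3 * ξ) s z' w := by
      intro s hs
      rcases T.cover hs y' with h4 | h4
      · left
        apply (Nr.of_left (a := y') (b := z)).mono
        unfold Btw at h4
        omega
      · exact along' s h4
    have conv' : ∀ {s : FreeGroup α} {c : ℕ}, c ≤ 2 * N →
        (Nr R c s y' z ∨ Nr R c s z' w) → Nr R (2 * N) s y' z ∨ Nr R (2 * N) s z' w := by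
      intro s c hc h
      rcases h with h | h
      · exact Or.inl (h.mono hc)
      · exact Or.inr (h.mono hc)
    have cl' : ∀ {s t : FreeGroup α} {c c' : ℕ}, Cl R c s t → c + c' ≤ 2 * N →
        (Nr R c' t y' z ∨ Nr R c' t z' w) → Nr R (2 * N) s y' z ∨ Nr R (2 * N) s z' w := by
      intro s t c c' hc hcc h
      rcases h with h | h
      · exact Or.inl ((Nr.cl hc h).mono hcc)
      · exact Or.inr ((Nr.cl hc h).mono hcc)
    by_cases hne : x = w'
    · subst hne
      exact conv' (by omega) (along v (T.symm hv))
    obtain ⟨ρ, hρ, p, q, hp, hq, hp1, hq1, hpq, hqp⟩ := cell S hxw hne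
    have hρ' := (NC R).inv_mem hρ
    have Ac := S.ax_conv ρ
    have o1 : Ov (Ax R ρ) (N / 2) x y := ov_geo S g1
    have o2 : Ov (Ax R ρ) (3 * ξ) y y' := (Ov.dist y y').mono h1
    have o3 : Ov (Ax R ρ) (N / 2) y' z := ov_geo S g2
    have o4 : Ov (Ax R ρ) (3 * ξ) z z' := (Ov.dist z z').mono h2
    have o5 : Ov (Ax R ρ) (N / 2) z' w := ov_geo S g3
    have o6 : Ov (Ax R ρ) (3 * ξ) w w' := (Ov.dist w w').mono h3
    have hxw' : x⁻¹ * (ρ⁻¹ * w') ∈ NC R := by
      have h3 := (Subgroup.normalClosure_normal (s := R)).conj_mem _ hρ' x⁻¹
      have e : x⁻¹ * (ρ⁻¹ * w') = x⁻¹ * ρ⁻¹ * x⁻¹⁻¹ * (x⁻¹ * w') := by group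
      rw [e]
      exact (NC R).mul_mem h3 hxw
    have hpqcl : Cl R (3 * ξ) p q := (Cl.of_mem hρ').mono hqp.le
    have m1 : ∀ a b, dF (ρ⁻¹ * a) (ρ⁻¹ * b) = dF a b := fun a b => dF_mul _ _ _
    have m2 : ∀ a, dF p (ρ⁻¹ * a) ≤ 3 * ξ + dF q a := by
      intro a
      have := T.tri p (ρ⁻¹ * q) (ρ⁻¹ * a)
      rw [m1] at this
      omega
    rcases T.cover hp1 y with hpy | hpy
    · -- p on the first side
      have hqy : Btw dF y' q w' := by
        rcases T.cover hq1 y' with h4 | h4
        · exfalso
          have o := ((Ov.add Ac (o1.right hpy) o2).left h4).self hp hq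
          omega
        · exact h4
      have hqN := along' q hqy
      rcases T.order hv hpy with ⟨hv1, hv2⟩ | ⟨hv1, hv2⟩
      · -- v between x and p
        rcases T.cover hqy z with h4 | h4
        · -- q on the second side
          have h7 := T.tri p y q
          have h8 := T.tri y y' q
          have := ih (x := x) (y := p) (y' := ρ⁻¹ * q) (z := ρ⁻¹ * z) (z' := ρ⁻¹ * z')
            (w := ρ⁻¹ * w) (w' := ρ⁻¹ * w')
            (by rw [m1, m1]; unfold Btw at hpy h4; omega) (g1.left hpy) (by omega)
            ((g2.right h4).mul _) (by rw [m1]; omega) (g3.mul _) (by rw [m1]; omega) hxw' v hv1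
          rcases this with h9 | h9
          · exact Or.inl ((h9.of_mul hρ').right h4)
          · exact Or.inr (h9.of_mul hρ')
        rcases T.cover h4 z' with h5 | h5
        · -- q on the second connector
          right
          have := m2 z'
          have := bigon S _ (x := x) (y := p) (y' := ρ⁻¹ * z') (z' := ρ⁻¹ * w)
            (z := ρ⁻¹ * w') le_rfl (g1.left hpy) (by unfold Btw at h5; omega) (g3.mul _)
            (by rw [m1]; omega) hxw' v hv1
          exact this.of_mul hρ'
        rcases T.cover h5 w with h6 | h6
        · -- q on the third side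
          right
          have := bigon S _ (x := x) (y := p) (y' := ρ⁻¹ * q) (z' := ρ⁻¹ * w)
            (z := ρ⁻¹ * w') le_rfl (g1.left hpy) (by omega) ((g3.right h6).mul _)
            (by rw [m1]; omega) hxw' v hv1
          exact (this.of_mul hρ').right h6
        · -- q on the third connector
          have h7 := m2 w'
          have h7' : dF p (ρ⁻¹ * w') ≤ 9 * ξ := by unfold Btw at h6; omega
          have h8 := mono_gon S (g1.left hpy) h7' hxw'
          have h9 : Cl R (9 * ξ) v p := by
            apply Cl.of_dist.mono
            rw [← h8] at h7'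
            have := T.comm p x
            unfold Btw at hv1
            omega
          exact cl' (h9.trans hpqcl) (by omega) hqN
      · -- v between p and y
        rcases T.cover hv2 q with h4 | h4
        · have h5 : Cl R N v q := by
            apply Cl.of_dist.mono
            unfold Btw at h4; omega
          exact cl' h5 (by omega) hqN
        · -- v between q and y
          rcases T.cover h4 y' with h5 | h5
          · exact conv' (by omega) (along' v (T.trans_left hqy (T.symm h5)))
          · left
            apply (Nr.of_left (a := y') (b := z)).mono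
            unfold Btw at h5
            have := T.comm v y'
            have := T.comm y y'
            omega
    rcases T.cover hpy y' with hpy' | hpy'
    · -- p on the first connector
      rcases T.cover hq1 z' with h4 | h4
      · exfalso
        have o := ((Ov.add Ac (Ov.add Ac (o2.right hpy') o3) o4).left h4).self hp hq
        omega
      rcases T.cover h4 w with h5 | h5
      · right
        have h6 := T.tri y p (ρ⁻¹ * q)
        have := bigon S _ (x := x) (y := y) (y' := ρ⁻¹ * q) (z' := ρ⁻¹ * w)
            (z := ρ⁻¹ * w') le_rfl g1 (by unfold Btw at hpy'; omega) ((g3.right h5).mul _)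
            (by rw [m1]; omega) hxw' v hv
        exact (this.of_mul hρ').right h5
      · have h6 := T.tri y p (ρ⁻¹ * w')
        have h7 := m2 w'
        have h7' : dF y (ρ⁻¹ * w') ≤ 9 * ξ := by unfold Btw at h5 hpy'; omega
        have h8 := mono_gon S g1 h7' hxw'
        left
        apply (Nr.of_left (a := y') (b := z)).mono
        rw [← h8] at h7'
        have := T.comm y x
        have := T.tri v y y'
        unfold Btw at hv
        omega
    rcases T.cover hpy' z with hpz | hpz
    · -- p on the second side
      rcases T.cover hq1 z' with h4 | h4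
      · exfalso
        have o := ((Ov.add Ac (o3.right hpz) o4).left h4).self hp hq
        omega
      rcases T.cover h4 w with h5 | h5
      · have h7 := T.tri p z q
        have h8 := T.tri z z' q
        have := ih (x := x) (y := y) (y' := y') (z := p) (z' := ρ⁻¹ * q)
            (w := ρ⁻¹ * w) (w' := ρ⁻¹ * w')
            (by rw [m1]; unfold Btw at hpz h5; omega) g1 h1 (g2.left hpz) (by omega)
            ((g3.right h5).mul _) (by rw [m1]; omega) hxw' v hv
        rcases this with h9 | h9
        · exact Or.inl (h9.left hpz)
        · exact Or.inr ((h9.of_mul hρ').right h5)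
      · left
        have := m2 w'
        have := bigon S _ (x := x) (y := y) (y' := y') (z' := p)
            (z := ρ⁻¹ * w') le_rfl g1 (by omega) (g2.left hpz)
            (by unfold Btw at h5; omega) hxw' v hv
        exact this.left hpz
    · exfalso
      have o := (((Ov.add Ac (Ov.add Ac o4 o5) o6).right hpz).left hq1).self hp hq
      omega

end Pool.Agent.Helper87.Ray
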