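import Pool.Agent.Helper87.Ray.Defs
import Pool.Agent.Helper87.Ray.Poly

/-!
# Word metrics on quotients of free groups
-/

namespace Pool.Agent.Helper87.Ray

open FreeGroup hiding map_mul map_inv map_one

variable {α : Type*} [DecidableEq α] {G : Type*} [Group G]

/-- The generating set of a quotient of the free group. -/
def gens (f : FreeGroup α →* G) : Set G := Set.range fun a => f (of a)

theorem closure_gens {f : FreeGroup α →* G} (hf : Function.Surjective f) :
    Subgroup.closure (gens f) = ⊤ := by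
  have h : gens f = f '' (Set.range of) := by
    unfold gens
    rw [← Set.range_comp]; rfl
  rw [h, ← MonoidHom.map_closure, FreeGroup.closure_range_of, ← MonoidHom.range_eq_map]
  exact MonoidHom.range_eq_top.mpr hf

theorem wordLength_le (f : FreeGroup α →* G) (u : FreeGroup α) :
    wordLength (gens f) (f u) ≤ u.norm := by
  apply Nat.sInf_le
  refine ⟨u.toWord.map fun x => cond x.2 (f (of x.1)) (f (of x.1))⁻¹, ?_, ?_, ?_⟩
  · simp [FreeGroup.norm]
  · intro x hx
    simp only [List.mem_map] at hx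
    obtain ⟨⟨a, b⟩, _, rfl⟩ := hx
    cases b
    · right; exact ⟨a, by simp⟩
    · left; exact ⟨a, by simp⟩
  · have h : f = FreeGroup.lift (fun a => f (of a)) := by
      ext a; simp
    conv_rhs => rw [← mk_toWord (x := u), h]
    rw [FreeGroup.lift_mk]

theorem exists_norm_eq {f : FreeGroup α →* G} (hf : Function.Surjective f) (g : G) :
    ∃ u, f u = g ∧ u.norm ≤ wordLength (gens f) g := by
  have hne : {n | ∃ l : List G, l.length = n ∧ (∀ x ∈ l, x ∈ gens f ∨ x⁻¹ ∈ gens f) ∧
      l.prod = g}.Nonempty := by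
    obtain ⟨u, rfl⟩ := hf g
    refine ⟨_, u.toWord.map fun x => cond x.2 (f (of x.1)) (f (of x.1))⁻¹, rfl, ?_, ?_⟩
    · intro x hx
      simp only [List.mem_map] at hx
      obtain ⟨⟨a, b⟩, _, rfl⟩ := hx
      cases b
      · right; exact ⟨a, by simp⟩
      · left; exact ⟨a, by simp⟩
    · have h : f = FreeGroup.lift (fun a => f (of a)) := by
        ext a; simp
      conv_rhs => rw [← mk_toWord (x := u), h]
      rw [FreeGroup.lift_mk]
  obtain ⟨l, h1, h2, h3⟩ := Nat.sInf_mem hne
  have key : ∀ l : List G, (∀ x ∈ l, x ∈ gens f ∨ x⁻¹ ∈ gens f) →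
      ∃ u : FreeGroup α, f u = l.prod ∧ u.norm ≤ l.length := by
    intro l
    induction l with
    | nil => intro _; exact ⟨1, by simp, by simp⟩
    | cons x l ih =>
      intro hx
      obtain ⟨u, hu, hn⟩ := ih fun y hy => hx y (List.mem_cons_of_mem _ hy)
      rcases hx x List.mem_cons_self with ⟨a, ha⟩ | ⟨a, ha⟩
      · refine ⟨of a * u, ?_, ?_⟩
        · rw [map_mul, hu, List.prod_cons]; exact congrArg (· * l.prod) ha
        · have := norm_mul_le (of a) u
          rw [norm_of] at this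
          simp only [List.length_cons]; omega
      · refine ⟨(of a)⁻¹ * u, ?_, ?_⟩
        · simp only at ha
          rw [map_mul, hu, List.prod_cons, map_inv, ha, inv_inv]
        · have := norm_mul_le (of a)⁻¹ u
          rw [norm_inv_eq, norm_of] at this
          simp only [List.length_cons]; omega
  obtain ⟨u, hu, hn⟩ := key l h2
  refine ⟨u, by rw [hu, h3], ?_⟩
  rw [h1] at hn
  exact hn

/-- The distance in the quotient. -/
noncomputable def dQ (f : FreeGroup α →* G) (x y : FreeGroup α) : ℕ := wordDist (gens f) (f x) (f y)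

theorem dQ_eq (f : FreeGroup α →* G) (x y : FreeGroup α) :
    dQ f x y = wordLength (gens f) (f (x⁻¹ * y)) := by
  unfold dQ wordDist
  rw [map_mul, map_inv]

theorem dQ_le (f : FreeGroup α →* G) (x y : FreeGroup α) : dQ f x y ≤ dF x y := by
  rw [dQ_eq]; exact wordLength_le f _

theorem exists_dQ {f : FreeGroup α →* G} (hf : Function.Surjective f) (x : FreeGroup α) (g : G) :
    ∃ y, f y = g ∧ dF x y = dQ f x y := by
  obtain ⟨u, hu, hn⟩ := exists_norm_eq hf ((f x)⁻¹ * g)
  refine ⟨x * u, by rw [map_mul, hu]; group, ?_⟩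
  apply le_antisymm _ (dQ_le _ _ _)
  rw [dQ_eq, inv_mul_cancel_left]
  unfold dF
  rw [inv_mul_cancel_left, hu]; exact hn

theorem dQ_congr (f : FreeGroup α →* G) {x x' y y' : FreeGroup α} (h : f x = f x')
    (h' : f y = f y') : dQ f x y = dQ f x' y' := by
  unfold dQ; rw [h, h']

theorem dQ_tri {f : FreeGroup α →* G} (hf : Function.Surjective f) (x y z : FreeGroup α) :
    dQ f x z ≤ dQ f x y + dQ f y z := by
  obtain ⟨y', h1, h2⟩ := exists_dQ hf x (f y)
  obtain ⟨z', h3, h4⟩ := exists_dQ hf y' (f z)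
  rw [← dQ_congr f rfl h1, ← dQ_congr f h1 h3, ← dQ_congr f (x := x) rfl h3, ← h2, ← h4]
  exact (dQ_le _ _ _).trans (isTree_dF.tri _ _ _)

theorem dQ_comm (f : FreeGroup α →* G) (x y : FreeGroup α) : dQ f x y = dQ f y x :=
  wordDist_comm _ _ _

theorem dQ_self (f : FreeGroup α →* G) (x : FreeGroup α) : dQ f x x = 0 := by
  have := dQ_le f x x
  rw [dF_self] at this
  omega

section

variable {R : Set (FreeGroup α)} {N ξ : ℕ} {f : FreeGroup α →* G}

theorem geo_of_dQ (hk : f.ker = NC R) {x y : FreeGroup α} (h : dF x y = dQ f x y) : Geo R x y := by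
  intro n hn
  have h1 : f n = 1 := by rw [← hk] at hn; exact hn
  have h2 : f (n * y) = f y := by rw [map_mul, h1, one_mul]
  rw [h, dQ_congr f (x := x) rfl h2.symm]
  exact dQ_le _ _ _

theorem dQ_of_geo (hk : f.ker = NC R) (hf : Function.Surjective f) {x y : FreeGroup α}
    (h : Geo R x y) : dF x y = dQ f x y := by
  obtain ⟨y', h1, h2⟩ := exists_dQ hf x (f y)
  apply le_antisymm _ (dQ_le _ _ _)
  have h3 : y' * y⁻¹ ∈ NC R := by
    rw [← hk, MonoidHom.mem_ker, map_mul, map_inv, h1, mul_inv_cancel]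
  have h4 := h _ h3
  rw [inv_mul_cancel_right, h2, dQ_congr f (x := x) rfl h1] at h4
  exact h4

theorem dQ_of_cl (hk : f.ker = NC R) {δ : ℕ} {x y : FreeGroup α} (h : Cl R δ x y) :
    dQ f x y ≤ δ := by
  obtain ⟨n, hn, h⟩ := h
  have h1 : f n = 1 := by rw [← hk] at hn; exact hn
  have h2 : f (n * y) = f y := by rw [map_mul, h1, one_mul]
  rw [← dQ_congr f (x := x) rfl h2]
  exact (dQ_le _ _ _).trans h

theorem dQ_btw (hk : f.ker = NC R) (hf : Function.Surjective f) {x s y : FreeGroup α}
    (h : Geo R x y) (hs : Btw dF x s y) : dQ f x s + dQ f s y = dQ f x y := by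
  rw [← dQ_of_geo hk hf h, ← dQ_of_geo hk hf (h.left hs), ← dQ_of_geo hk hf (h.right hs)]
  exact hs

/-- A point near a side. -/
theorem dQ_near (hk : f.ker = NC R) (hf : Function.Surjective f) {δ : ℕ} {v a b : FreeGroup α}
    (h : Geo R a b) (hv : Nr R δ v a b) : dQ f a v + dQ f v b ≤ dQ f a b + 2 * δ := by
  obtain ⟨s, hs, hc⟩ := hv
  have h1 := dQ_btw hk hf h hs
  have h2 := dQ_of_cl hk hc
  have h3 := dQ_tri hf a s v
  have h4 := dQ_tri hf v s b
  have h5 := dQ_comm f v s
  omega

/-- The point of `[x, z]` closest to `w`. -/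
theorem exists_center (S : SC R N ξ) (hk : f.ker = NC R) (hf : Function.Surjective f)
    {x z : FreeGroup α} (hg : Geo R x z) (w : FreeGroup α) :
    ∃ v, Btw dF x v z ∧ 2 * dQ f w v + dQ f x z ≤ dQ f w x + dQ f w z + (8 * N + 2) := by
  have T := isTree_dF (α := α)
  obtain ⟨w', h1, h2⟩ := exists_dQ hf z (f w)
  obtain ⟨x', h3, h4⟩ := exists_dQ hf w' (f x)
  have g2 := geo_of_dQ hk h2
  have g3 := geo_of_dQ hk h4
  have hxx : x⁻¹ * x' ∈ NC R := by
    rw [← hk, MonoidHom.mem_ker, map_mul, map_inv, h3, inv_mul_cancel]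
  have tri := triangle S _ le_rfl hg (by rw [T.self]; omega) g2 (by rw [T.self]; omega) g3
    (by rw [T.self]; omega) hxx
  -- a point near both sides
  have key : ∃ v, Btw dF x v z ∧ Nr R (2 * N) v w' x' ∧ Nr R (2 * N + 1) v z w' := by
    classical
    by_contra hcon
    push Not at hcon
    have : ∀ k v, Btw dF x v z → dF x v = k → Nr R (2 * N) v w' x' := by
      intro k
      induction k with
      | zero =>
        intro v hv hk0
        have hvx : x = v := T.eq _ _ hk0
        refine ⟨x', T.right _ _, ?_⟩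
        have e : x * x'⁻¹ * x' = v := by rw [inv_mul_cancel_right]; exact hvx
        refine ⟨x * x'⁻¹, ?_, ?_⟩
        · rw [← hk, MonoidHom.mem_ker, map_mul, map_inv, h3, mul_inv_cancel]
        · rw [e, T.self]; omega
      | succ k ih =>
        intro v hv hvk
        obtain ⟨u, hu1, hu2⟩ := T.geod x v k (by omega)
        have hu : Btw dF x u z := T.trans_left hv hu1
        have h5 := ih u hu hu2
        rcases tri v hv with h6 | h6
        · exfalso
          apply hcon u hu h5
          have : Cl R 1 u v := by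
            apply Cl.of_dist.mono
            unfold Btw at hu1
            omega
          exact (Nr.cl this h6).mono (by omega)
        · exact h6
    apply hcon z (T.right _ _) (this _ z (T.right _ _) rfl)
    exact (Nr.of_btw (T.left _ _)).mono (by omega)
  obtain ⟨v, hv, n1, n2⟩ := key
  refine ⟨v, hv, ?_⟩
  have e1 := dQ_near hk hf g3 n1
  have e2 := dQ_near hk hf g2 n2
  have e3 := dQ_btw hk hf hg hv
  rw [dQ_congr f (x := w') (x' := w) (y := v) (y' := v) h1 rfl,
    dQ_congr f (x := v) (x' := v) rfl h3, dQ_congr f h1 h3] at e1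
  rw [dQ_congr f (x := v) (x' := v) rfl h1, dQ_congr f (x := z) (x' := z) rfl h1] at e2
  have c1 := dQ_comm f v w
  have c2 := dQ_comm f z w
  have c3 := dQ_comm f v x
  have c4 := dQ_comm f z v
  omega

theorem four_point (S : SC R N ξ) (hk : f.ker = NC R) (hf : Function.Surjective f)
    (w x y z : FreeGroup α) :
    min ((dQ f w x : ℤ) + dQ f w y - dQ f x y) ((dQ f w y : ℤ) + dQ f w z - dQ f y z) ≤
      (dQ f w x : ℤ) + dQ f w z - dQ f x z + (12 * N + 2) := by
  have T := isTree_dF (α := α)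
  obtain ⟨z', h1, h2⟩ := exists_dQ hf x (f z)
  have hg := geo_of_dQ hk h2
  rw [← dQ_congr f (x := w) rfl h1, ← dQ_congr f (x := y) rfl h1, ← dQ_congr f (x := x) rfl h1]
  obtain ⟨v, hv, hc⟩ := exists_center S hk hf hg w
  obtain ⟨y', h3, h4⟩ := exists_dQ hf z' (f y)
  obtain ⟨x', h5, h6⟩ := exists_dQ hf y' (f x)
  have g2 := geo_of_dQ hk h4
  have g3 := geo_of_dQ hk h6
  have hxx : x⁻¹ * x' ∈ NC R := by
    rw [← hk, MonoidHom.mem_ker, map_mul, map_inv, h5, inv_mul_cancel]
  have tri := triangle S _ le_rfl hg (by rw [T.self]; omega) g2 (by rw [T.self]; omega) g3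
    (by rw [T.self]; omega) hxx v hv
  rw [min_le_iff]
  rcases tri with n1 | n1
  · right
    obtain ⟨s, hs, hcl⟩ := n1
    have e1 := dQ_btw hk hf g2 hs
    have e2 := dQ_of_cl hk hcl
    have e3 := dQ_tri hf w v s
    have e4 := dQ_tri hf w s y'
    have e5 := dQ_tri hf w s z'
    have c1 := dQ_comm f s z'
    rw [dQ_congr f (x := w) (x' := w) rfl h3] at e4
    rw [dQ_congr f (x := z') (x' := z') rfl h3] at e1
    have c2 := dQ_comm f z' y
    have c3 := dQ_congr f (x := s) (x' := s) rfl h3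
    omega
  · left
    obtain ⟨s, hs, hcl⟩ := n1
    have e1 := dQ_btw hk hf g3 hs
    have e2 := dQ_of_cl hk hcl
    have e3 := dQ_tri hf w v s
    have e4 := dQ_tri hf w s y'
    have e5 := dQ_tri hf w s x'
    have c1 := dQ_comm f s y'
    rw [dQ_congr f (x := w) (x' := w) rfl h3] at e4
    rw [dQ_congr f (x := w) (x' := w) rfl h5] at e5
    rw [dQ_congr f h3 h5] at e1
    have c2 := dQ_comm f y x
    have c3 := dQ_congr f (y := s) (y' := s) h3 rfl
    have c4 := dQ_congr f (x := s) (x' := s) rfl h5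
    omega

theorem isHyperbolic_quotient (S : SC R N ξ) (hk : f.ker = NC R) (hf : Function.Surjective f) :
    IsHyperbolic (gens f) := by
  refine ⟨6 * N + 1, ?_⟩
  intro w x y z
  obtain ⟨w, rfl⟩ := hf w
  obtain ⟨x, rfl⟩ := hf x
  obtain ⟨y, rfl⟩ := hf y
  obtain ⟨z, rfl⟩ := hf z
  have h := four_point S hk hf w x y z
  unfold gromovProd
  change min (((dQ f w x : ℝ) + dQ f w y - dQ f x y) / 2)
    (((dQ f w y : ℝ) + dQ f w z - dQ f y z) / 2) - (6 * N + 1) ≤
      ((dQ f w x : ℝ) + dQ f w z - dQ f x z) / 2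
  rw [min_le_iff] at h
  have h' : ((dQ f w x : ℝ) + dQ f w y - dQ f x y ≤
      (dQ f w x : ℝ) + dQ f w z - dQ f x z + (12 * N + 2)) ∨
      ((dQ f w y : ℝ) + dQ f w z - dQ f y z ≤
      (dQ f w x : ℝ) + dQ f w z - dQ f x z + (12 * N + 2)) := by
    exact_mod_cast h
  rw [sub_le_iff_le_add, min_le_iff]
  rcases h' with h' | h'
  · left; linarith
  · right; linarith

end

end Pool.Agent.Helper87.Ray
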