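import Pool.Agent.Helper87.Ray.Rel
import Pool.Agent.Helper87.Ray.Word

/-!
# Words with small overlaps are geodesic
-/

namespace Pool.Agent.Helper87.Ray

open FreeGroup

section

variable {α : Type*} [DecidableEq α]

variable {R : Set (FreeGroup α)} {N ξ : ℕ}

theorem geo_of_ov (S : SC R N ξ) {s : ℕ} (hs : s + N / 2 + 3 * ξ < N) {x y : FreeGroup α}
    (h : ∀ ρ, Ov (Ax R ρ) s x y) : Geo R x y := by
  classical
  have T := isTree_dF (α := α)
  have hex : ∃ k, ∃ n ∈ NC R, dF x (n * y) = k := ⟨_, 1, (NC R).one_mem, rfl⟩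
  obtain ⟨n, hn, hk⟩ := Nat.find_spec hex
  have hmin : ∀ m ∈ NC R, dF x (n * y) ≤ dF x (m * y) := by
    intro m hm
    rw [hk]
    exact Nat.find_min' hex ⟨m, hm, rfl⟩
  have hgeo : Geo R x (n * y) := by
    intro m hm
    rw [← mul_assoc]
    exact hmin _ ((NC R).mul_mem hm hn)
  by_cases hne : y = n * y
  · intro m hm
    have := hmin m hm
    rw [← hne] at this
    exact this
  · exfalso
    have hmem : y⁻¹ * (n * y) ∈ NC R := by
      have := (Subgroup.normalClosure_normal (s := R)).conj_mem _ hn y⁻¹
      simpa [mul_assoc] using this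
    obtain ⟨ρ, hρ, p, q, hp, hq, h1, h2, h3, -⟩ := cell S hmem hne
    have o := ((((h ρ).symm.add (S.ax_conv ρ) (ov_geo S hgeo)).right h1).left h2).self hp hq
    omega

theorem ov_of_letters (S : SC R N ξ) {s : ℕ} (hs : s < N) (P : α × Bool → Prop)
    (hR : ∀ r ∈ R, ∃ x ∈ r.toWord.take (s + 1), ¬ P x) {u : FreeGroup α}
    (hu : ∀ x ∈ u.toWord, P x) (ρ : FreeGroup α) : Ov (Ax R ρ) s 1 u := by
  have T := isTree_dF (α := α)
  have key : ∀ a ∈ Ax R ρ, ∀ b ∈ Ax R ρ, Btw dF 1 a u → Btw dF a b u → dF a b ≤ s := by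
    intro a ha b hb h1 h2
    by_contra hlt
    push Not at hlt
    obtain ⟨c, hc1, hc2⟩ := T.geod a b (s + 1) (by omega)
    have hc : c ∈ Ax R ρ := S.ax_conv ρ a ha b hb c hc1
    have fin : ∀ σ, a ∈ Ax R σ → Btw dF a c (σ * a) → False := by
      intro σ haσ hb'
      have h3 := btw_mul (g := a⁻¹) |>.mpr hb'
      rw [inv_mul_cancel, btw_one_iff, ← mul_assoc] at h3
      have h4 := List.prefix_iff_eq_take.mp h3
      have h5 : (a⁻¹ * c).toWord.length = s + 1 := hc2
      rw [h5] at h4
      obtain ⟨x, hx, hxP⟩ := hR _ haσ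
      rw [← h4] at hx
      apply hxP
      apply hu
      have h6 : Btw dF a c u := T.trans_left h2 hc1
      rw [btw_iff] at h6
      have h7 : x ∈ (a⁻¹ * u).toWord := h6.subset hx
      have h8 : u.toWord = a.toWord ++ (a⁻¹ * u).toWord := by
        have := toWord_mul_of_norm (a := a) (b := a⁻¹ * u) (by
          unfold Btw at h1
          rw [dF_one, dF_one] at h1
          rw [mul_inv_cancel_left]
          exact h1.symm)
        rwa [mul_inv_cancel_left] at this
      rw [h8]
      exact List.mem_append_right _ h7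
    rcases S.ax_near ha hc (by omega) with h3 | h3
    · exact fin ρ ha h3
    · exact fin ρ⁻¹ (by rw [S.ax_inv]; exact ha) h3
  intro a ha b hb h1 h2
  rcases T.order h1 h2 with ⟨h3, h4⟩ | ⟨h3, h4⟩
  · exact key a ha b hb h1 h4
  · rw [T.comm]
    exact key b hb a ha h2 h4

end

/-- Every six consecutive letters contain a letter of second kind. -/
def six : List (Al × Bool) → Bool
  | a :: b :: c :: d :: e :: f :: t =>
    (a.1.2 || b.1.2 || c.1.2 || d.1.2 || e.1.2 || f.1.2) && six (b :: c :: d :: e :: f :: t)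
  | _ => true

set_option maxRecDepth 100000 in
theorem check_six : ∀ l ∈ allRels, six (l ++ l) = true := by
  decide +kernel

theorem six_drop (L : List (Al × Bool)) (h : six L = true) (n : ℕ) : six (L.drop n) = true := by
  induction n generalizing L with
  | zero => simpa using h
  | succ n ih =>
    cases L with
    | nil => simpa using h
    | cons x t =>
      rw [List.drop_succ_cons]
      apply ih
      match t, h with
      | b :: c :: d :: e :: f :: t, h =>
        rw [six, Bool.and_eq_true] at h
        exact h.2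
      | [], _ => rfl
      | [_], _ => rfl
      | [_, _], _ => rfl
      | [_, _, _], _ => rfl
      | [_, _, _, _], _ => rfl

theorem six_take (L : List (Al × Bool)) (h : six L = true) (hl : 6 ≤ L.length) :
    ∃ x ∈ L.take 6, x.1.2 = true := by
  match L, h, hl with
  | a :: b :: c :: d :: e :: f :: t, h, _ =>
    rw [six, Bool.and_eq_true] at h
    have h1 := h.1
    simp only [Bool.or_eq_true] at h1
    simp only [List.take_succ_cons, List.take_zero, List.mem_cons, List.not_mem_nil, or_false]
    rcases h1 with ((((h1 | h1) | h1) | h1) | h1) | h1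
    · exact ⟨a, by simp, h1⟩
    · exact ⟨b, by simp, h1⟩
    · exact ⟨c, by simp, h1⟩
    · exact ⟨d, by simp, h1⟩
    · exact ⟨e, by simp, h1⟩
    · exact ⟨f, by simp, h1⟩

theorem rr_second : ∀ r ∈ RR, ∃ x ∈ r.toWord.take 6, x.1.2 = true := by
  rintro r ⟨l, hl, n, rfl⟩
  rw [good.toWord hl, ← List.rotate_mod]
  have hlen := all_length l hl
  have hlt : n % l.length < 310 := by
    rw [hlen]; exact Nat.mod_lt _ (by norm_num)
  rw [window_eq l (by omega) (by omega)]
  apply six_take
  · exact six_drop _ (check_six l hl) _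
  · rw [List.length_drop, List.length_append, hlen]
    omega

theorem geo_first {u : FreeGroup Al} (hu : ∀ x ∈ u.toWord, x.1.2 = false) : Geo RR 1 u := by
  apply geo_of_ov scRR (s := 5) (by norm_num)
  intro ρ
  apply ov_of_letters scRR (by norm_num) (fun x => x.1.2 = false) _ hu
  intro r hr
  obtain ⟨x, hx, h⟩ := rr_second r hr
  exact ⟨x, hx, by simp [h]⟩

/-- The embedding of the free group on the first letters of the classes. -/
def emb : FreeGroup (Fin 4) →* FreeGroup Al := FreeGroup.map fun c => (c, false)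

theorem toWord_emb (u : FreeGroup (Fin 4)) :
    (emb u).toWord = u.toWord.map fun x => ((x.1, false), x.2) := by
  conv_lhs => rw [← mk_toWord (x := u)]
  unfold emb
  rw [FreeGroup.map.mk]
  apply toWord_mk_of_reduced
  have h := isReduced_toWord (x := u)
  unfold FreeGroup.IsReduced at h ⊢
  rw [List.isChain_map]
  apply h.imp
  intro a b hab h1
  apply hab
  simpa using h1

theorem norm_emb (u : FreeGroup (Fin 4)) : (emb u).norm = u.norm := by
  unfold FreeGroup.norm
  rw [toWord_emb, List.length_map]

theorem geo_emb (u v : FreeGroup (Fin 4)) : Geo RR (emb u) (emb v) := by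
  have h : Geo RR 1 (emb (u⁻¹ * v)) := by
    apply geo_first
    intro x hx
    rw [toWord_emb, List.mem_map] at hx
    obtain ⟨y, _, rfl⟩ := hx
    rfl
  have h2 := h.mul (emb u)
  rw [mul_one, ← _root_.map_mul, mul_inv_cancel_left] at h2
  exact h2

theorem dF_emb (u v : FreeGroup (Fin 4)) : dF (emb u) (emb v) = dF u v := by
  unfold dF
  rw [← _root_.map_inv, ← _root_.map_mul, norm_emb]

end Pool.Agent.Helper87.Ray
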