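import Pool.Agent.Helper87.Ray.Free
import Pool.Agent.Helper87.Ray.Sparse

/-!
# The recursion
-/

namespace Pool.Agent.Helper87.Ray

open FreeGroup hiding map_mul map_inv map_one

/-! ### Reduced words with given ends -/

section

variable {α : Type*}

/-- A reduced word with first letter `x` and last letter `y`. -/
def SE (L : List (α × Bool)) (x y : α × Bool) : Prop :=
  FreeGroup.IsReduced L ∧ L.head? = some x ∧ L.getLast? = some y

/-- The empty word, or a reduced word with first letter `x` and last letter `y`. -/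
def AE (L : List (α × Bool)) (x y : α × Bool) : Prop := L = [] ∨ SE L x y

theorem SE.single (x : α × Bool) : SE [x] x x := ⟨FreeGroup.IsReduced.singleton, rfl, rfl⟩

theorem SE.append {L M : List (α × Bool)} {x y z w : α × Bool} (h : SE L x y) (h' : SE M z w)
    (hj : y.1 = z.1 → y.2 = z.2) : SE (L ++ M) x w := by
  obtain ⟨a1, a2, a3⟩ := h
  obtain ⟨b1, b2, b3⟩ := h'
  refine ⟨?_, ?_, ?_⟩
  · rw [reduced_append]
    refine ⟨a1, b1, ?_⟩
    intro u hu v hv
    rw [a3] at hu
    rw [b2] at hv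
    simp only [Option.mem_def, Option.some.injEq] at hu hv
    subst hu hv
    exact hj
  · rw [List.head?_append, a2]; rfl
  · rw [List.getLast?_append, b3]; rfl

theorem SE.inv [DecidableEq α] {L : List (α × Bool)} {x y : α × Bool} (h : SE L x y) :
    SE (invRev L) (y.1, !y.2) (x.1, !x.2) := by
  obtain ⟨a1, a2, a3⟩ := h
  refine ⟨?_, ?_, ?_⟩
  · have h := toWord_inv (mk L)
    rw [toWord_mk_of_reduced a1] at h
    rw [← h]
    exact isReduced_toWord
  · unfold invRev
    rw [List.head?_reverse, List.getLast?_map, a3]; rfl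
  · unfold invRev
    rw [List.getLast?_reverse, List.head?_map, a2]; rfl

theorem AE.inv [DecidableEq α] {L : List (α × Bool)} {x y : α × Bool} (h : AE L x y) :
    AE (invRev L) (y.1, !y.2) (x.1, !x.2) := by
  rcases h with rfl | h
  · exact Or.inl rfl
  · exact Or.inr h.inv

theorem AE.append {L M : List (α × Bool)} {x y w : α × Bool} (h : AE L x y) (h' : SE M x w)
    (hj : y.1 = x.1 → y.2 = x.2) : SE (L ++ M) x w := by
  rcases h with rfl | h
  · exact h'
  · exact h.append h' hj

theorem SE.append' {L M : List (α × Bool)} {x y z : α × Bool} (h : SE L x y) (h' : AE M z y)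
    (hj : y.1 = z.1 → y.2 = z.2) : SE (L ++ M) x y := by
  rcases h' with rfl | h'
  · rw [List.append_nil]; exact h
  · exact h.append h' hj

end

/-! ### The sequences of words -/

/-- The state `(A, U, V)`. -/
structure St where
  /-- the word `A` -/
  a : List (Fin 4 × Bool)
  /-- the word `U` -/
  u : List (Fin 4 × Bool)
  /-- the word `V` -/
  v : List (Fin 4 × Bool)

/-- The next `U`. -/
def nu (s : St) : List (Fin 4 × Bool) :=
  s.u ++ ([(1, true)] ++ ((s.a ++ [(0, false), (2, false), (0, true)]) ++ invRev s.a))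

/-- The word `B`. -/
def nb (s : St) : List (Fin 4 × Bool) :=
  invRev s.v ++ ([(0, true)] ++ (nu s ++ ([(1, false)] ++ s.a)))

/-- The next `V`. -/
def nv (s : St) : List (Fin 4 × Bool) :=
  s.v ++ ([(3, true)] ++ (nb s ++ ([(0, false)] ++ invRev (nb s))))

/-- The next `A`. -/
def na (s : St) : List (Fin 4 × Bool) :=
  invRev (nu s) ++ ([(0, false)] ++ (nv s ++ ([(3, false)] ++ nb s)))

/-- The sequence of states. -/
def st : ℕ → St
  | 0 => ⟨[], [], []⟩
  | m + 1 => ⟨na (st m), nu (st m), nv (st m)⟩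

/-- The invariant. -/
structure Inv (s : St) : Prop where
  a : AE s.a (0, false) (1, false)
  u : AE s.u (1, true) (0, true)
  v : AE s.v (3, true) (0, false)

theorem Inv.nu {s : St} (h : Inv s) : SE (nu s) (1, true) (0, true) := by
  have h1 : SE [((0 : Fin 4), false), (2, false), (0, true)] (0, false) (0, true) := by
    refine ⟨?_, rfl, rfl⟩
    unfold FreeGroup.IsReduced
    decide
  have h2 := h.a.append h1 (by decide)
  have h3 := h2.append' (z := (1, true)) h.a.inv (by decide)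
  have h4 := (SE.single ((1 : Fin 4), true)).append h3 (by decide)
  exact h.u.append h4 (by decide)

theorem Inv.nb {s : St} (h : Inv s) : SE (nb s) (0, true) (1, false) := by
  have h1 := (SE.single ((1 : Fin 4), false)).append' h.a (by decide)
  have h2 := h.nu.append h1 (by decide)
  have h3 := (SE.single ((0 : Fin 4), true)).append h2 (by decide)
  exact h.v.inv.append h3 (by decide)

theorem Inv.nv {s : St} (h : Inv s) : SE (nv s) (3, true) (0, false) := by
  have h1 := (SE.single ((0 : Fin 4), false)).append h.nb.inv (by decide)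
  have h2 := h.nb.append h1 (by decide)
  have h3 := (SE.single ((3 : Fin 4), true)).append h2 (by decide)
  exact h.v.append h3 (by decide)

theorem Inv.na {s : St} (h : Inv s) : SE (na s) (0, false) (1, false) := by
  have h1 := (SE.single ((3 : Fin 4), false)).append h.nb (by decide)
  have h2 := h.nv.append h1 (by decide)
  have h3 := (SE.single ((0 : Fin 4), false)).append h2 (by decide)
  exact h.nu.inv.append h3 (by decide)

theorem inv_st (m : ℕ) : Inv (st m) := by
  induction m with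
  | zero => exact ⟨Or.inl rfl, Or.inl rfl, Or.inl rfl⟩
  | succ m ih => exact ⟨Or.inr ih.na, Or.inr ih.nu, Or.inr ih.nv⟩

/-- The even points, as words. -/
def pe (m : ℕ) : List (Fin 4 × Bool) :=
  (st (m + 1)).u ++ (([(1, false)] ++ (st m).a) ++ [(0, false)])

/-- The odd points, as words. -/
def po (m : ℕ) : List (Fin 4 × Bool) :=
  [(0, false)] ++ ((st (m + 1)).v ++ ([(3, false)] ++ (nb (st m) ++ [(0, false)])))

theorem pe_se (m : ℕ) : SE (pe m) (1, true) (0, false) := by
  have h1 := (SE.single ((1 : Fin 4), false)).append' (inv_st m).a (by decide)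
  have h2 := h1.append (SE.single ((0 : Fin 4), false)) (by decide)
  exact (inv_st m).nu.append h2 (by decide)

theorem po_se (m : ℕ) : SE (po m) (0, false) (0, false) := by
  have h1 := (inv_st m).nb.append (SE.single ((0 : Fin 4), false)) (by decide)
  have h2 := (SE.single ((3 : Fin 4), false)).append h1 (by decide)
  have h3 := (inv_st m).nv.append h2 (by decide)
  exact (SE.single ((0 : Fin 4), false)).append h3 (by decide)

theorem u_prefix {m n : ℕ} (h : m ≤ n) : (st m).u <+: (st n).u := by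
  induction n, h using Nat.le_induction with
  | base => exact List.prefix_rfl
  | succ n _ ih => exact ih.trans (List.prefix_append _ _)

theorem v_prefix {m n : ℕ} (h : m ≤ n) : (st m).v <+: (st n).v := by
  induction n, h using Nat.le_induction with
  | base => exact List.prefix_rfl
  | succ n _ ih => exact ih.trans (List.prefix_append _ _)

theorem u_length (m : ℕ) : m ≤ (st m).u.length := by
  induction m with
  | zero => exact Nat.zero_le _
  | succ m ih =>
    change m + 1 ≤ (nu (st m)).length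
    unfold nu
    simp only [List.length_append, List.length_cons, List.length_nil]
    omega

theorem v_length (m : ℕ) : m ≤ (st m).v.length := by
  induction m with
  | zero => exact Nat.zero_le _
  | succ m ih =>
    change m + 1 ≤ (nv (st m)).length
    unfold nv
    simp only [List.length_append, List.length_cons, List.length_nil]
    omega

/-! ### The group elements -/

/-- The class of index `n`. -/
def cl : ℕ → Fin 4
  | 0 => 2
  | n + 1 => cl n + 2

/-- The partial products of every second factor. -/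
def sg : ℕ → FreeGroup (Fin 4)
  | 0 => 1
  | 1 => (of 0)⁻¹
  | n + 2 => sg n * (((sg (n + 1))⁻¹ * of (cl (n + 1) + 1) * sg (n + 1)) * (of (cl (n + 2)))⁻¹ *
      ((sg (n + 1))⁻¹ * of (cl (n + 1) + 1) * sg (n + 1))⁻¹)

/-- The factors. -/
def fac : ℕ → FreeGroup (Fin 4)
  | 0 => 1
  | 1 => (of 0)⁻¹
  | n + 2 => ((sg (n + 1))⁻¹ * of (cl (n + 1) + 1) * sg (n + 1)) * (of (cl (n + 2)))⁻¹ *
      ((sg (n + 1))⁻¹ * of (cl (n + 1) + 1) * sg (n + 1))⁻¹

/-- The points. -/
def pt : ℕ → FreeGroup (Fin 4)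
  | 0 => 1
  | n + 1 => pt n * fac (n + 1)

theorem cl_odd (m : ℕ) : cl (2 * m + 1) = 0 := by
  induction m with
  | zero => rfl
  | succ m ih =>
    have : cl (2 * (m + 1) + 1) = cl (2 * m + 1) + 2 + 2 := rfl
    rw [this, ih]; rfl

theorem cl_even (m : ℕ) : cl (2 * m + 2) = 2 := by
  have : cl (2 * m + 2) = cl (2 * m + 1) + 2 := rfl
  rw [this, cl_odd]; rfl

/-- The main computation. -/
theorem main_aux (m : ℕ) :
    sg (2 * m + 1) = of 1 ^ m * mk (st m).a * (of 0)⁻¹ ∧
    pt (2 * m + 1) = mk (st m).u * mk (st m).a * (of 0)⁻¹ ∧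
    sg (2 * m) = of 3 ^ m * (mk (st m).v)⁻¹ * of 0 * pt (2 * m + 1) := by
  have k0 : (mk [((0 : Fin 4), true)] : FreeGroup (Fin 4)) = of 0 := rfl
  have k0' : (mk [((0 : Fin 4), false)] : FreeGroup (Fin 4)) = (of 0)⁻¹ := rfl
  have k1 : (mk [((1 : Fin 4), true)] : FreeGroup (Fin 4)) = of 1 := rfl
  have k1' : (mk [((1 : Fin 4), false)] : FreeGroup (Fin 4)) = (of 1)⁻¹ := rfl
  have k3 : (mk [((3 : Fin 4), true)] : FreeGroup (Fin 4)) = of 3 := rfl
  have k3' : (mk [((3 : Fin 4), false)] : FreeGroup (Fin 4)) = (of 3)⁻¹ := rfl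
  have k2 : (mk [((0 : Fin 4), false), (2, false), (0, true)] : FreeGroup (Fin 4)) =
      (of 0)⁻¹ * (of 2)⁻¹ * of 0 := rfl
  induction m with
  | zero =>
    refine ⟨?_, ?_, ?_⟩
    · simp [sg, st, ← one_eq_mk]
    · simp [pt, fac, st, ← one_eq_mk]
    · simp [sg, pt, fac, st, ← one_eq_mk]
  | succ m ih =>
    obtain ⟨i1, i2, i3⟩ := ih
    set a := mk (st m).a with ha
    set u := mk (st m).u with hu
    set v := mk (st m).v with hv
    have hu' : mk (nu (st m)) = u * of 1 * a * (of 0)⁻¹ * (of 2)⁻¹ * of 0 * a⁻¹ := by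
      unfold nu
      simp only [← mul_mk, ← inv_mk, k1, k2]
      rw [← ha, ← hu]
      group
    have hb : mk (nb (st m)) = v⁻¹ * of 0 * mk (nu (st m)) * (of 1)⁻¹ * a := by
      unfold nb
      simp only [← mul_mk, ← inv_mk, k0, k1']
      rw [← ha, ← hv]
      group
    have hv' : mk (nv (st m)) = v * of 3 * mk (nb (st m)) * (of 0)⁻¹ * (mk (nb (st m)))⁻¹ := by
      unfold nv
      simp only [← mul_mk, ← inv_mk, k3, k0']
      rw [← hv]
      group
    have ha' : mk (na (st m)) = (mk (nu (st m)))⁻¹ * (of 0)⁻¹ * mk (nv (st m)) * (of 3)⁻¹ *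
        mk (nb (st m)) := by
      unfold na
      simp only [← mul_mk, ← inv_mk, k3', k0']
      group
    set b := mk (nb (st m)) with hbb
    set u' := mk (nu (st m)) with huu
    set v' := mk (nv (st m)) with hvv
    -- the factor of index 2 m + 2
    have f2 : fac (2 * m + 2) = of 0 * a⁻¹ * of 1 * a * (of 0)⁻¹ * (of 2)⁻¹ * of 0 * a⁻¹ *
        (of 1)⁻¹ * a * (of 0)⁻¹ := by
      have e : fac (2 * m + 2) = ((sg (2 * m + 1))⁻¹ * of (cl (2 * m + 1) + 1) *
        sg (2 * m + 1)) * (of (cl (2 * m + 2)))⁻¹ *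
        ((sg (2 * m + 1))⁻¹ * of (cl (2 * m + 1) + 1) * sg (2 * m + 1))⁻¹ := rfl
      rw [e, i1, cl_odd, cl_even]
      have h01 : (0 + 1 : Fin 4) = 1 := rfl
      rw [h01]
      have hc : (of 1 ^ m * a * (of 0)⁻¹)⁻¹ * of 1 * (of 1 ^ m * a * (of 0)⁻¹) =
          of 0 * a⁻¹ * of 1 * a * (of 0)⁻¹ := by group
      rw [hc]
      group
    have p2 : pt (2 * m + 2) = u' * (of 1)⁻¹ * a * (of 0)⁻¹ := by
      have e : pt (2 * m + 2) = pt (2 * m + 1) * fac (2 * m + 2) := rfl
      rw [e, i2, f2, hu']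
      group
    have s2 : sg (2 * m + 2) = of 3 ^ m * b * (of 0)⁻¹ := by
      have e : sg (2 * m + 2) = sg (2 * m) * fac (2 * m + 2) := rfl
      have e2 : pt (2 * m + 2) = pt (2 * m + 1) * fac (2 * m + 2) := rfl
      rw [e, i3, mul_assoc, ← e2, p2, hb]
      group
    have f3 : fac (2 * m + 3) = of 0 * b⁻¹ * of 3 * b * (of 0)⁻¹ * b⁻¹ * (of 3)⁻¹ * b *
        (of 0)⁻¹ := by
      have e : fac (2 * m + 3) = ((sg (2 * m + 2))⁻¹ * of (cl (2 * m + 2) + 1) *
        sg (2 * m + 2)) * (of (cl (2 * m + 3)))⁻¹ *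
        ((sg (2 * m + 2))⁻¹ * of (cl (2 * m + 2) + 1) * sg (2 * m + 2))⁻¹ := rfl
      have hc3 : cl (2 * m + 3) = 0 := cl_odd (m + 1)
      rw [e, s2, cl_even, hc3]
      have h01 : (2 + 1 : Fin 4) = 3 := rfl
      rw [h01]
      have hc : (of 3 ^ m * b * (of 0)⁻¹)⁻¹ * of 3 * (of 3 ^ m * b * (of 0)⁻¹) =
          of 0 * b⁻¹ * of 3 * b * (of 0)⁻¹ := by group
      rw [hc]
      group
    have p2' : pt (2 * m + 2) = (of 0)⁻¹ * v * b * (of 0)⁻¹ := by
      rw [p2, hb]
      group
    have p3 : pt (2 * m + 3) = (of 0)⁻¹ * v' * (of 3)⁻¹ * b * (of 0)⁻¹ := by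
      have e : pt (2 * m + 3) = pt (2 * m + 2) * fac (2 * m + 3) := rfl
      rw [e, p2', f3, hv']
      group
    have eA : mk (st (m + 1)).a = mk (na (st m)) := rfl
    have eU : mk (st (m + 1)).u = u' := rfl
    have eV : mk (st (m + 1)).v = v' := rfl
    have j1 : 2 * (m + 1) + 1 = 2 * m + 3 := by ring
    have j2 : 2 * (m + 1) = 2 * m + 2 := by ring
    rw [j1, j2, eA, eU, eV]
    refine ⟨?_, ?_, ?_⟩
    · have e : sg (2 * m + 3) = sg (2 * m + 1) * fac (2 * m + 3) := rfl
      have e2 : fac (2 * m + 3) = (pt (2 * m + 2))⁻¹ * pt (2 * m + 3) := by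
        have : pt (2 * m + 3) = pt (2 * m + 2) * fac (2 * m + 3) := rfl
        rw [this]; group
      rw [e, e2, i1, p3, p2, ha', pow_succ]
      group
    · rw [p3, ha']
      group
    · rw [s2, p3, pow_succ]
      group

theorem pt_even (m : ℕ) : pt (2 * m + 2) = mk (pe m) := by
  obtain ⟨i1, i2, i3⟩ := main_aux m
  have k1' : (mk [((1 : Fin 4), false)] : FreeGroup (Fin 4)) = (of 1)⁻¹ := rfl
  have k0' : (mk [((0 : Fin 4), false)] : FreeGroup (Fin 4)) = (of 0)⁻¹ := rfl
  have k1 : (mk [((1 : Fin 4), true)] : FreeGroup (Fin 4)) = of 1 := rfl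
  have k2 : (mk [((0 : Fin 4), false), (2, false), (0, true)] : FreeGroup (Fin 4)) =
      (of 0)⁻¹ * (of 2)⁻¹ * of 0 := rfl
  have hu' : mk (nu (st m)) = mk (st m).u * of 1 * mk (st m).a * (of 0)⁻¹ * (of 2)⁻¹ * of 0 *
      (mk (st m).a)⁻¹ := by
    unfold nu
    simp only [← mul_mk, ← inv_mk, k1, k2]
    group
  have e : fac (2 * m + 2) = ((sg (2 * m + 1))⁻¹ * of (cl (2 * m + 1) + 1) *
        sg (2 * m + 1)) * (of (cl (2 * m + 2)))⁻¹ *
        ((sg (2 * m + 1))⁻¹ * of (cl (2 * m + 1) + 1) * sg (2 * m + 1))⁻¹ := rfl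
  have e' : pt (2 * m + 2) = pt (2 * m + 1) * fac (2 * m + 2) := rfl
  unfold pe
  have eU : mk (st (m + 1)).u = mk (nu (st m)) := rfl
  simp only [← mul_mk, k1', k0', eU]
  rw [e', e, i1, i2, cl_odd, cl_even, hu']
  have h01 : (0 + 1 : Fin 4) = 1 := rfl
  rw [h01]
  have hc : (of 1 ^ m * mk (st m).a * (of 0)⁻¹)⁻¹ * of 1 * (of 1 ^ m * mk (st m).a * (of 0)⁻¹) =
      of 0 * (mk (st m).a)⁻¹ * of 1 * mk (st m).a * (of 0)⁻¹ := by group
  rw [hc]
  group

theorem pt_odd (m : ℕ) : pt (2 * m + 3) = mk (po m) := by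
  obtain ⟨-, i2, -⟩ := main_aux (m + 1)
  have k0' : (mk [((0 : Fin 4), false)] : FreeGroup (Fin 4)) = (of 0)⁻¹ := rfl
  have k3' : (mk [((3 : Fin 4), false)] : FreeGroup (Fin 4)) = (of 3)⁻¹ := rfl
  have ha' : mk (na (st m)) = (mk (nu (st m)))⁻¹ * (of 0)⁻¹ * mk (nv (st m)) * (of 3)⁻¹ *
        mk (nb (st m)) := by
    unfold na
    simp only [← mul_mk, ← inv_mk, k3', k0']
    group
  have eA : mk (st (m + 1)).a = mk (na (st m)) := rfl
  have eU : mk (st (m + 1)).u = mk (nu (st m)) := rfl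
  have eV : mk (st (m + 1)).v = mk (nv (st m)) := rfl
  have j1 : 2 * (m + 1) + 1 = 2 * m + 3 := by ring
  rw [j1, eA, eU, ha'] at i2
  rw [i2]
  unfold po
  simp only [← mul_mk, k3', k0', eV]
  group

end Pool.Agent.Helper87.Ray
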