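import Pool.Agent.Helper87.Ray.Rots

/-!
# The relators
-/

namespace Pool.Agent.Helper87.Ray

open FreeGroup

/-- The alphabet: four classes of two letters each. -/
abbrev Al := Fin 4 × Bool

/-- The first `n` binary digits of `C`. -/
def bits : ℕ → ℕ → List Bool
  | 0, _ => []
  | n + 1, C => Nat.testBit C 0 :: bits n (C / 2)

/-- Four binary words of length 307, as numbers. -/
def cst : Bool → Bool → ℕ
  | false, false =>
    114446729257438978874782682705311828665755591798796193021347214143740940900394894110036759030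
  | false, true =>
    211451188143064448719663888997670171623826072711780758562012509011793711314190102824152607407
  | true, false =>
    126498611333462553733834468196288348420270070804673008086841464785906965531603439358604936248
  | true, true =>
    185898534169716398699621693028897620987416232875780812444402082226915043058812465882558305543

/-- The four binary words. -/
def wrd (i j : Bool) : List Bool := bits 307 (cst i j)

/-- The relator `W i j (x (c + 1)) * x c i * (x (c + 1) j)⁻¹ * (x c i)⁻¹`. -/
def rel (c : Fin 4) (i j : Bool) : List (Al × Bool) :=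
  (wrd i j).map (fun b => ((c + 1, b), true)) ++
    [((c, i), true), ((c + 1, j), false), ((c, i), false)]

/-- All relators. -/
def rels : List (List (Al × Bool)) :=
  [0, 1, 2, 3].flatMap fun c => [rel c false false, rel c false true, rel c true false,
    rel c true true]

/-- All relators and their inverses. -/
def allRels : List (List (Al × Bool)) := rels ++ rels.map invRev

/-- The code of a letter. -/
def dig (x : Al × Bool) : ℕ := x.1.2.toNat + 2 * x.2.toNat + 4 * x.1.1.val

/-- The masks, in the order in which they are inspected. -/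
def ordr : List ℕ :=
  [2 ^ 0, 2 ^ 4, 2 ^ 8, 2 ^ 12, 2 ^ 16, 2 ^ 20, 2 ^ 24, 2 ^ 28, 2 ^ 32, 2 ^ 36, 2 ^ 40, 2 ^ 1,
   2 ^ 2, 2 ^ 3, 2 ^ 5, 2 ^ 6, 2 ^ 7, 2 ^ 9, 2 ^ 10, 2 ^ 11, 2 ^ 13, 2 ^ 14, 2 ^ 15, 2 ^ 17,
   2 ^ 18, 2 ^ 19, 2 ^ 21, 2 ^ 22, 2 ^ 23, 2 ^ 25, 2 ^ 26, 2 ^ 27, 2 ^ 29, 2 ^ 30, 2 ^ 31,
   2 ^ 33, 2 ^ 34, 2 ^ 35, 2 ^ 37, 2 ^ 38, 2 ^ 39, 2 ^ 41, 2 ^ 42, 2 ^ 43]

set_option maxRecDepth 100000 in
theorem check_windows : split ordr (allRels.flatMap fun l => codes 310 11 (l.map dig)) = true := by
  decide +kernel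

set_option maxRecDepth 100000 in
theorem check_red : ∀ l ∈ allRels, IsReduced (l ++ l) := by
  unfold FreeGroup.IsReduced
  decide +kernel

theorem bits_length (n C : ℕ) : (bits n C).length = n := by
  induction n generalizing C with
  | zero => rfl
  | succ n ih => simp [bits, ih]

theorem rel_length (c : Fin 4) (i j : Bool) : (rel c i j).length = 310 := by
  simp [rel, wrd, bits_length]

theorem mem_rels {l : List (Al × Bool)} : l ∈ rels ↔ ∃ c i j, l = rel c i j := by
  unfold rels
  constructor
  · intro h
    rw [List.mem_flatMap] at h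
    obtain ⟨c, _, h⟩ := h
    simp only [List.mem_cons, List.not_mem_nil, or_false] at h
    rcases h with h | h | h | h
    · exact ⟨c, _, _, h⟩
    · exact ⟨c, _, _, h⟩
    · exact ⟨c, _, _, h⟩
    · exact ⟨c, _, _, h⟩
  · rintro ⟨c, i, j, rfl⟩
    rw [List.mem_flatMap]
    refine ⟨c, ?_, ?_⟩
    · fin_cases c <;> simp
    · cases i <;> cases j <;> simp

theorem all_length : ∀ l ∈ allRels, l.length = 310 := by
  intro l hl
  unfold allRels at hl
  rw [List.mem_append, List.mem_map] at hl
  rcases hl with hl | ⟨l', hl', rfl⟩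
  · obtain ⟨c, i, j, rfl⟩ := mem_rels.mp hl
    exact rel_length c i j
  · obtain ⟨c, i, j, rfl⟩ := mem_rels.mp hl'
    rw [invRev_length]
    exact rel_length c i j

theorem all_inv : ∀ l ∈ allRels, invRev l ∈ allRels := by
  intro l hl
  unfold allRels at hl ⊢
  rw [List.mem_append, List.mem_map] at hl
  rw [List.mem_append, List.mem_map]
  rcases hl with hl | ⟨l', hl', rfl⟩
  · exact Or.inr ⟨l, hl, rfl⟩
  · left
    rw [invRev_invRev]
    exact hl'

theorem dig_lt (x : Al × Bool) : dig x < 16 := by
  unfold dig
  have h1 : x.1.2.toNat ≤ 1 := Bool.toNat_le _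
  have h2 : x.2.toNat ≤ 1 := Bool.toNat_le _
  have := x.1.1.isLt
  omega

/-- The symmetrized set of relators. -/
def RR : Set (FreeGroup Al) := Rots allRels

theorem good : GoodList allRels 310 10 :=
  goodList_of_check dig dig_lt all_length check_red all_inv (by norm_num) (by norm_num)
    (nodup_of_split _ _ check_windows)

theorem scRR : SC RR 310 10 := good.sc

end Pool.Agent.Helper87.Ray
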