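import Pool.Agent.Helper87.Ray.Axis

/-!
# Symmetrized sets of relators from lists
-/

namespace Pool.Agent.Helper87.Ray

open FreeGroup

variable {α : Type*} [DecidableEq α]

/-- The symmetrized set given by a list of cyclically reduced words, closed under inversion. -/
def Rots (L : List (List (α × Bool))) : Set (FreeGroup α) :=
  {r | ∃ l ∈ L, ∃ n, r = mk (l.rotate n)}

/-- The conditions to be checked on the list. -/
structure GoodList (L : List (List (α × Bool))) (N ξ : ℕ) : Prop where
  len : ∀ l ∈ L, l.length = N
  red : ∀ l ∈ L, IsReduced (l ++ l)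
  inv : ∀ l ∈ L, invRev l ∈ L
  win : ∀ l ∈ L, ∀ l' ∈ L, ∀ n n', n < N → n' < N →
    (l.rotate n).take (ξ + 1) = (l'.rotate n').take (ξ + 1) → l = l' ∧ n = n'
  hξ : 1 ≤ ξ
  hN : 31 * ξ ≤ N

namespace GoodList

variable {L : List (List (α × Bool))} {N ξ : ℕ}

omit [DecidableEq α] in
theorem reduced (h : GoodList L N ξ) {l : List (α × Bool)} (hl : l ∈ L) (n : ℕ) :
    IsReduced (l.rotate n) := by
  rw [List.rotate_eq_drop_append_take_mod]
  have h1 := h.red l hl
  have e : l ++ l = l.take (n % l.length) ++
      ((l.drop (n % l.length) ++ l.take (n % l.length)) ++ l.drop (n % l.length)) := by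
    rw [List.append_assoc, List.take_append_drop, ← List.append_assoc, List.take_append_drop]
  rw [e, reduced_append] at h1
  exact (reduced_append.mp h1.2.1).1

theorem toWord (h : GoodList L N ξ) {l : List (α × Bool)} (hl : l ∈ L) (n : ℕ) :
    (FreeGroup.mk (l.rotate n)).toWord = l.rotate n := by
  rw [toWord_mk, (h.reduced hl n).reduce_eq]

theorem sc (h : GoodList L N ξ) : SC (Rots L) N ξ where
  norm_eq := by
    rintro r ⟨l, hl, n, rfl⟩
    unfold FreeGroup.norm
    rw [h.toWord hl, List.length_rotate, h.len l hl]
  inv_mem := by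
    rintro r ⟨l, hl, n, rfl⟩
    refine ⟨invRev l, h.inv l hl, l.length - n % l.length, ?_⟩
    rw [inv_mk]
    congr 1
    unfold invRev
    rw [List.map_rotate, List.reverse_rotate]
    simp only [List.length_map]
  rot := by
    rintro a b ⟨l, hl, n, hr⟩ hab
    have h1 : (a * b).toWord = a.toWord ++ b.toWord := by
      apply toWord_mul_of_norm
      rw [hab, hr]
      unfold FreeGroup.norm
      rw [h.toWord hl, List.length_rotate, h.len l hl]
    rw [hr, h.toWord hl] at h1
    refine ⟨l, hl, n + a.toWord.length, ?_⟩
    rw [← List.rotate_rotate, h1, List.rotate_append_length_eq, ← mul_mk, mk_toWord, mk_toWord]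
  piece := by
    rintro r ⟨l, hl, n, rfl⟩ r' ⟨l', hl', n', rfl⟩ u hu h1 h2
    have hN := h.hN
    have hξ := h.hξ
    rw [btw_one_iff, h.toWord hl] at h1
    rw [btw_one_iff, h.toWord hl'] at h2
    have e1 := List.prefix_iff_eq_take.mp h1
    have e2 := List.prefix_iff_eq_take.mp h2
    unfold FreeGroup.norm at hu
    rw [hu] at e1 e2
    have l1 := h.len l hl
    have l2 := h.len l' hl'
    have h3 := h.win l hl l' hl' (n % N) (n' % N) (Nat.mod_lt _ (by omega))
      (Nat.mod_lt _ (by omega)) (by
        rw [← l1, List.rotate_mod, l1, ← e1]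
        nth_rewrite 1 [← l2]
        rw [List.rotate_mod]
        exact e2)
    obtain ⟨h4, h5⟩ := h3
    subst h4
    rw [← List.rotate_mod l n, ← List.rotate_mod l n', l1, h5]
  hξ := h.hξ
  hN := h.hN

end GoodList

/-! ### Checking windows -/

/-- The value of a list of digits in base sixteen. -/
def val : List ℕ → ℕ
  | [] => 0
  | x :: s => x + 16 * val s

theorem val_lt {L : List ℕ} (h : ∀ x ∈ L, x < 16) : val L < 16 ^ L.length := by
  induction L with
  | nil => simp [val]
  | cons x s ih =>
    have h1 := ih fun y hy => h y (List.mem_cons_of_mem _ hy)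
    have h2 := h x List.mem_cons_self
    simp only [val, List.length_cons, pow_succ]
    omega

theorem val_div {L : List ℕ} (h : ∀ x ∈ L, x < 16) (n : ℕ) :
    val L / 16 ^ n = val (L.drop n) := by
  induction n generalizing L with
  | zero => simp
  | succ n ih =>
    cases L with
    | nil => simp [val]
    | cons x s =>
      have h1 := ih fun y hy => h y (List.mem_cons_of_mem _ hy)
      have h2 := h x List.mem_cons_self
      rw [List.drop_succ_cons, ← h1, pow_succ, mul_comm, ← Nat.div_div_eq_div_mul]
      congr 1
      simp only [val]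
      omega

theorem val_mod {L : List ℕ} (h : ∀ x ∈ L, x < 16) (n : ℕ) :
    val L % 16 ^ n = val (L.take n) := by
  induction n generalizing L with
  | zero => simp [val, Nat.mod_one]
  | succ n ih =>
    cases L with
    | nil => simp [val]
    | cons x s =>
      have h1 := ih fun y hy => h y (List.mem_cons_of_mem _ hy)
      have h2 := h x List.mem_cons_self
      rw [List.take_succ_cons]
      simp only [val]
      rw [← h1, pow_succ]
      have h3 : (x + 16 * val s) % (16 ^ n * 16) =
          (x + 16 * val s) % 16 + 16 * ((x + 16 * val s) / 16 % 16 ^ n) := by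
        rw [mul_comm (16 ^ n), Nat.mod_mul]
      rw [h3]
      have h4 : (x + 16 * val s) / 16 = val s := by omega
      have h5 : (x + 16 * val s) % 16 = x := by omega
      rw [h4, h5]

theorem val_inj {L L' : List ℕ} (h : ∀ x ∈ L, x < 16) (h' : ∀ x ∈ L', x < 16)
    (hl : L.length = L'.length) (e : val L = val L') : L = L' := by
  induction L generalizing L' with
  | nil =>
    cases L' with
    | nil => rfl
    | cons => simp at hl
  | cons x s ih =>
    cases L' with
    | nil => simp at hl
    | cons y t =>
      have h2 := h x List.mem_cons_self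
      have h3 := h' y List.mem_cons_self
      simp only [val] at e
      have e1 : x = y := by omega
      have e2 : val s = val t := by omega
      rw [e1, ih (fun z hz => h z (List.mem_cons_of_mem _ hz))
        (fun z hz => h' z (List.mem_cons_of_mem _ hz)) (by simpa using hl) e2]

/-- The entries of `l` that avoid the mask `p`. -/
noncomputable def sel0 (p : ℕ) (l : List ℕ) : List ℕ :=
  List.rec (motive := fun _ => List ℕ) []
    (fun x _ ih => cond (Nat.beq (Nat.land x p) 0) (x :: ih) ih) l

/-- The entries of `l` that meet the mask `p`. -/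
noncomputable def sel1 (p : ℕ) (l : List ℕ) : List ℕ :=
  List.rec (motive := fun _ => List ℕ) []
    (fun x _ ih => cond (Nat.beq (Nat.land x p) 0) ih (x :: ih)) l

/-- Duplicate test by splitting along masks. -/
noncomputable def split (ks : List ℕ) : List ℕ → Bool :=
  List.rec (motive := fun _ => List ℕ → Bool)
    (fun l => match l with
      | [] => true
      | [_] => true
      | _ :: _ :: _ => false)
    (fun k _ ih l => match l with
      | [] => true
      | [_] => true
      | a :: b :: l => ih (sel0 k (a :: b :: l)) && ih (sel1 k (a :: b :: l))) ks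

theorem sel0_eq (p : ℕ) (l : List ℕ) :
    sel0 p l = l.filter fun x => Nat.beq (Nat.land x p) 0 := by
  induction l with
  | nil => rfl
  | cons x l ih =>
    have h : sel0 p (x :: l) = cond (Nat.beq (Nat.land x p) 0) (x :: sel0 p l) (sel0 p l) := rfl
    rw [h, ih, List.filter_cons]
    cases Nat.beq (Nat.land x p) 0 <;> simp

theorem sel1_eq (p : ℕ) (l : List ℕ) :
    sel1 p l = l.filter fun x => !Nat.beq (Nat.land x p) 0 := by
  induction l with
  | nil => rfl
  | cons x l ih =>
    have h : sel1 p (x :: l) = cond (Nat.beq (Nat.land x p) 0) (sel1 p l) (x :: sel1 p l) := rfl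
    rw [h, ih, List.filter_cons]
    cases Nat.beq (Nat.land x p) 0 <;> simp

theorem nodup_of_split : ∀ (ks l : List ℕ), split ks l = true → l.Nodup := by
  intro ks
  induction ks with
  | nil =>
    intro l h
    match l, h with
    | [], _ => simp
    | [_], _ => simp
  | cons k ks ih =>
    intro l h
    match l, h with
    | [], _ => simp
    | [_], _ => simp
    | a :: b :: l, h =>
      have h' : (split ks (sel0 k (a :: b :: l)) && split ks (sel1 k (a :: b :: l))) = true := h
      simp only [Bool.and_eq_true] at h'
      have h1 := ih _ h'.1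
      have h2 := ih _ h'.2
      rw [sel0_eq] at h1
      rw [sel1_eq] at h2
      rw [List.nodup_iff_count_le_one]
      intro x
      by_cases hx : Nat.beq (Nat.land x k) 0 = true
      · rw [← List.count_filter (p := fun x => Nat.beq (Nat.land x k) 0) hx]
        exact List.nodup_iff_count_le_one.mp h1 x
      · rw [← List.count_filter (p := fun x => !Nat.beq (Nat.land x k) 0)
          (by rw [Bool.not_eq_true] at hx; rw [hx]; rfl)]
        exact List.nodup_iff_count_le_one.mp h2 x

/-- The list of codes of the windows of length `m` of a cyclic word of length `N`. -/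
def codes (N m : ℕ) (l : List ℕ) : List ℕ :=
  (List.range N).map fun p => val (l ++ l) / 16 ^ p % 16 ^ m

theorem window_eq {β : Type*} (l : List β) {n m : ℕ} (hn : n ≤ l.length) (hm : m ≤ l.length) :
    (l.rotate n).take m = ((l ++ l).drop n).take m := by
  rw [List.rotate_eq_drop_append_take hn, List.drop_append_of_le_length hn]
  rw [List.take_append, List.take_append]
  congr 1
  rw [List.take_take]
  congr 1
  rw [List.length_drop]
  omega

theorem goodList_of_check {L : List (List (α × Bool))} {N ξ : ℕ} (d : α × Bool → ℕ)
    (hd : ∀ x, d x < 16) (len : ∀ l ∈ L, l.length = N)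
    (red : ∀ l ∈ L, IsReduced (l ++ l)) (inv : ∀ l ∈ L, invRev l ∈ L)
    (hξ : 1 ≤ ξ) (hN : 31 * ξ ≤ N)
    (hnd : (L.flatMap fun l => codes N (ξ + 1) (l.map d)).Nodup) : GoodList L N ξ where
  len := len
  red := red
  inv := inv
  win := by
    intro l hl l' hl' n n' hn hn' e
    have hlt : ∀ (s : List (α × Bool)), ∀ x ∈ s.map d, x < 16 := by
      intro s x hx
      rw [List.mem_map] at hx
      obtain ⟨y, _, rfl⟩ := hx
      exact hd y
    have hval : ∀ s ∈ L, ∀ k < N, val (s.map d ++ s.map d) / 16 ^ k % 16 ^ (ξ + 1) =
        val (((s.rotate k).take (ξ + 1)).map d) := by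
      intro s hs k hk
      have h1 : ∀ x ∈ s.map d ++ s.map d, x < 16 := by
        rw [← List.map_append]; exact hlt _
      rw [val_div h1, val_mod (fun x hx => h1 x (List.mem_of_mem_drop hx)), ← List.map_append,
        ← List.map_drop, ← List.map_take, window_eq s (by rw [len s hs]; omega)
          (by rw [len s hs]; omega)]
    rw [List.nodup_flatMap] at hnd
    obtain ⟨h1, h2⟩ := hnd
    have e1 : val (l.map d ++ l.map d) / 16 ^ n % 16 ^ (ξ + 1) =
        val (l'.map d ++ l'.map d) / 16 ^ n' % 16 ^ (ξ + 1) := by
      rw [hval l hl n hn, hval l' hl' n' hn', e]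
    by_cases hll : l = l'
    · refine ⟨hll, ?_⟩
      subst hll
      have h3 := h1 l hl
      unfold codes at h3
      exact List.inj_on_of_nodup_map h3 (List.mem_range.mpr hn) (List.mem_range.mpr hn') e1
    · exfalso
      have : Std.Symm (Function.onFun List.Disjoint fun l => codes N (ξ + 1) (List.map d l)) :=
        ⟨fun a b hab => by
          simp only [Function.onFun] at hab ⊢
          exact hab.symm⟩
      have h3 := h2.forall hl hl' hll
      simp only [Function.onFun] at h3
      apply h3 (a := val (l.map d ++ l.map d) / 16 ^ n % 16 ^ (ξ + 1))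
      · exact List.mem_map.mpr ⟨n, List.mem_range.mpr hn, rfl⟩
      · rw [e1]
        exact List.mem_map.mpr ⟨n', List.mem_range.mpr hn', rfl⟩
  hξ := hξ
  hN := hN

end Pool.Agent.Helper87.Ray
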