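import Mathlib

/-!
# Discrete trees

Elementary geometry of a discrete tree, given by an integer valued metric `d`.
-/

namespace Pool.Agent.Helper87.Ray

variable {X : Type*}

/-- `m` lies between `x` and `y`. -/
def Btw (d : X → X → ℕ) (x m y : X) : Prop := d x m + d m y = d x y

/-- The axioms of a discrete tree metric. -/
structure IsTree (d : X → X → ℕ) : Prop where
  self : ∀ x, d x x = 0
  eq : ∀ x y, d x y = 0 → x = y
  comm : ∀ x y, d x y = d y x
  tri : ∀ x y z, d x z ≤ d x y + d y z
  med : ∀ x y z, ∃ m, Btw d x m y ∧ Btw d y m z ∧ Btw d x m z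
  lin : ∀ x y a b, Btw d x a y → Btw d x b y → d x a ≤ d x b → Btw d x a b
  geod : ∀ x y k, k ≤ d x y → ∃ z, Btw d x z y ∧ d x z = k

variable {d : X → X → ℕ}

namespace IsTree

theorem symm (T : IsTree d) {x m y : X} (h : Btw d x m y) : Btw d y m x := by
  unfold Btw at *
  rw [T.comm y m, T.comm m x, T.comm y x]; omega

theorem left (T : IsTree d) (x y : X) : Btw d x x y := by
  unfold Btw; rw [T.self]; omega

theorem right (T : IsTree d) (x y : X) : Btw d x y y := by
  unfold Btw; rw [T.self]; omega

/-- If `a` is between `x` and `y`, and `b` between `x` and `a`, then `b` is between `x` and `y`. -/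
theorem trans_left (T : IsTree d) {x a b y : X} (h : Btw d x a y) (h' : Btw d x b a) :
    Btw d x b y := by
  unfold Btw at *
  have h1 := T.tri b a y
  have h2 := T.tri x b y
  omega

theorem trans_left' (T : IsTree d) {x a b y : X} (h : Btw d x a y) (h' : Btw d x b a) :
    Btw d b a y := by
  unfold Btw at *
  have h1 := T.tri b a y
  have h2 := T.tri x b y
  omega

theorem trans_right (T : IsTree d) {x a b y : X} (h : Btw d x a y) (h' : Btw d a b y) :
    Btw d x b y := by
  unfold Btw at *
  have h1 := T.tri x a b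
  have h2 := T.tri x b y
  omega

theorem trans_right' (T : IsTree d) {x a b y : X} (h : Btw d x a y) (h' : Btw d a b y) :
    Btw d x a b := by
  unfold Btw at *
  have h1 := T.tri x a b
  have h2 := T.tri x b y
  omega

theorem uniq (T : IsTree d) {x a b y : X} (h : Btw d x a y) (h' : Btw d x b y)
    (e : d x a = d x b) : a = b := by
  have h1 := T.lin x y a b h h' e.le
  apply T.eq
  unfold Btw at h1
  omega

/-- Two points of an interval are comparable. -/
theorem lin' (T : IsTree d) {x a b y : X} (h : Btw d x a y) (h' : Btw d x b y) :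
    Btw d x a b ∨ Btw d x b a := by
  rcases le_total (d x a) (d x b) with e | e
  · exact Or.inl (T.lin x y a b h h' e)
  · exact Or.inr (T.lin x y b a h' h e)

/-- Two points of an interval are comparable, and the interval splits. -/
theorem order (T : IsTree d) {x a b y : X} (h : Btw d x a y) (h' : Btw d x b y) :
    (Btw d x a b ∧ Btw d a b y) ∨ (Btw d x b a ∧ Btw d b a y) := by
  rcases T.lin' h h' with e | e
  · exact Or.inl ⟨e, T.trans_left' h' e⟩
  · exact Or.inr ⟨e, T.trans_left' h e⟩

/-- Local geodesics are geodesics. -/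
theorem concat (T : IsTree d) {w p q v : X} (h1 : Btw d w p q) (h2 : Btw d p q v) (hne : p ≠ q) :
    Btw d w q v := by
  obtain ⟨m, hm1, hm2, hm3⟩ := T.med w q v
  -- m between w and q, between q and v, between w and v
  have key : m = q := by
    rcases T.order (T.symm h1) (T.symm hm1) with ⟨h3, h4⟩ | ⟨h3, h4⟩
    · -- p between q and m
      exfalso
      have h5 : Btw d q p v := T.trans_left hm2 h3
      apply hne
      apply T.eq
      unfold Btw at h5 h2
      have := T.comm p q
      omega
    · -- m between q and p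
      apply T.eq
      unfold Btw at h2 hm2 h3 
      have a1 := T.tri p m v
      have a2 := T.comm p q
      have a3 := T.comm p m
      have a4 := T.comm q m
      omega
  rw [← key]; exact hm3

theorem concat_left (T : IsTree d) {w p q v : X} (h1 : Btw d w p q) (h2 : Btw d p q v)
    (hne : p ≠ q) : Btw d w p v :=
  T.trans_left (T.concat h1 h2 hne) h1

/-- If `x` separates `a` and `b`, then every `y` is separated from `a` or from `b` by `x`. -/
theorem sep (T : IsTree d) {a x b : X} (h : Btw d a x b) (y : X) :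
    Btw d a x y ∨ Btw d b x y := by
  obtain ⟨m, hm1, hm2, hm3⟩ := T.med a b y
  rcases T.order h hm1 with ⟨h3, h4⟩ | ⟨h3, h4⟩
  · left
    exact T.trans_left hm3 h3
  · right
    have : Btw d b x m := T.symm h4
    exact T.trans_left hm2 this

/-- An interval from `x` to `y` is covered by the intervals `x z` and `z y`. -/
theorem cover (T : IsTree d) {x p y : X} (h : Btw d x p y) (z : X) :
    Btw d x p z ∨ Btw d z p y := by
  rcases T.sep h z with h | h
  · exact Or.inl h
  · exact Or.inr (T.symm h)

end IsTree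

/-- Convex subsets. -/
def Conv (d : X → X → ℕ) (W : Set X) : Prop :=
  ∀ x ∈ W, ∀ y ∈ W, ∀ z, Btw d x z y → z ∈ W

/-- The convex hull of a set. -/
def hull (d : X → X → ℕ) (S : Set X) : Set X := {z | ∃ x ∈ S, ∃ y ∈ S, Btw d x z y}

theorem subset_hull (T : IsTree d) (S : Set X) : S ⊆ hull d S :=
  fun x hx => ⟨x, hx, x, hx, T.left x x⟩

/-- Points of the hull can be moved outwards to points of the set. -/
theorem hull_out (T : IsTree d) {S : Set X} {x : X} (hx : x ∈ hull d S) (y : X) :
    ∃ s ∈ S, Btw d s x y := by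
  obtain ⟨a, ha, b, hb, h⟩ := hx
  rcases T.sep h y with h | h
  · exact ⟨a, ha, h⟩
  · exact ⟨b, hb, h⟩

theorem hull_conv (T : IsTree d) (S : Set X) : Conv d (hull d S) := by
  intro x hx y hy z hz
  -- extend to the left
  obtain ⟨s, hs, h1⟩ := hull_out T hx y
  obtain ⟨s', hs', h2⟩ := hull_out T hy s
  -- Btw s x y, Btw s' y s, z between x and y
  refine ⟨s, hs, s', hs', ?_⟩
  have h3 : Btw d s z y := T.trans_right h1 hz
  exact T.trans_left (T.symm h2) h3

theorem hull_subset {S W : Set X} (hW : Conv d W) (h : S ⊆ W) : hull d S ⊆ W := by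
  rintro z ⟨x, hx, y, hy, hz⟩
  exact hW x (h hx) y (h hy) z hz

/-- If `p ∈ W` is the only point of `W` between `p` and `x`, then it is the gate of `x` in `W`. -/
theorem gate (T : IsTree d) {W : Set X} (hW : Conv d W) {p x : X} (hp : p ∈ W)
    (h : ∀ z ∈ W, Btw d p z x → z = p) {w : X} (hw : w ∈ W) : Btw d w p x := by
  obtain ⟨m, hm1, hm2, hm3⟩ := T.med w p x
  have : m ∈ W := hW w hw p hp m hm1
  have := h m this hm2
  rw [← this]; exact hm3

/-- Closest pairs between two nonempty sets. -/
theorem exists_closest (d : X → X → ℕ) {A B : Set X} (hA : A.Nonempty) (hB : B.Nonempty) :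
    ∃ p ∈ A, ∃ q ∈ B, ∀ p' ∈ A, ∀ q' ∈ B, d p q ≤ d p' q' := by
  classical
  obtain ⟨a, ha⟩ := hA
  obtain ⟨b, hb⟩ := hB
  have hex : ∃ n, ∃ p ∈ A, ∃ q ∈ B, d p q = n := ⟨_, a, ha, b, hb, rfl⟩
  obtain ⟨p, hp, q, hq, e⟩ := Nat.find_spec hex
  refine ⟨p, hp, q, hq, fun p' hp' q' hq' => ?_⟩
  rw [e]
  exact Nat.find_min' hex ⟨p', hp', q', hq', rfl⟩

end Pool.Agent.Helper87.Ray
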